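import Pool.Agent.H24.VP.Alg

/-!
# [H24 VP HdA] THEOREM V+ (MP_e49dc9_ag): the index theorem of Hodge, algebra

`b(U,V) := T U V H` has integral values, `b(H,H) > 0` and `b ≤ 0` on the orthogonal complement of `H`.
`hdg_L`: let `b(L,L) > 0` and suppose `b(L,L) b(E,E) > b(L,E) ^ 2`.  `F := L^(-b(L,E)) * E^(b(L,L))` (`zpow`) has `b(F,L) = 0`,
`b(F,F) = b(L,L) (b(L,L) b(E,E) - b(L,E) ^ 2) > 0`.  `G := L^(b(F,H)) * F^(-b(L,H))`: `b(G,H) = 0`, `b(G,G) = b(F,H) ^ 2 b(L,L) +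
b(L,H) ^ 2 b(F,F) ≤ 0`: so `b(L,H) = 0`, then `b(L,L) ≤ 0`: false.
`hdg_eq`: `G' := G^(b(L,L)) * L^(-b(L,G))`, `b(G',L) = 0`; `hdg_L` for `E^t * G'`: `2 t b(E,G') + b(G',G') ≤ 0` for all integers `t`.
-/

set_option autoImplicit false

namespace Pool.Agent.H24.VP

open Pool.Agent.H54.RV Pool.Agent.H83.TU Pool.Agent.H83.TK Pool.Agent.H24.TK

variable {k K : Type} [Field k] [Field K] [Algebra k K] {X : Mod k K}
  {T : Cart X → Cart X → Cart X → ℝ}

private theorem exp2 (ht : Tri T) (A B H : Cart X) (p q : ℤ) :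
    T (A ^ p * B ^ q) (A ^ p * B ^ q) H = p ^ 2 * T A A H + 2 * p * q * T A B H + q ^ 2 * T B B H := by
  simp only [ht.add, ht.add2, ht.zpow, ht.zpow2]
  rw [ht.s12 B A H]
  ring

private theorem exp1 (ht : Tri T) (A B C H : Cart X) (p q : ℤ) :
    T (A ^ p * B ^ q) C H = p * T A C H + q * T B C H := by
  rw [ht.add, ht.zpow, ht.zpow]

theorem hdg_L (ht : Tri T) (hi : ∀ A B C, ∃ z : ℤ, T A B C = z) {H : Cart X} (h0 : 0 < T H H H)
    (h1 : ∀ E, T E H H = 0 → T E E H ≤ 0) (L E : Cart X) (hL : 0 < T L L H) :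
    T L L H * T E E H ≤ T L E H ^ 2 := by
  by_contra hcon
  push Not at hcon
  obtain ⟨a, ha⟩ := hi L L H
  obtain ⟨e, he⟩ := hi L E H
  obtain ⟨F, hF⟩ : ∃ F : Cart X, F = L ^ (-e) * E ^ a := ⟨_, rfl⟩
  have hFL : T L F H = 0 := by
    rw [ht.s12, hF, exp1 ht, ht.s12 E L H, ha, he]
    push_cast
    ring
  have hFF : 0 < T F F H := by
    have h2 : T F F H = T L L H * (T L L H * T E E H - T L E H ^ 2) := by
      rw [hF, exp2 ht, ha, he]
      push_cast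
      ring
    rw [h2]
    exact mul_pos hL (by linarith)
  obtain ⟨u, hu⟩ := hi F H H
  obtain ⟨v, hv⟩ := hi L H H
  have hG1 : T (L ^ u * F ^ (-v)) H H = 0 := by
    rw [exp1 ht, hu, hv]
    push_cast
    ring
  have hG2 := h1 _ hG1
  rw [exp2 ht, hFL] at hG2
  push_cast at hG2
  have h3 : (v : ℝ) ^ 2 * T F F H ≤ 0 := by nlinarith [mul_nonneg (sq_nonneg (u : ℝ)) hL.le]
  have h4 : (v : ℝ) = 0 := by
    by_contra hne
    have h5 : 0 < (v : ℝ) ^ 2 := lt_of_le_of_ne (sq_nonneg _) (Ne.symm (pow_ne_zero 2 hne))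
    have h6 := mul_pos h5 hFF
    linarith
  have h5 : T L H H = 0 := by rw [hv, h4]
  exact absurd (h1 L h5) (not_le.2 hL)

theorem hdg_eq (ht : Tri T) (hi : ∀ A B C, ∃ z : ℤ, T A B C = z) {H : Cart X} (h0 : 0 < T H H H)
    (h1 : ∀ E, T E H H = 0 → T E E H ≤ 0) (L E G : Cart X) (hL : 0 < T L L H) (h2 : T L E H = 0)
    (h3 : T E E H = 0) : T E G H = 0 := by
  obtain ⟨a, ha⟩ := hi L L H
  obtain ⟨g, hg⟩ := hi L G H
  obtain ⟨G', hG'⟩ : ∃ G' : Cart X, G' = G ^ a * L ^ (-g) := ⟨_, rfl⟩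
  have h4 : T L G' H = 0 := by
    rw [ht.s12, hG', exp1 ht, ht.s12 G L H, ha, hg]
    push_cast
    ring
  have h5 : T E G' H = T L L H * T E G H := by
    rw [ht.s12, hG', exp1 ht, ht.s12 G E H, h2, ha]
    ring
  have h6 : ∀ t : ℤ, 2 * (t : ℝ) * T E G' H + T G' G' H ≤ 0 := by
    intro t
    have h7 := hdg_L ht hi h0 h1 L (E ^ t * G' ^ (1 : ℤ)) hL
    have h8 : T L (E ^ t * G' ^ (1 : ℤ)) H = 0 := by
      rw [ht.s12, exp1 ht, ht.s12 E L H, ht.s12 G' L H, h2, h4]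
      ring
    rw [h8, exp2 ht, h3] at h7
    push_cast at h7
    have h9 : T L L H * (2 * (t : ℝ) * T E G' H + T G' G' H) ≤ 0 := by
      have h10 : T L L H * (2 * (t : ℝ) * T E G' H + T G' G' H) =
          T L L H * ((t : ℝ) ^ 2 * 0 + 2 * t * 1 * T E G' H + 1 ^ 2 * T G' G' H) := by ring
      rw [h10]
      linarith
    by_contra hc
    push Not at hc
    have h10 := mul_pos hL hc
    linarith
  have h7 : T E G' H = 0 := by
    by_contra hne
    rcases lt_or_gt_of_ne hne with h8 | h8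
    · obtain ⟨t, ht'⟩ := exists_int_lt (-(T G' G' H) / (2 * T E G' H))
      have h9 := h6 t
      rw [lt_div_iff_of_neg (by linarith)] at ht'
      linarith
    · obtain ⟨t, ht'⟩ := exists_int_gt (-(T G' G' H) / (2 * T E G' H))
      have h9 := h6 t
      rw [div_lt_iff₀ (by linarith)] at ht'
      linarith
  rw [h5] at h7
  exact (mul_eq_zero.1 h7).resolve_left (ne_of_gt hL)

end Pool.Agent.H24.VP
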