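import Pool.Agent.H24.VP.T4

/-!
# [H24 VP Hdg] THEOREM V+ (MP_e49dc9_ag): the index theorem of Hodge on the generic surface

Let `T(E,H,H) = 0`, suppose `0 < T(E,E,H)`.  For `m ≥ 1` and `W = ± m E + 2 H`: `T(W,H,H) = 2 T(H,H,H) > T(H,H,H)` (`crv_num`), `t4`:
`h0 (ψ W) ≥ chS W = m ^ 2 T(E,E,H) / 2 + const`.  So for large `m` both spaces have sections and the dimension is unbounded; but
`h0 (ψ (m E + 2 H)) ≤ h0 (ψ (4 H))` (`mul_s` with `D := E ^ (-m) * H ^ 2`).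
-/

set_option autoImplicit false

namespace Pool.Agent.H24.VP

open Pool.Agent.H54.RV Pool.Agent.H83.TU Pool.Agent.H83.TK Pool.Agent.H24.TK Pool.Agent.H41.TK

variable {k K : Type} [Field k] [Field K] [Algebra k K] {X : Mod k K}
  {T : Cart X → Cart X → Cart X → ℝ} {l : Cart X → ℝ} {c : ℝ} {H : Cart X} {k' L : Type} [Field k'] [Field L]
  [Algebra k' L] {S : Mod k' L} {ψ : Cart X →* Cart S}

theorem hdg (hr : RR T l c) (hS : Sf H S ψ) (E : Cart X) (hE : T E H H = 0) : T E E H ≤ 0 := by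
  by_contra hpos
  push Not at hpos
  have hH : 0 < T H H H := (crv_num hr hS).1
  set κ : ℝ := T H H H + T H H H / 6 + l H with hκ
  have key : ∀ a : ℤ, (a : ℝ) ^ 2 * T E E H / 2 + κ ≤ h0 (ψ (E ^ a * H ^ 2)) 1 := by
    intro a
    have e1 : T (E ^ a * H ^ 2) H H = 2 * T H H H := by
      rw [hr.tri.add, hr.tri.zpow, hr.tri.pow, hE]
      push_cast
      ring
    have h1 := t4 hr hS (E ^ a * H ^ 2) (by rw [e1]; linarith)
    have e2 : T (E ^ a * H ^ 2) (E ^ a * H ^ 2) H = (a : ℝ) ^ 2 * T E E H + 4 * T H H H := by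
      simp only [hr.tri.add, hr.tri.add2, hr.tri.zpow, hr.tri.zpow2, hr.tri.pow, hr.tri.pow2]
      rw [hr.tri.s12 H E H, hE]
      push_cast
      ring
    have e3 : chS T l H (E ^ a * H ^ 2) = (a : ℝ) ^ 2 * T E E H / 2 + κ := by
      unfold chS
      rw [e1, e2, hκ]
      ring
    rw [e3] at h1
    exact h1
  obtain ⟨m, hm⟩ : ∃ m : ℕ, (|κ| + h0 (ψ (H ^ 4)) 1 + 1) / (T E E H / 2) < m := exists_nat_gt _
  have hm1 : |κ| + h0 (ψ (H ^ 4)) 1 + 1 < m * (T E E H / 2) := by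
    rwa [div_lt_iff₀ (by linarith)] at hm
  have hm0 : (1 : ℝ) ≤ m := by
    have h2 : (0 : ℝ) < m := by
      by_contra h3
      have h4 : (m : ℝ) * (T E E H / 2) ≤ 0 := mul_nonpos_of_nonpos_of_nonneg (not_lt.1 h3) (by linarith)
      have h5 : (0 : ℝ) ≤ h0 (ψ (H ^ 4)) 1 := Nat.cast_nonneg _
      have h6 := abs_nonneg κ
      linarith
    exact_mod_cast h2
  have hm2 : (m : ℝ) * (T E E H / 2) ≤ (m : ℝ) ^ 2 * T E E H / 2 := by
    have h7 : (m : ℝ) ≤ (m : ℝ) ^ 2 := by nlinarith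
    nlinarith
  have hk := neg_abs_le κ
  have hh : (0 : ℝ) ≤ h0 (ψ (H ^ 4)) 1 := Nat.cast_nonneg _
  have hneg : 0 < h0 (ψ (E ^ (-(m : ℤ)) * H ^ 2)) 1 := by
    have h8 := key (-(m : ℤ))
    have h9 : (((-(m : ℤ) : ℤ) : ℝ)) ^ 2 = (m : ℝ) ^ 2 := by
      push_cast
      ring
    rw [h9] at h8
    have h10 : (0 : ℝ) < h0 (ψ (E ^ (-(m : ℤ)) * H ^ 2)) 1 := by linarith
    exact_mod_cast h10
  have h11 := mul_s hS (E ^ (m : ℤ) * H ^ 2) (E ^ (-(m : ℤ)) * H ^ 2) hneg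
  have e4 : E ^ (m : ℤ) * H ^ 2 * (E ^ (-(m : ℤ)) * H ^ 2) = H ^ 4 := by
    rw [mul_mul_mul_comm, ← zpow_add, add_neg_cancel, zpow_zero, one_mul, ← pow_add]
  rw [e4] at h11
  have h12 := key (m : ℤ)
  have h13 : (h0 (ψ (E ^ (m : ℤ) * H ^ 2)) 1 : ℝ) ≤ h0 (ψ (H ^ 4)) 1 := by exact_mod_cast h11
  rw [Int.cast_natCast] at h12
  linarith

end Pool.Agent.H24.VP
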