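import Pool.Agent.H24.VP.PosB
import Pool.Agent.H36.TU.VC

/-!
# [H24 VP Pos] THEOREM V+ (MP_e49dc9_ag): positivity of the intersection form on `X`

`nn_eff`, `pos_eff`: `fac_eff`, `nn_prm`, `pos_prm`, `triv_T` (`Tri.s12`, `Tri.s23`).  `pos_amp`, `nn_amp`: a multiple `C ^ n` of an ample divisor has a nonzero
section `s` (`C ^ n * prin s` effective; `T(prin s,.,.) = 0` by `h0_prin`, as for `triv_T`); for `0 <` it must not be trivial: `eff_not_numz`,
`numz_prin` (`H83/TU/EN.lean`, `AM.lean`), or choose a section vanishing at some point (`h0 (C ^ n)` grows).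
`numz_T`: `D` and `D⁻¹` are nef, `nn_amp`; every divisor is a difference of ample ones (`ample_add`: see `aae_nn` in `H32/TK/HC.lean`).
-/

set_option autoImplicit false

namespace Pool.Agent.H24.VP

open Pool.Agent.H54.RV Pool.Agent.H83.TU Pool.Agent.H83.TK Pool.Agent.H24.TK

variable {k K : Type} [Field k] [Field K] [Algebra k K] {X : Mod k K}
  {T : Cart X → Cart X → Cart X → ℝ} {l : Cart X → ℝ} {c : ℝ}

private theorem t_of_h0 (h : Hyp X) (hr : RR T l c) {U : Cart X} (hU : ∀ W : Cart X, h0 (W * U) 1 = h0 W 1)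
    (A B : Cart X) : T U A B = 0 := by
  obtain ⟨H, hH⟩ := h.amp
  have hev : ∀ W : Cart X, ∃ n₀ : ℕ, ∀ n ≥ n₀, chi T l c (H ^ n * W * U) = chi T l c (H ^ n * W) := by
    intro W
    obtain ⟨n₁, h1⟩ := hr.ev (W * U) H hH
    obtain ⟨n₂, h2⟩ := hr.ev W H hH
    refine ⟨max n₁ n₂, fun n hn => ?_⟩
    have h3 := h1 n (le_trans (le_max_left _ _) hn)
    have h4 := h2 n (le_trans (le_max_right _ _) hn)
    have e1 : H ^ n * W * U = W * U * H ^ n := by rw [mul_comm (H ^ n) W, mul_right_comm]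
    have e2 : H ^ n * W = W * H ^ n := mul_comm _ _
    have e3 : W * U * H ^ n = W * H ^ n * U := mul_right_comm _ _ _
    rw [e1, e2, ← h3, ← h4, e3, hU]
  obtain ⟨n₁, h1⟩ := hev 1
  obtain ⟨n₂, h2⟩ := hev A
  obtain ⟨n₃, h3⟩ := hev B
  obtain ⟨n₄, h4⟩ := hev (A * B)
  obtain ⟨n, hn⟩ : ∃ n, n = max (max n₁ n₂) (max n₃ n₄) := ⟨_, rfl⟩
  have a1 := h1 n (by rw [hn]; exact le_trans (le_max_left _ _) (le_max_left _ _))
  have a2 := h2 n (by rw [hn]; exact le_trans (le_max_right _ _) (le_max_left _ _))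
  have a3 := h3 n (by rw [hn]; exact le_trans (le_max_left _ _) (le_max_right _ _))
  have a4 := h4 n (by rw [hn]; exact le_trans (le_max_right _ _) (le_max_right _ _))
  rw [mul_one] at a1
  rw [← mul_assoc] at a4
  have h5 := hr.chi_sub3 (H ^ n) U A B
  have e1 : H ^ n * U * A * B = H ^ n * A * B * U := by
    rw [mul_right_comm (H ^ n) U A, mul_right_comm (H ^ n * A) U B]
  have e2 : H ^ n * U * A = H ^ n * A * U := mul_right_comm _ _ _
  have e3 : H ^ n * U * B = H ^ n * B * U := mul_right_comm _ _ _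
  rw [e1, e2, e3, a1, a2, a3, a4] at h5
  linarith

private theorem prin_T (h : Hyp X) (hr : RR T l c) (f : K) (hf : f ≠ 0) (A B : Cart X) :
    T (prin X f hf) A B = 0 :=
  t_of_h0 h hr (fun W => Pool.Agent.H41.TK.h0_prin W f hf) A B

private theorem diff_amp (h : Hyp X) (G : Cart X) : ∃ A B : Cart X, Ample A ∧ Ample B ∧ G = A * B⁻¹ := by
  obtain ⟨H, hH⟩ := h.amp
  obtain ⟨m, hm, hA⟩ := ample_add h.var H G hH
  refine ⟨H ^ m * G, H ^ m, hA, ample_pow H m hm hH, ?_⟩
  rw [mul_comm (H ^ m) G, mul_inv_cancel_right]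

private theorem list_T (hr : RR T l c) (A B : Cart X) (L : List (Cart X)) :
    T A B L.prod = (L.map fun S => T A B S).sum := by
  induction L with
  | nil => rw [List.prod_nil, List.map_nil, List.sum_nil, hr.tri.one3]
  | cons S L ih => rw [List.prod_cons, List.map_cons, List.sum_cons, hr.tri.add3, ih]

/-- a multiple of an ample divisor and a principal divisor with effective sum -/
private theorem amp_sec (h : Hyp X) {C : Cart X} (hC : Ample C) :
    ∃ (n : ℕ) (f : K) (hf : f ≠ 0), 1 ≤ n ∧ Effective (C ^ n * prin X f hf) := by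
  obtain ⟨x⟩ := h.var.ne
  obtain ⟨n, hn, s, hs, hx, -⟩ := hC x
  have hs0 : s ≠ 0 := left_ne_zero_of_mul hx.1
  refine ⟨n, s, hs0, hn, fun y => ?_⟩
  have e : (C ^ n * prin X s hs0).eq y = s * C.eq y ^ n := by
    rw [mul_eq, pow_eq, mul_comm]
    rfl
  rw [e]
  exact hs y

theorem nn_eff [CharZero k] [T0Space X.P] (h : Hyp X) (hr : RR T l c) {N B E : Cart X} (hN : Nf N) (hB : Ample B)
    (hE : Effective E) : 0 ≤ T N B E := by
  obtain ⟨Ls, U, h1, h2, h3, h4⟩ := fac_eff h hr hE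
  rw [h4, hr.tri.add3, list_T hr]
  have h5 : T N B U = 0 := by
    rw [hr.tri.s23, hr.tri.s12]
    exact triv_T h hr h2 h3 N B
  rw [h5, add_zero]
  refine List.sum_nonneg fun x hx => ?_
  rw [List.map_map] at hx
  obtain ⟨p, hp, rfl⟩ := List.mem_map.1 hx
  exact nn_prm h hr hN hB p.1 (h1 p hp)

theorem pos_eff [CharZero k] [T0Space X.P] (h : Hyp X) (hr : RR T l c) {A B E : Cart X} (hA : Ample A) (hB : Ample B)
    (hE : Effective E) (hE' : ¬ Effective E⁻¹) : 0 < T A B E := by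
  obtain ⟨Ls, U, h1, h2, h3, h4⟩ := fac_eff h hr hE
  rw [h4, hr.tri.add3, list_T hr]
  have h5 : T A B U = 0 := by
    rw [hr.tri.s23, hr.tri.s12]
    exact triv_T h hr h2 h3 A B
  rw [h5, add_zero, List.map_map]
  cases Ls with
  | nil =>
    exfalso
    apply hE'
    rw [h4, List.map_nil, List.prod_nil, one_mul]
    exact h3
  | cons p Ls =>
    rw [List.map_cons, List.sum_cons]
    have h6 : 0 < T A B p.2 := pos_prm h hr hA hB p.1 (h1 p List.mem_cons_self)
    have h7 : 0 ≤ (List.map ((fun S => T A B S) ∘ Prod.snd) Ls).sum := by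
      refine List.sum_nonneg fun x hx => ?_
      obtain ⟨p', hp, rfl⟩ := List.mem_map.1 hx
      exact (pos_prm h hr hA hB p'.1 (h1 p' (List.mem_cons_of_mem _ hp))).le
    exact add_pos_of_pos_of_nonneg h6 h7

theorem pos_amp [CharZero k] [T0Space X.P] (h : Hyp X) (hr : RR T l c) {A B C : Cart X} (hA : Ample A) (hB : Ample B)
    (hC : Ample C) : 0 < T A B C := by
  obtain ⟨n, f, hf, hn, hE⟩ := amp_sec h hC
  have hn0 : (0 : ℝ) < n := by exact_mod_cast hn
  have h1 : T A B (C ^ n * prin X f hf) = n * T A B C := by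
    rw [hr.tri.add3, hr.tri.pow3]
    have h2 : T A B (prin X f hf) = 0 := by
      rw [hr.tri.s23, hr.tri.s12]
      exact prin_T h hr f hf A B
    rw [h2, add_zero]
  have hE' : ¬ Effective (C ^ n * prin X f hf)⁻¹ := by
    intro hE'
    obtain ⟨P⟩ := Pool.Agent.H36.TU.exists_any h
    obtain ⟨S, hS⟩ := pdiv_spr h P
    have h3 := pos_prm h hr hC hB P hS
    have h4 := triv_T h hr hE hE' B S
    rw [hr.tri.add, hr.tri.pow, prin_T h hr, add_zero] at h4
    have h5 : T C B S = 0 := by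
      rcases mul_eq_zero.1 h4 with h6 | h6
      · exact absurd h6 hn0.ne'
      · exact h6
    rw [h5] at h3
    exact lt_irrefl _ h3
  have h3 := pos_eff h hr hA hB hE hE'
  rw [h1] at h3
  exact (mul_pos_iff_of_pos_left hn0).1 h3

theorem nn_amp [CharZero k] [T0Space X.P] (h : Hyp X) (hr : RR T l c) {N B C : Cart X} (hN : Nf N) (hB : Ample B)
    (hC : Ample C) : 0 ≤ T N B C := by
  obtain ⟨n, f, hf, hn, hE⟩ := amp_sec h hC
  have hn0 : (0 : ℝ) < n := by exact_mod_cast hn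
  have h1 : T N B (C ^ n * prin X f hf) = n * T N B C := by
    rw [hr.tri.add3, hr.tri.pow3]
    have h2 : T N B (prin X f hf) = 0 := by
      rw [hr.tri.s23, hr.tri.s12]
      exact prin_T h hr f hf N B
    rw [h2, add_zero]
  have h3 := nn_eff h hr hN hB hE
  rw [h1] at h3
  exact nonneg_of_mul_nonneg_right h3 hn0

theorem numz_T [CharZero k] [T0Space X.P] (h : Hyp X) (hr : RR T l c) {D : Cart X} (hD : NumZ D) (A B : Cart X) :
    T D A B = 0 := by
  have hz : ∀ B C : Cart X, Ample B → Ample C → T D B C = 0 := by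
    intro B C hB hC
    have h1 : 0 ≤ T D B C := nn_amp h hr (fun A hA => (hD A hA).1) hB hC
    have h2 : 0 ≤ T D⁻¹ B C := nn_amp h hr (fun A hA => (hD A hA).2) hB hC
    rw [hr.tri.inv] at h2
    linarith
  obtain ⟨A₁, A₂, hA₁, hA₂, hA⟩ := diff_amp h A
  obtain ⟨B₁, B₂, hB₁, hB₂, hB⟩ := diff_amp h B
  rw [hA, hB]
  simp only [hr.tri.add2, hr.tri.add3, hr.tri.inv2, hr.tri.inv3, hz A₁ B₁ hA₁ hB₁, hz A₁ B₂ hA₁ hB₂,
    hz A₂ B₁ hA₂ hB₁, hz A₂ B₂ hA₂ hB₂]
  ring

end Pool.Agent.H24.VP
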