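import Pool.Agent.H24.VP.Exi
import Pool.Agent.H24.VP.Hdg
import Pool.Agent.H24.VP.HdA
import Pool.Agent.H24.VP.Pos

/-!
# [H24 VP Hda2] THEOREM V+ (MP_e49dc9_ag): the index theorem for all ample divisors

`hdg_amp`: `exists_sf`, `hdg` for `H = A ^ m`.
`zero_pairs`: `B` ample: `A ^ n * B⁻¹` is ample for large `n`; `T(N,A,A) = 0`, `nn_amp`: `T(N,A,B) = 0`, then `T(N,B,B) = 0`; `hdg_eq` (`L := B`,
`E := N`, `hdg_amp`): `T(N,G,B) = 0` for all `G`; every divisor is a difference of ample ones (`ample_add`: see `aae_nn`, `H32/TK/HC.lean`).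
-/

set_option autoImplicit false

namespace Pool.Agent.H24.VP

open Pool.Agent.H54.RV Pool.Agent.H83.TU Pool.Agent.H83.TK Pool.Agent.H24.TK

variable {k K : Type} [Field k] [Field K] [Algebra k K] {X : Mod k K}
  {T : Cart X → Cart X → Cart X → ℝ} {l : Cart X → ℝ} {c : ℝ}

theorem hdg_amp [CharZero k] [T0Space X.P] (h : Hyp X) (hr : RR T l c) {A : Cart X} (hA : Ample A) (E : Cart X)
    (hE : T E A A = 0) : T E E A ≤ 0 := by
  obtain ⟨m, k', L, i1, i2, i3, S, ψ, hm, hS⟩ := exists_sf h hA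
  have h1 : T E E (A ^ m) ≤ 0 := by
    apply hdg hr hS E
    rw [hr.tri.pow2, hr.tri.pow3, hE, mul_zero, mul_zero]
  rw [hr.tri.pow3] at h1
  have h2 : (0 : ℝ) < m := by exact_mod_cast hm
  by_contra h3
  push Not at h3
  have := mul_pos h2 h3
  linarith

theorem zero_pairs [CharZero k] [T0Space X.P] (h : Hyp X) (hr : RR T l c) {A N : Cart X} (hA : Ample A) (hN : Nf N)
    (hNN : ∀ G, T N N G = 0) (hv : T N A A = 0) (G G' : Cart X) : T N G G' = 0 := by
  -- ample divisors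
  have key1 : ∀ B : Cart X, Ample B → T N B B = 0 := by
    intro B hB
    obtain ⟨n, hn, hC⟩ := ample_add h.var A B⁻¹ hA
    have h1 := nn_amp h hr hN hA hC
    have h2 := nn_amp h hr hN hA hB
    have h3 := nn_amp h hr hN hB hC
    have h4 := nn_amp h hr hN hB hB
    rw [hr.tri.add3, hr.tri.pow3, hr.tri.inv3] at h1 h3
    have h5 : T N A B = 0 := by
      rw [hv, mul_zero] at h1
      linarith
    have h6 : T N B A = 0 := by rw [hr.tri.s23, h5]
    rw [h6, mul_zero] at h3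
    linarith
  have key2 : ∀ B : Cart X, Ample B → ∀ G, T N G B = 0 := by
    intro B hB G
    have h0 : 0 < T B B B := pos_amp h hr hB hB hB
    have h2 : T B N B = 0 := by rw [hr.tri.s12, key1 B hB]
    exact hdg_eq hr.tri (t_int hr ⟨A, hA⟩) h0 (fun E hE => hdg_amp h hr hB E hE) B N G h0 h2 (hNN B)
  obtain ⟨m, hm, hB⟩ := ample_add h.var A G' hA
  have h1 := key2 _ hB G
  rw [hr.tri.add3, hr.tri.pow3, key2 A hA G, mul_zero, zero_add] at h1
  exact h1

end Pool.Agent.H24.VP
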