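import Pool.Agent.H24.VP.Pos

/-!
# [H24 VP Nef] THEOREM V+ (MP_e49dc9_ag): nef divisors
-/

set_option autoImplicit false

namespace Pool.Agent.H24.VP

open Pool.Agent.H54.RV Pool.Agent.H83.TU Pool.Agent.H83.TK Pool.Agent.H24.TK Pool.Agent.H57.KM

variable {k K : Type} [Field k] [Field K] [Algebra k K] {X : Mod k K}
  {T : Cart X → Cart X → Cart X → ℝ} {l : Cart X → ℝ} {c : ℝ}

theorem nf_pow {A N : Cart X} (hA : Ample A) (hN : Nf N) (n : ℕ) : Ample (A * N ^ n) := by
  induction n with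
  | zero => rwa [pow_zero, mul_one]
  | succ n ih =>
    rw [pow_succ, ← mul_assoc]
    exact hN _ ih

/-- every divisor is a difference of ample divisors -/
theorem exists_amp (hX : IsVar X) {A : Cart X} (hA : Ample A) (G : Cart X) :
    ∃ n₀ : ℕ, ∀ n ≥ n₀, Ample (A ^ n * G) := by
  obtain ⟨m, hm, hamp⟩ := ample_add hX A G hA
  refine ⟨m, fun n hn => ?_⟩
  obtain ⟨i, rfl⟩ : ∃ i, n = i + m := ⟨n - m, by omega⟩
  rcases Nat.eq_zero_or_pos i with h1 | h1
  · rw [h1, zero_add]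
    exact hamp
  · rw [pow_add, mul_assoc]
    exact ample_mul hX _ _ (ample_pow A i h1 hA) hamp

/-- a linear function of `n` which is nonnegative for all `n` -/
private theorem lin_nn {a b : ℝ} (h : ∀ n : ℕ, 0 ≤ a + n * b) : 0 ≤ b := by
  by_contra hb
  push Not at hb
  obtain ⟨n, hn⟩ := exists_nat_gt (a / -b)
  rw [div_lt_iff₀ (by linarith)] at hn
  have := h n
  linarith

theorem nn_NC [CharZero k] [T0Space X.P] (h : Hyp X) (hr : RR T l c) {N C : Cart X} (hN : Nf N) (hC : Ample C) :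
    0 ≤ T N N C := by
  refine lin_nn (a := T N C C) fun n => ?_
  have h1 := nn_amp h hr hN (nf_pow hC hN n) hC
  rw [hr.tri.add2, hr.tri.pow2] at h1
  exact h1

theorem nn_NN [CharZero k] [T0Space X.P] (h : Hyp X) (hr : RR T l c) {N : Cart X} (hN : Nf N) :
    0 ≤ T N N N := by
  obtain ⟨A, hA⟩ := h.amp
  refine lin_nn (a := T N N A) fun n => ?_
  have h1 := nn_NC h hr hN (nf_pow hA hN n)
  rw [hr.tri.add3, hr.tri.pow3] at h1
  exact h1

theorem all_NN [CharZero k] [T0Space X.P] (h : Hyp X) (hr : RR T l c) {N H : Cart X} (hN : Nf N) (hH : Ample H)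
    (h0 : T N N H = 0) (G : Cart X) : T N N G = 0 := by
  have key : ∀ C : Cart X, Ample C → T N N C = 0 := by
    intro C hC
    refine le_antisymm ?_ (nn_NC h hr hN hC)
    obtain ⟨n, hn⟩ := exists_amp h.var hH C⁻¹
    have h1 := nn_NC h hr hN (hn n le_rfl)
    rw [hr.tri.add3, hr.tri.pow3, hr.tri.inv3, h0, mul_zero] at h1
    linarith
  obtain ⟨n, hn⟩ := exists_amp h.var hH G
  have h1 := key _ (hn n le_rfl)
  rw [hr.tri.add3, hr.tri.pow3, h0, mul_zero, zero_add] at h1
  exact h1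

end Pool.Agent.H24.VP
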