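import Pool.Agent.H24.VP.Def

/-!
# [H24 VP Alg] THEOREM V+: calculus of the intersection form
-/

set_option autoImplicit false

namespace Pool.Agent.H24.VP

open Pool.Agent.H54.RV Pool.Agent.H83.TU Pool.Agent.H83.TK Pool.Agent.H24.TK

variable {k K : Type} [Field k] [Field K] [Algebra k K] {X : Mod k K}
  {T : Cart X → Cart X → Cart X → ℝ} {l : Cart X → ℝ} {c : ℝ}

/-- the slice as a homomorphism -/
theorem Tri.hom (h : Tri T) (C D : Cart X) : ∃ f : Cart X →* Multiplicative ℝ, ∀ A, (f A).toAdd = T A C D :=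
  ⟨MonoidHom.mk' (fun A => Multiplicative.ofAdd (T A C D)) fun A B => by rw [h.add, ofAdd_add], fun _ => rfl⟩

theorem Tri.one (h : Tri T) (C D : Cart X) : T 1 C D = 0 := by
  obtain ⟨f, hf⟩ := h.hom C D
  rw [← hf, map_one]
  rfl

theorem Tri.inv (h : Tri T) (A C D : Cart X) : T A⁻¹ C D = - T A C D := by
  obtain ⟨f, hf⟩ := h.hom C D
  rw [← hf, ← hf, map_inv]
  rfl

theorem Tri.pow (h : Tri T) (A C D : Cart X) (n : ℕ) : T (A ^ n) C D = n * T A C D := by
  obtain ⟨f, hf⟩ := h.hom C D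
  rw [← hf, ← hf, map_pow, toAdd_pow, nsmul_eq_mul]

theorem Tri.zpow (h : Tri T) (A C D : Cart X) (n : ℤ) : T (A ^ n) C D = n * T A C D := by
  obtain ⟨f, hf⟩ := h.hom C D
  rw [← hf, ← hf, map_zpow, toAdd_zpow, zsmul_eq_mul]

theorem Tri.prod (h : Tri T) {ι : Type} (s : Finset ι) (f : ι → Cart X) (C D : Cart X) :
    T (∏ i ∈ s, f i) C D = ∑ i ∈ s, T (f i) C D := by
  classical
  induction s using Finset.induction_on with
  | empty => rw [Finset.prod_empty, Finset.sum_empty, h.one]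
  | insert a s ha ih => rw [Finset.prod_insert ha, Finset.sum_insert ha, h.add, ih]

theorem Tri.add2 (h : Tri T) (A B C D : Cart X) : T C (A * B) D = T C A D + T C B D := by
  rw [h.s12, h.add, h.s12 A, h.s12 B]

theorem Tri.one2 (h : Tri T) (C D : Cart X) : T C 1 D = 0 := by rw [h.s12, h.one]

theorem Tri.inv2 (h : Tri T) (A C D : Cart X) : T C A⁻¹ D = - T C A D := by rw [h.s12, h.inv, h.s12 A]

theorem Tri.pow2 (h : Tri T) (A C D : Cart X) (n : ℕ) : T C (A ^ n) D = n * T C A D := by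
  rw [h.s12, h.pow, h.s12 A]

theorem Tri.zpow2 (h : Tri T) (A C D : Cart X) (n : ℤ) : T C (A ^ n) D = n * T C A D := by
  rw [h.s12, h.zpow, h.s12 A]

theorem Tri.prod2 (h : Tri T) {ι : Type} (s : Finset ι) (f : ι → Cart X) (C D : Cart X) :
    T C (∏ i ∈ s, f i) D = ∑ i ∈ s, T C (f i) D := by
  rw [h.s12, h.prod]
  exact Finset.sum_congr rfl fun i _ => h.s12 _ _ _

theorem Tri.add3 (h : Tri T) (A B C D : Cart X) : T C D (A * B) = T C D A + T C D B := by
  rw [h.s23, h.add2, h.s23 C A, h.s23 C B]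

theorem Tri.one3 (h : Tri T) (C D : Cart X) : T C D 1 = 0 := by rw [h.s23, h.one2]

theorem Tri.inv3 (h : Tri T) (A C D : Cart X) : T C D A⁻¹ = - T C D A := by rw [h.s23, h.inv2, h.s23 C A]

theorem Tri.pow3 (h : Tri T) (A C D : Cart X) (n : ℕ) : T C D (A ^ n) = n * T C D A := by
  rw [h.s23, h.pow2, h.s23 C A]

theorem Tri.zpow3 (h : Tri T) (A C D : Cart X) (n : ℤ) : T C D (A ^ n) = n * T C D A := by
  rw [h.s23, h.zpow2, h.s23 C A]

theorem Tri.prod3 (h : Tri T) {ι : Type} (s : Finset ι) (f : ι → Cart X) (C D : Cart X) :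
    T C D (∏ i ∈ s, f i) = ∑ i ∈ s, T C D (f i) := by
  rw [h.s23, h.prod2]
  exact Finset.sum_congr rfl fun i _ => h.s23 _ _ _

theorem RR.lhom (h : RR T l c) : ∃ f : Cart X →* Multiplicative ℝ, ∀ A, (f A).toAdd = l A :=
  ⟨MonoidHom.mk' (fun A => Multiplicative.ofAdd (l A)) fun A B => by rw [h.ladd, ofAdd_add], fun _ => rfl⟩

theorem RR.l_one (h : RR T l c) : l 1 = 0 := by
  obtain ⟨f, hf⟩ := h.lhom
  rw [← hf, map_one]
  rfl

theorem RR.l_inv (h : RR T l c) (A : Cart X) : l A⁻¹ = - l A := by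
  obtain ⟨f, hf⟩ := h.lhom
  rw [← hf, ← hf, map_inv]
  rfl

theorem RR.l_pow (h : RR T l c) (A : Cart X) (n : ℕ) : l (A ^ n) = n * l A := by
  obtain ⟨f, hf⟩ := h.lhom
  rw [← hf, ← hf, map_pow, toAdd_pow, nsmul_eq_mul]

/-- the surfaces in the linear system of `H` -/
theorem RR.chi_sub (h : RR T l c) (H W : Cart X) : chi T l c W - chi T l c (W * H⁻¹) = chS T l H W := by
  unfold chi chS
  simp only [h.tri.add, h.tri.add2, h.tri.add3, h.tri.inv, h.tri.inv2, h.tri.inv3, h.ladd, h.l_inv]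
  rw [h.tri.s12 H W W, h.tri.s23 W H W, h.tri.s12 H W H, h.tri.s23 H H W, h.tri.s12 H W H]
  ring

/-- the curves of the class `E` on the surfaces in the linear system of `H` -/
theorem RR.chS_sub (h : RR T l c) (H W E : Cart X) :
    chS T l H W - chS T l H (W * E⁻¹) = T W E H - (T E E H + T E H H) / 2 := by
  unfold chS
  simp only [h.tri.add, h.tri.add2, h.tri.add3, h.tri.inv, h.tri.inv2, h.tri.inv3]
  rw [h.tri.s12 E W H]
  ring

theorem RR.chi_sub3 (h : RR T l c) (W A B C : Cart X) :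
    chi T l c (W * A * B * C) - chi T l c (W * A * B) - chi T l c (W * A * C) - chi T l c (W * B * C) +
      chi T l c (W * A) + chi T l c (W * B) + chi T l c (W * C) - chi T l c W = T A B C := by
  unfold chi
  simp only [h.tri.add, h.tri.add2, h.tri.add3, h.ladd]
  have e : ∀ U V : Cart X, T U V U = T U U V := fun U V => h.tri.s23 _ _ _
  have e' : ∀ U V : Cart X, T V U U = T U U V := fun U V => by rw [h.tri.s12, h.tri.s23]
  have f1 : T A C B = T A B C := h.tri.s23 _ _ _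
  have f2 : T B A C = T A B C := h.tri.s12 _ _ _
  have f3 : T B C A = T A B C := by rw [h.tri.s23, h.tri.s12]
  have f4 : T C A B = T A B C := by rw [h.tri.s12, h.tri.s23]
  have f5 : T C B A = T A B C := by rw [h.tri.s12, f3]
  have g : ∀ U V Z : Cart X, T U Z V = T U V Z := fun U V Z => h.tri.s23 _ _ _
  have a1 : T W B A = T W A B := h.tri.s23 _ _ _
  have a2 : T W C A = T W A C := h.tri.s23 _ _ _
  have a3 : T W C B = T W B C := h.tri.s23 _ _ _
  have b1 : T A W B = T W A B := h.tri.s12 _ _ _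
  have b2 : T A W C = T W A C := h.tri.s12 _ _ _
  have b3 : T B W C = T W B C := h.tri.s12 _ _ _
  have b4 : T B W A = T W A B := by rw [h.tri.s12, a1]
  have b5 : T C W A = T W A C := by rw [h.tri.s12, a2]
  have b6 : T C W B = T W B C := by rw [h.tri.s12, a3]
  have c1 : T A B W = T W A B := by rw [h.tri.s23, b1]
  have c2 : T A C W = T W A C := by rw [h.tri.s23, b2]
  have c3 : T B C W = T W B C := by rw [h.tri.s23, b3]
  have c4 : T B A W = T W A B := by rw [h.tri.s12, c1]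
  have c5 : T C A W = T W A C := by rw [h.tri.s12, c2]
  have c6 : T C B W = T W B C := by rw [h.tri.s12, c3]
  simp only [f1, f2, f3, f4, f5, a1, a2, a3, b1, b2, b3, b4, b5, b6, c1, c2, c3, c4, c5, c6]
  ring

end Pool.Agent.H24.VP
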