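import Pool.Agent.H24.VP.Def
import Pool.Agent.H83.TK.PicM
import Pool.Agent.H41.TW.Crv

/-!
# [H24 VP Exi] THEOREM V+ (MP_e49dc9_ag): existence of the generic surface

As `exists_curve` (`H41/TW/Crv.lean`): `exists_lsys` for `A`, the sections with the first one repeated (`dupS`), `exists_bc`, `gs_main`,
`pic_main`; `S := subM (isVar_bc ..) z`, `ψ := (resD _ z).comp (bcD ..)`.
-/

set_option autoImplicit false

namespace Pool.Agent.H24.VP

open Pool.Agent.H54.RV Pool.Agent.H83.TU Pool.Agent.H83.TK Pool.Agent.H24.TK Pool.Agent.H41.TK Pool.Agent.H41.TW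

variable {k K : Type} [Field k] [Field K] [Algebra k K] {X : Mod k K}

theorem exists_sf [CharZero k] [T0Space X.P] (h : Hyp X) {A : Cart X} (hA : Ample A) :
    ∃ (m : ℕ) (k' L : Type) (_ : Field k') (_ : Field L) (_ : Algebra k' L) (S : Mod k' L) (ψ : Cart X →* Cart S),
      1 ≤ m ∧ Sf (A ^ m) S ψ := by
  classical
  have hX := h.var
  have hg := h.gen
  obtain ⟨m, σ, hσ, s, hm, hs⟩ := exists_lsys hX hg hA (by
    rw [h.tr]
    norm_num)
  obtain ⟨k', K', i1, i2, i3, i4, i5, i6, i7, i8, l, hbc⟩ := exists_bc k K (Option σ)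
  have hs' := lsys_dup hs
  obtain ⟨z, hsl, hSPr, htr, hufd⟩ := gs_main hX hg hbc hs'
  have hV := isVar_bc hX hg hbc
  have hT0 : T0Space (bcM X hbc).P := bc_t0 hX hg hbc
  have hchar : CharZero k' := charZero_of_injective_algebraMap (algebraMap k k').injective
  have hA' : Ample (bcD hX hg hbc A) := bc_ample hX hg hbc _ hA
  have hVS := isVar_sub hV z
  have hgS : ∃ g, Gen (subM hV z) g := ⟨_, gen_sub hV z⟩
  have hAS := res_ample hV z _ hA'
  have hz2 : Algebra.trdeg k' ((bcM X hbc).kap z) = 2 := by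
    rw [h.tr, show (3 : Cardinal) = 2 + 1 by norm_num] at htr
    exact Cardinal.add_one_inj.1 htr
  have hfd : ∀ W : Cart X, FiniteDimensional k (secL W 1) := fun W => fd hX hg hA _
  have e1 : ∀ W : Cart X, FiniteDimensional k' (secL (bcD hX hg hbc W) 1) ∧
      h0 (bcD hX hg hbc W) 1 = h0 W 1 := fun W => by
    haveI := hfd W
    exact bc_h0 hX hg hbc W 1
  have e2 : ∀ W : Cart X, FiniteDimensional k' (secL (resD hV z (bcD hX hg hbc W)) 1) := fun W =>
    fd hVS hgS hAS _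
  have e3 : ∀ W : Cart X, h0 ((bcD hX hg hbc W) ^ 1 *
      (bcD hX hg hbc (A ^ m) * prin (bcM X hbc) (gsec K' l (dupS s)) hsl)⁻¹) 1 = h0 (W * (A ^ m)⁻¹) 1 := by
    intro W
    rw [h0_div_prin, pow_one, ← map_inv, ← map_mul]
    exact (e1 _).2
  obtain ⟨m₂, k₂, K₂, j1, j2, j3, j4, C, φ, hm₂, hC, hφ, hle, hev⟩ := exists_curve hV z hz2 (bc_ample hX hg hbc _
    (ample_pow A m hm hA))
  refine ⟨m, k', (bcM X hbc).kap z, i1, inferInstance, inferInstance, subM hV z,
    (resD hV z).comp (bcD hX hg hbc), hm, ?_⟩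
  refine ⟨hchar, hVS, hgS, t0_sub hV z, hz2, hufd h.ufd, ample_pow A m hm hA, fun D hD => ?_, fun W => ?_,
    fun W D hD => ?_, fun y C hC => ?_, ?_⟩
  · exact res_ample hV z _ (bc_ample hX hg hbc _ hD)
  · haveI := (e1 W).1
    haveI := e2 W
    have h1 := ex_le hV hSPr (bcD hX hg hbc W) 1
    rw [e3, (e1 W).2] at h1
    exact h1
  · obtain ⟨n₀, hn⟩ := ser_ample hV (bc_ample hX hg hbc _ hD) z (bcD hX hg hbc W)
    refine ⟨n₀, fun n hn' => ?_⟩
    have h2 := hn n hn'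
    have h3 : bcD hX hg hbc W * bcD hX hg hbc D ^ n = bcD hX hg hbc (W * D ^ n) := by
      rw [map_mul, map_pow]
    rw [h3] at h2
    haveI := (e1 (W * D ^ n)).1
    haveI := e2 (W * D ^ n)
    have h1 := ex_dim hV hSPr (bcD hX hg hbc (W * D ^ n)) 1
    rw [e3, (e1 _).2, LinearMap.range_eq_top.2 h2, finrank_top] at h1
    exact h1
  · exact pic_main hX hg hbc hs' (dup_free hs) h.ufd hsl z hSPr y C hC
  · refine ⟨m₂, k₂, K₂, j1, j2, j3, j4, C, φ.comp (bcD hX hg hbc), hm₂, hC, fun D hD => ?_, fun W => ?_,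
      fun W D hD => ?_⟩
    · exact hφ _ (bc_ample hX hg hbc _ hD)
    · have h1 := hle (bcD hX hg hbc W)
      rw [← map_pow, ← map_inv, ← map_mul] at h1
      exact h1
    · obtain ⟨n₀, hn⟩ := hev (bcD hX hg hbc W) (bcD hX hg hbc D) (bc_ample hX hg hbc _ hD)
      refine ⟨n₀, fun n hn' => ?_⟩
      have h1 := hn n hn'
      rw [← map_pow, ← map_mul, ← map_pow, ← map_inv, ← map_mul] at h1
      exact h1

end Pool.Agent.H24.VP
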