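import Pool.Agent.H24.VP.Int
import Pool.Agent.H41.TW.Crv
import Pool.Agent.H83.TK.Dim

/-!
# [H24 VP PosA] THEOREM V+ (MP_e49dc9_ag): positivity of the intersection form, prime divisors

`pos_prm`: `A`, `B` ample, `S` a prime divisor: `0 < T(A,B,S)`.  `exists_curve h.var P.η (trdeg_pdiv h P) hB`: `m`, `C`, `φ`.  For `U = W * B ^ n`, `n` large:
`dg (φ U) + chi C = h0 (φ U) = h0 (resD U) - h0 (resD (U (B ^ m)⁻¹))` (`h0_eq`, `dg_ample`) and `h0 (resD U) = chi U - chi (U S⁻¹)` (`ser_ample`, `ex_dim`, `RR.ev`: as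
`surf_ev` of `H41/TW/W1.lean`); the right side is the second difference of `chi` in the directions `S`, `B ^ m`, the part depending on
`W` is `m T(W,B,S)`: so `dg (φ W) = m T(W,B,S)` for all `W` (as `key` of `w_surf`).  `dg_ample`.
`nn_prm`: `N` nef: `dg (φ (B N ^ n)) > 0` for all `n`, so `0 ≤ dg (φ N)`.
-/

set_option autoImplicit false

namespace Pool.Agent.H24.VP

open Pool.Agent.H54.RV Pool.Agent.H83.TU Pool.Agent.H83.TK Pool.Agent.H24.TK

variable {k K : Type} [Field k] [Field K] [Algebra k K] {X : Mod k K}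
  {T : Cart X → Cart X → Cart X → ℝ} {l : Cart X → ℝ} {c : ℝ}

/-- nef divisors -/
def Nf (N : Cart X) : Prop := ∀ A : Cart X, Ample A → Ample (A * N)

open Pool.Agent.H41.TK (dg dg_ample dg_mul dg_pow dg_one h0_eq)
open Pool.Agent.H41.TW (exists_curve)

/-- the Hilbert polynomial of the surface -/
private theorem surf_ev [CharZero k] (h : Hyp X) (hr : RR T l c) {z : X.P} {S : Cart X}
    (hS : SPr X z S) (W A : Cart X) (hA : Ample A) : ∃ n₀ : ℕ, ∀ n ≥ n₀,
      (h0 (resD h.var z (W * A ^ n)) 1 : ℝ) = chS T l S (W * A ^ n) := by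
  obtain ⟨n1, h1⟩ := ser_ample h.var hA z W
  obtain ⟨n2, h2⟩ := hr.ev W A hA
  obtain ⟨n3, h3⟩ := hr.ev (W * S⁻¹) A hA
  refine ⟨max n1 (max n2 n3), fun n hn => ?_⟩
  have a1 := h1 n (le_trans (le_max_left _ _) hn)
  have a2 := h2 n (le_trans ((le_max_left _ _).trans (le_max_right _ _)) hn)
  have a3 := h3 n (le_trans ((le_max_right _ _).trans (le_max_right _ _)) hn)
  haveI := fd h.var h.gen hA (W * A ^ n)
  have a4 := ex_dim h.var hS (W * A ^ n) 1
  rw [LinearMap.range_eq_top.2 a1, finrank_top, pow_one, mul_right_comm] at a4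
  have a5 : (h0 (W * A ^ n) 1 : ℝ) = h0 (W * S⁻¹ * A ^ n) 1 + h0 (resD h.var z (W * A ^ n)) 1 := by
    exact_mod_cast a4
  have a6 := hr.chi_sub S (W * A ^ n)
  rw [mul_right_comm W S⁻¹] at a3 a5
  linarith

/-- two linear functions which agree for large `n` -/
private theorem lin_eq {a b a' b' : ℝ} {N : ℕ} (h : ∀ n : ℕ, N ≤ n → a + n * b = a' + n * b') : a = a' := by
  have h1 := h N le_rfl
  have h2 := h (N + 1) (Nat.le_succ N)
  push_cast at h2
  have h3 : b = b' := by linarith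
  rw [h3] at h1
  linarith

private theorem key [CharZero k] [T0Space X.P] (h : Hyp X) (hr : RR T l c) {B : Cart X} (hB : Ample B)
    (P : PDiv X) {S : Cart X} (hS : SPr X P.η S) :
    ∃ (m : ℕ) (g : Cart X → ℤ), 1 ≤ m ∧ (∀ D, Ample D → 0 < g D) ∧ ∀ W, (g W : ℝ) = m * T W B S := by
  obtain ⟨m, k', K', i1, i2, i3, hch, C, φ, hm, hC, hφ, hle, heq⟩ := exists_curve h.var P.η (trdeg_pdiv h P) hB
  refine ⟨m, fun W => dg (φ W), hm, fun D hD => dg_ample hC _ (hφ D hD), ?_⟩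
  obtain ⟨e, he⟩ : ∃ e : ℝ, e = (Pool.Agent.H41.TK.chi C : ℤ) := ⟨_, rfl⟩
  have hdS : 0 < dg (φ B) := dg_ample hC _ (hφ B hB)
  obtain ⟨q, hq⟩ : ∃ q : ℝ, q = (T (B ^ m) (B ^ m) S + T (B ^ m) S S) / 2 := ⟨_, rfl⟩
  have main : ∀ W : Cart X, (dg (φ W) : ℝ) + e = m * T W B S - q := by
    intro W
    obtain ⟨n1, h1⟩ := surf_ev h hr hS W B hB
    obtain ⟨n2, h2⟩ := surf_ev h hr hS (W * (B ^ m)⁻¹) B hB
    obtain ⟨n3, h3⟩ := heq W B hB
    obtain ⟨n4, h4⟩ : ∃ n4 : ℕ, ∀ n : ℕ, n4 ≤ n → - 2 * Pool.Agent.H41.TK.chi C < dg (φ W) + n * dg (φ B) := by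
      refine ⟨(- 2 * Pool.Agent.H41.TK.chi C - dg (φ W) + 1).toNat, fun n hn => ?_⟩
      have h5 : (- 2 * Pool.Agent.H41.TK.chi C - dg (φ W) + 1) ≤ n := Int.toNat_le.1 hn
      have h6 : (n : ℤ) * 1 ≤ n * dg (φ B) := mul_le_mul_of_nonneg_left (by omega) (Int.natCast_nonneg _)
      omega
    refine lin_eq (b := (dg (φ B) : ℝ)) (b' := m * T B B S) (N := max (max n1 n2) (max n3 n4)) fun n hn => ?_
    have a1 := h1 n (le_trans ((le_max_left _ _).trans (le_max_left _ _)) hn)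
    have a2 := h2 n (le_trans ((le_max_right _ _).trans (le_max_left _ _)) hn)
    have a3 := h3 n (le_trans ((le_max_left _ _).trans (le_max_right _ _)) hn)
    have a4 := h4 n (le_trans ((le_max_right _ _).trans (le_max_right _ _)) hn)
    have a5 : dg (φ (W * B ^ n)) = dg (φ W) + n * dg (φ B) := by
      rw [map_mul, map_pow, dg_mul hC, dg_pow hC]
    have a6 := h0_eq hC (φ (W * B ^ n)) (by rw [a5]; exact a4)
    rw [a5] at a6
    have a7 : (h0 (φ (W * B ^ n)) 1 : ℝ) = dg (φ W) + n * dg (φ B) + e := by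
      rw [he]
      exact_mod_cast a6
    have a8 : (h0 (resD h.var P.η (W * B ^ n)) 1 : ℝ) =
        h0 (resD h.var P.η (W * B ^ n * (B ^ m)⁻¹)) 1 + h0 (φ (W * B ^ n)) 1 := by
      exact_mod_cast a3
    have a9 := hr.chS_sub S (W * B ^ n) (B ^ m)
    rw [mul_right_comm W] at a2
    rw [a1, a2, a7] at a8
    rw [← hq, hr.tri.pow2, hr.tri.add, hr.tri.pow] at a9
    linarith
  have k1 := main 1
  rw [map_one, dg_one, hr.tri.one] at k1
  intro W
  have k2 := main W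
  push_cast at k1
  linarith

theorem pos_prm [CharZero k] [T0Space X.P] (h : Hyp X) (hr : RR T l c) {A B : Cart X} (hA : Ample A) (hB : Ample B)
    (P : PDiv X) {S : Cart X} (hS : SPr X P.η S) : 0 < T A B S := by
  obtain ⟨m, g, hm, hg, hT⟩ := key h hr hB P hS
  have h1 : (0 : ℝ) < g A := by exact_mod_cast hg A hA
  rw [hT] at h1
  have h2 : (0 : ℝ) < m := by exact_mod_cast hm
  exact (pos_iff_pos_of_mul_pos h1).1 h2

theorem nn_prm [CharZero k] [T0Space X.P] (h : Hyp X) (hr : RR T l c) {N B : Cart X} (hN : Nf N) (hB : Ample B)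
    (P : PDiv X) {S : Cart X} (hS : SPr X P.η S) : 0 ≤ T N B S := by
  have h1 : ∀ n : ℕ, Ample (B * N ^ n) := by
    intro n
    induction n with
    | zero => rwa [pow_zero, mul_one]
    | succ n ih =>
      rw [pow_succ, ← mul_assoc]
      exact hN _ ih
  have h2 : ∀ n : ℕ, 0 < T B B S + n * T N B S := by
    intro n
    have h3 := pos_prm h hr (h1 n) hB P hS
    rwa [hr.tri.add, hr.tri.pow] at h3
  by_contra h3
  push Not at h3
  obtain ⟨n, hn⟩ := exists_nat_gt (T B B S / -T N B S)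
  rw [div_lt_iff₀ (by linarith)] at hn
  have h4 := h2 n
  linarith

end Pool.Agent.H24.VP
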