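import Pool.Agent.H24.VP.PosA
import Pool.Agent.H32.TK.HC

/-!
# [H24 VP PosB] THEOREM V+ (MP_e49dc9_ag): effective divisors are sums of prime divisors

`fac_eff`: as `factor` of `H32/TK/HC.lean` (there `ν`, `CY` are used only for the induction on `T(A,A,E)`): `0 ≤ T(A,A,E)` for `E` effective: `h0 (W) ≤
h0 (W E)` (`mul_le`, `H32/TK/Surf.lean`) and `RR.ev` in the direction `A`, leading coefficient in `n` of `chi (A ^ n E) - chi (A ^ n)`; `1 ≤ T(A,A,C)` for
`C` prime (`pos_prm`, `t_int`); `split_prime`.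
`triv_T`: `h0 (W U) = h0 (W)` for all `W`, so `chi (W U) = chi W` for `W = V * A ^ n`, `n` large; third differences (`RR.chi_sub3`), or: `T(U,A,B)` is the
difference of second differences.
-/

set_option autoImplicit false

namespace Pool.Agent.H24.VP

open Pool.Agent.H54.RV Pool.Agent.H83.TU Pool.Agent.H83.TK Pool.Agent.H24.TK

variable {k K : Type} [Field k] [Field K] [Algebra k K] {X : Mod k K}
  {T : Cart X → Cart X → Cart X → ℝ} {l : Cart X → ℝ} {c : ℝ}

private theorem sec_mono {W E : Cart X} (hE : Effective E) : secL W 1 ≤ secL (W * E) 1 := by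
  intro a ha x
  have h1 : a * W.eq x ^ 1 * E.eq x ∈ X.O x := (X.O x).mul_mem (ha x) (hE x)
  change a * (W * E).eq x ^ 1 ∈ X.O x
  rw [pow_one] at h1
  rwa [mul_eq, pow_one, ← mul_assoc]

private theorem h0_mono [CharZero k] (h : Hyp X) {W E : Cart X} (hE : Effective E) : h0 W 1 ≤ h0 (W * E) 1 := by
  obtain ⟨A, hA⟩ := h.amp
  haveI := fd h.var h.gen hA (W * E)
  exact Submodule.finrank_mono (sec_mono hE)

private theorem t_expand (hT : Tri T) (A E : Cart X) (n : ℕ) :
    T (E * A ^ n) (E * A ^ n) (E * A ^ n) = T E E E + 3 * n * T A E E + 3 * n ^ 2 * T A A E + n ^ 3 * T A A A := by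
  simp only [hT.add, hT.add2, hT.add3, hT.pow, hT.pow2, hT.pow3]
  rw [hT.s12 E A E, hT.s23 E E A, hT.s12 E A E, hT.s12 E A A, hT.s23 A E A]
  ring

private theorem aae_nn [CharZero k] (h : Hyp X) (hr : RR T l c) {A E : Cart X} (hA : Ample A) (hE : Effective E) :
    0 ≤ T A A E := by
  obtain ⟨n1, h1⟩ := hr.ev E A hA
  obtain ⟨n2, h2⟩ := hr.ev 1 A hA
  have key : ∀ n : ℕ, n1 ≤ n → n2 ≤ n →
      0 ≤ (n : ℝ) ^ 2 * T A A E + n * T A E E + (T E E E / 3 + 2 * l E) := by
    intro n hn1 hn2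
    have a1 := h1 n hn1
    have a2 := h2 n hn2
    have a3 : h0 (1 * A ^ n) 1 ≤ h0 (E * A ^ n) 1 := by
      have := h0_mono (W := 1 * A ^ n) h hE
      rw [one_mul, mul_comm (A ^ n) E] at this
      rwa [one_mul]
    have a4 : (h0 (1 * A ^ n) 1 : ℝ) ≤ h0 (E * A ^ n) 1 := by exact_mod_cast a3
    rw [a1, a2, chi, chi, t_expand hr.tri, t_expand hr.tri] at a4
    simp only [hr.ladd, hr.l_one, hr.tri.one, hr.tri.one2, hr.tri.one3] at a4
    linarith
  by_contra hneg
  push Not at hneg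
  obtain ⟨C, hC⟩ : ∃ C, C = |T A E E| + |T E E E / 3 + 2 * l E| := ⟨_, rfl⟩
  obtain ⟨n, hn⟩ := exists_nat_gt (max (max (n1 : ℝ) n2) (max 1 (C / -T A A E)))
  have hn1 : (n1 : ℝ) < n := lt_of_le_of_lt ((le_max_left _ _).trans (le_max_left _ _)) hn
  have hn2 : (n2 : ℝ) < n := lt_of_le_of_lt ((le_max_right _ _).trans (le_max_left _ _)) hn
  have hn3 : (1 : ℝ) < n := lt_of_le_of_lt ((le_max_left _ _).trans (le_max_right _ _)) hn
  have hn4 : C < n * -T A A E := by
    have := lt_of_le_of_lt ((le_max_right _ _).trans (le_max_right _ _)) hn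
    rwa [div_lt_iff₀ (by linarith)] at this
  have h3 := key n (by exact_mod_cast hn1.le) (by exact_mod_cast hn2.le)
  have b1 := le_abs_self (T A E E)
  have b2 := le_abs_self (T E E E / 3 + 2 * l E)
  have b3 := abs_nonneg (T E E E / 3 + 2 * l E)
  have b4 : (n : ℝ) * T A E E ≤ n * |T A E E| := mul_le_mul_of_nonneg_left b1 (by linarith)
  have b5 : |T E E E / 3 + 2 * l E| ≤ n * |T E E E / 3 + 2 * l E| := by nlinarith
  have b6 : (n : ℝ) * C < n * (n * -T A A E) := mul_lt_mul_of_pos_left hn4 (by linarith)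
  rw [hC] at b6
  nlinarith

private theorem aae_one [CharZero k] [T0Space X.P] (h : Hyp X) (hr : RR T l c) {A S : Cart X} (hA : Ample A)
    (P : PDiv X) (hS : SPr X P.η S) : 1 ≤ T A A S := by
  have h1 := pos_prm h hr hA hA P hS
  obtain ⟨z, hz⟩ := t_int hr ⟨A, hA⟩ A A S
  rw [hz] at h1 ⊢
  have h2 : (0 : ℤ) < z := by exact_mod_cast h1
  have h3 : (1 : ℤ) ≤ z := h2
  exact_mod_cast h3

/-- an effective divisor is a sum of prime divisors, up to a trivial divisor -/
theorem fac_eff [CharZero k] [T0Space X.P] (h : Hyp X) (hr : RR T l c) {E : Cart X} (hE : Effective E) :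
    ∃ (Ls : List (PDiv X × Cart X)) (U : Cart X), (∀ p ∈ Ls, SPr X p.1.η p.2) ∧ Effective U ∧ Effective U⁻¹ ∧
      E = (Ls.map Prod.snd).prod * U := by
  obtain ⟨A, hA⟩ := h.amp
  obtain ⟨n, hn⟩ := exists_nat_ge (T A A E)
  induction n generalizing E with
  | zero =>
    by_cases h1 : Effective E⁻¹
    · exact ⟨[], E, by simp, hE, h1, by simp⟩
    · exfalso
      obtain ⟨P, S, hS, hT⟩ := Pool.Agent.H32.TK.split_prime h hE h1
      have h2 := aae_nn h hr hA hT
      have h3 := aae_one h hr hA P hS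
      rw [hr.tri.add3, hr.tri.inv3] at h2
      rw [Nat.cast_zero] at hn
      linarith
  | succ n ih =>
    by_cases h1 : Effective E⁻¹
    · exact ⟨[], E, by simp, hE, h1, by simp⟩
    · obtain ⟨P, S, hS, hT⟩ := Pool.Agent.H32.TK.split_prime h hE h1
      have h3 := aae_one h hr hA P hS
      obtain ⟨Ls, U, h4, h5, h6, h7⟩ := ih hT (by
        rw [hr.tri.add3, hr.tri.inv3]
        push_cast at hn
        linarith)
      refine ⟨(P, S) :: Ls, U, ?_, h5, h6, ?_⟩
      · intro p hp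
        rcases List.mem_cons.1 hp with h8 | h8
        · rw [h8]
          exact hS
        · exact h4 p h8
      · rw [List.map_cons, List.prod_cons, mul_assoc, ← h7, mul_comm S, inv_mul_cancel_right]

theorem triv_T [CharZero k] (h : Hyp X) (hr : RR T l c) {U : Cart X} (hU : Effective U) (hU' : Effective U⁻¹)
    (A B : Cart X) : T U A B = 0 := by
  obtain ⟨H, hH⟩ := h.amp
  have e0 : ∀ W : Cart X, h0 (U * W) 1 = h0 W 1 := by
    intro W
    refine le_antisymm ?_ ?_
    · have h1 := h0_mono (W := U * W) h hU'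
      rwa [mul_comm U W, mul_inv_cancel_right, mul_comm W U] at h1
    · have h1 := h0_mono (W := W) h hU
      rwa [mul_comm W U] at h1
  have ev : ∀ V : Cart X, ∃ n₀ : ℕ, ∀ n ≥ n₀, chi T l c (H ^ n * U * V) = chi T l c (H ^ n * V) := by
    intro V
    obtain ⟨n1, h1⟩ := hr.ev V H hH
    obtain ⟨n2, h2⟩ := hr.ev (U * V) H hH
    refine ⟨max n1 n2, fun n hn => ?_⟩
    have a1 := h1 n ((le_max_left _ _).trans hn)
    have a2 := h2 n ((le_max_right _ _).trans hn)
    rw [mul_assoc U V, e0, a1] at a2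
    have e1 : H ^ n * U * V = U * (V * H ^ n) := by
      rw [mul_comm (H ^ n) U, mul_assoc, mul_comm (H ^ n) V]
    rw [e1, ← a2, mul_comm V]
  obtain ⟨n1, h1⟩ := ev 1
  obtain ⟨n2, h2⟩ := ev A
  obtain ⟨n3, h3⟩ := ev B
  obtain ⟨n4, h4⟩ := ev (A * B)
  obtain ⟨n, hn⟩ : ∃ n, n = n1 + n2 + n3 + n4 := ⟨_, rfl⟩
  have a1 := h1 n (by omega)
  have a2 := h2 n (by omega)
  have a3 := h3 n (by omega)
  have a4 := h4 n (by omega)
  rw [mul_one, mul_one] at a1
  rw [← mul_assoc, ← mul_assoc] at a4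
  have h5 := hr.chi_sub3 (H ^ n) U A B
  linarith

end Pool.Agent.H24.VP
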