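import Pool.Agent.H24.VP.Alg

/-!
# [H24 VP Int] THEOREM V+ (MP_e49dc9_ag): the intersection form has integral values; the volume

`t_int`: `RR.chi_sub3` with `W := H ^ n`, `H` ample, `n` large: all the eight values of `chi` are numbers `h0`.
`vol_eq`: `h0 A n = h0 (A ^ n) 1 = T(A,A,A) n ^ 3 / 6 + n l(A) + c` for large `n` (`ev` with `W := 1`), `vol` is the upper limit of
`h0 A n / n ^ 3` (compare `vol_tau`, `h0_mult` of `H32/TK/B1C.lean`).
-/

set_option autoImplicit false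

namespace Pool.Agent.H24.VP

open Pool.Agent.H54.RV Pool.Agent.H83.TU Pool.Agent.H83.TK Pool.Agent.H24.TK

variable {k K : Type} [Field k] [Field K] [Algebra k K] {X : Mod k K}
  {T : Cart X → Cart X → Cart X → ℝ} {l : Cart X → ℝ} {c : ℝ}

private theorem int_ev (hr : RR T l c) {H : Cart X} (hH : Ample H) (U : Cart X) :
    ∀ᶠ n : ℕ in Filter.atTop, ∃ z : ℤ, chi T l c (H ^ n * U) = z := by
  obtain ⟨n₀, hn⟩ := hr.ev U H hH
  filter_upwards [Filter.eventually_ge_atTop n₀] with n hn'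
  refine ⟨(h0 (U * H ^ n) 1 : ℤ), ?_⟩
  rw [mul_comm (H ^ n) U, ← hn n hn']
  push_cast
  rfl

theorem t_int (hr : RR T l c) (hA : ∃ A : Cart X, Ample A) (A B C : Cart X) : ∃ z : ℤ, T A B C = z := by
  obtain ⟨H, hH⟩ := hA
  obtain ⟨n, h1, h2, h3, h4, h5, h6, h7, h8⟩ := ((int_ev hr hH (A * B * C)).and
    ((int_ev hr hH (A * B)).and ((int_ev hr hH (A * C)).and ((int_ev hr hH (B * C)).and
    ((int_ev hr hH A).and ((int_ev hr hH B).and ((int_ev hr hH C).and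
    (int_ev hr hH 1)))))))).exists
  obtain ⟨z1, h1⟩ := h1
  obtain ⟨z2, h2⟩ := h2
  obtain ⟨z3, h3⟩ := h3
  obtain ⟨z4, h4⟩ := h4
  obtain ⟨z5, h5⟩ := h5
  obtain ⟨z6, h6⟩ := h6
  obtain ⟨z7, h7⟩ := h7
  obtain ⟨z8, h8⟩ := h8
  have h := hr.chi_sub3 (H ^ n) A B C
  rw [← mul_assoc, ← mul_assoc] at h1
  rw [← mul_assoc] at h2 h3 h4
  rw [mul_one] at h8
  rw [h1, h2, h3, h4, h5, h6, h7, h8] at h
  refine ⟨z1 - z2 - z3 - z4 + z5 + z6 + z7 - z8, ?_⟩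
  rw [← h]
  push_cast
  rfl

theorem vol_eq (hr : RR T l c) {A : Cart X} (hA : Ample A) : vol A = T A A A / 6 := by
  obtain ⟨n₀, hn⟩ := hr.ev 1 A hA
  have hn2 : ∀ n : ℕ, n₀ ≤ n → (h0 A n : ℝ) = (n : ℝ) ^ 3 * (T A A A / 6) + n * l A + c := by
    intro n h1
    have h2 := hn n h1
    have h3 : h0 (A ^ n) 1 = h0 A n := by
      unfold h0
      rw [secL_pow]
    rw [one_mul, h3] at h2
    rw [h2]
    unfold chi
    rw [hr.tri.pow, hr.tri.pow2, hr.tri.pow3, hr.l_pow]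
    ring
  obtain ⟨t, ht⟩ : ∃ t, t = T A A A / 6 := ⟨_, rfl⟩
  rw [← ht]
  rw [← ht] at hn2
  have h1 : Filter.Tendsto (fun n : ℕ => 1 / (n : ℝ)) Filter.atTop (nhds 0) :=
    tendsto_one_div_atTop_nhds_zero_nat
  have h2 : Filter.Tendsto (fun n : ℕ => t + (1 / (n : ℝ)) ^ 2 * l A + (1 / (n : ℝ)) ^ 3 * c)
      Filter.atTop (nhds (t + 0 ^ 2 * l A + 0 ^ 3 * c)) :=
    (tendsto_const_nhds.add ((h1.pow 2).mul_const _)).add ((h1.pow 3).mul_const _)
  have h3 : t + 0 ^ 2 * l A + 0 ^ 3 * c = t := by ring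
  rw [h3] at h2
  have h4 : Filter.Tendsto (fun n : ℕ => (h0 A n : ℝ) / (n : ℝ) ^ 3) Filter.atTop (nhds t) := by
    refine h2.congr' ?_
    filter_upwards [Filter.eventually_ge_atTop (max n₀ 1)] with n hn'
    have h4 : n₀ ≤ n := (le_max_left _ _).trans hn'
    have h5 : 1 ≤ n := (le_max_right _ _).trans hn'
    have h6 : (0 : ℝ) < n := by exact_mod_cast h5
    rw [hn2 n h4]
    field_simp
  exact h4.limsup_eq

end Pool.Agent.H24.VP
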