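import Pool.Agent.H24.VP.Int
import Pool.Agent.H24.TK.Ser
import Pool.Agent.H83.TK.Dim
import Pool.Agent.H32.TK.Surf

/-!
# [H24 VP Two] THEOREM V+ (MP_e49dc9_ag): two different prime divisors

`nn_two`: the point `P.η` is not in the closure of `P'.η` (both local rings are discrete valuation rings and `X` is T0: `trdeg_lt`,
`trdeg_pdiv`), so `S'.eq P.η` is a unit at `P.η`, `resD _ P.η S'` has a nonzero section (`res_pos`, `H32/TK/Surf.lean`), `h0 (resD P.η W) ≤
h0 (resD P.η (W S'))` (`mul_le`) for all `W`.  For `W = A ^ n`, `n` large: `h0 (resD P.η W) = chi W - chi (W S⁻¹)` (`ser_ample`, `ex_dim`, `RR.ev`; `RR.chi_sub`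
with `H := S`: `= chS T l S W`), the same for `W S'`: the coefficient of `n` of `chS (A ^ n S') - chS (A ^ n)` is `T(S',A,S)`.
-/

set_option autoImplicit false

namespace Pool.Agent.H24.VP

open Pool.Agent.H54.RV Pool.Agent.H83.TU Pool.Agent.H83.TK Pool.Agent.H24.TK

variable {k K : Type} [Field k] [Field K] [Algebra k K] {X : Mod k K}
  {T : Cart X → Cart X → Cart X → ℝ} {l : Cart X → ℝ} {c : ℝ}

private theorem fin_res [CharZero k] (h : Hyp X) {A : Cart X} (hA : Ample A) (z : X.P) (W : Cart (subM h.var z)) :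
    Module.Finite k (secL W 1) :=
  fd (isVar_sub h.var z) ⟨_, gen_sub h.var z⟩ (res_ample h.var z A hA) W

/-- the number of sections on a prime surface, for large multiples -/
private theorem res_ev [CharZero k] (h : Hyp X) (hr : RR T l c) {A : Cart X} (hA : Ample A) (P : PDiv X)
    {S : Cart X} (hS : SPr X P.η S) (W : Cart X) :
    ∃ n₀ : ℕ, ∀ n ≥ n₀, (h0 (resD h.var P.η (W * A ^ n)) 1 : ℝ) = chS T l S (W * A ^ n) := by
  obtain ⟨n1, h1⟩ := ser_ample h.var hA P.η W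
  obtain ⟨n2, h2⟩ := hr.ev W A hA
  obtain ⟨n3, h3⟩ := hr.ev (W * S⁻¹) A hA
  refine ⟨n1 + n2 + n3, fun n hn => ?_⟩
  have e1 := h1 n (by omega)
  have e2 := h2 n (by omega)
  have e3 := h3 n (by omega)
  have hfin : Module.Finite k (secL (W * A ^ n) 1) := fd h.var h.gen hA _
  have e4 := ex_dim h.var hS (W * A ^ n) 1
  rw [LinearMap.range_eq_top.2 e1, finrank_top, pow_one] at e4
  have e5 : W * A ^ n * S⁻¹ = W * S⁻¹ * A ^ n := by rw [mul_right_comm]
  rw [← hr.chi_sub S (W * A ^ n), e5, ← e2, ← e3]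
  rw [e5] at e4
  have e6 : (h0 (W * A ^ n) 1 : ℝ) = (h0 (W * S⁻¹ * A ^ n) 1 : ℝ) +
      (h0 (resD h.var P.η (W * A ^ n)) 1 : ℝ) := by
    exact_mod_cast e4
  linarith

private theorem not_sp [T0Space X.P] (h : Hyp X) (P P' : PDiv X) (hne : P.η ≠ P'.η) : ¬ P'.η ⤳ P.η := by
  intro h1
  by_cases h2 : P.η ⤳ P'.η
  · exact hne (h2.antisymm h1).eq
  · have h3 := trdeg_lt h.var h1 h2
    rw [trdeg_pdiv h P, trdeg_pdiv h P'] at h3
    exact lt_irrefl _ h3

theorem nn_two [CharZero k] [T0Space X.P] (h : Hyp X) (hr : RR T l c) {A : Cart X} (hA : Ample A) (P P' : PDiv X)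
    {S S' : Cart X} (hS : SPr X P.η S) (hS' : SPr X P'.η S') (hne : P.η ≠ P'.η) : 0 ≤ T S S' A := by
  have hu : Un (X.O P.η) (S'.eq P.η) := hS'.un P.η (not_sp h P P' hne)
  have hpos : 0 < h0 (resD h.var P.η S') 1 :=
    Pool.Agent.H32.TK.res_pos h.var P.η S' hS'.eff hu (fin_res h hA P.η _)
  have hmono : ∀ W : Cart X, h0 (resD h.var P.η W) 1 ≤ h0 (resD h.var P.η (S' * W)) 1 := by
    intro W
    rw [mul_comm, map_mul]
    exact Pool.Agent.H32.TK.mul_le _ _ (fin_res h hA P.η _) hpos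
  obtain ⟨n1, h1⟩ := res_ev h hr hA P hS 1
  obtain ⟨n2, h2⟩ := res_ev h hr hA P hS S'
  have key : ∀ n ≥ n1 + n2, 0 ≤ chS T l S (S' * A ^ n) - chS T l S (1 * A ^ n) := by
    intro n hn
    rw [← h1 n (by omega), ← h2 n (by omega), one_mul]
    have h3 : (h0 (resD h.var P.η (A ^ n)) 1 : ℝ) ≤ (h0 (resD h.var P.η (S' * A ^ n)) 1 : ℝ) := by
      exact_mod_cast hmono (A ^ n)
    linarith
  have ht := hr.tri
  have key2 : ∀ n ≥ n1 + n2, 0 ≤ (n : ℝ) * T S S' A + (T S' S' S - T S' S S) / 2 := by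
    intro n hn
    have h3 := key n hn
    have h4 : chS T l S (S' * A ^ n) - chS T l S (1 * A ^ n) =
        (n : ℝ) * T S S' A + (T S' S' S - T S' S S) / 2 := by
      unfold chS
      simp only [one_mul, ht.add, ht.add2, ht.pow, ht.pow2]
      have e1 : T A S' S = T S S' A := by rw [ht.s23, ht.s12, ht.s23]
      have e2 : T S' A S = T S S' A := by rw [ht.s23, ht.s12]
      rw [e1, e2]
      ring
    rwa [h4] at h3
  by_contra hneg
  push Not at hneg
  obtain ⟨N, hN⟩ := exists_nat_gt (((T S' S' S - T S' S S) / 2) / (- T S S' A))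
  have h5 : 0 < - T S S' A := by linarith
  rw [div_lt_iff₀ h5] at hN
  have h6 := key2 (n1 + n2 + N) (by omega)
  push_cast at h6
  have h7 : (0 : ℝ) ≤ (n1 : ℝ) + (n2 : ℝ) := by positivity
  nlinarith

end Pool.Agent.H24.VP
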