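import Pool.Agent.H24.TK.Ser
import Pool.Agent.H83.TK.GsC
import Pool.Agent.H83.TK.BcX
import Pool.Agent.H41.TK.DG
import Pool.Agent.H41.TK.MU

/-!
# THEOREM V+ (MP_e49dc9_ag): definitions

`T U V W = U.V.W`: the intersection form, a symmetric and trilinear function on the Cartier divisors; `l`: a linear form;
`chi W = T(W,W,W)/6 + l(W) + c`: the Hilbert polynomial (`RR`): no quadratic part (the canonical class is numerically
trivial).

`Sf H S ψ`: `S` is a (generic) surface in the linear system of the ample divisor `H`, over a field `k'` which contains `k`;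
`ψ : Cart X →* Cart S` is the restriction.  `pic`: all prime divisors of `S` are restrictions of divisors of `X` (up to
linear equivalence); `crv`: the generic curve in the linear system of `m H` on `S`.
-/

set_option autoImplicit false

namespace Pool.Agent.H24.VP

open Pool.Agent.H54.RV Pool.Agent.H83.TU Pool.Agent.H83.TK Pool.Agent.H24.TK Pool.Agent.H41.TK

variable {k K : Type} [Field k] [Field K] [Algebra k K] {X : Mod k K}

/-- `T` is symmetric and trilinear -/
structure Tri (T : Cart X → Cart X → Cart X → ℝ) : Prop where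
  add : ∀ A B C D, T (A * B) C D = T A C D + T B C D
  s12 : ∀ A B C, T A B C = T B A C
  s23 : ∀ A B C, T A B C = T A C B

/-- the Hilbert polynomial of `X` -/
noncomputable def chi (T : Cart X → Cart X → Cart X → ℝ) (l : Cart X → ℝ) (c : ℝ) (W : Cart X) : ℝ :=
  T W W W / 6 + l W + c

/-- the Hilbert polynomial of the surfaces in the linear system of `H` -/
noncomputable def chS (T : Cart X → Cart X → Cart X → ℝ) (l : Cart X → ℝ) (H W : Cart X) : ℝ :=
  T W W H / 2 - T W H H / 2 + T H H H / 6 + l H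

/-- the theorem of Riemann-Roch for a threefold with numerically trivial canonical class, and the vanishing theorem
of Serre -/
structure RR (T : Cart X → Cart X → Cart X → ℝ) (l : Cart X → ℝ) (c : ℝ) : Prop where
  tri : Tri T
  ladd : ∀ A B, l (A * B) = l A + l B
  ev : ∀ W A : Cart X, Ample A → ∃ n₀ : ℕ, ∀ n ≥ n₀, (h0 (W * A ^ n) 1 : ℝ) = chi T l c (W * A ^ n)

/-- the restriction to a surface in the linear system of `H` -/
structure Sf (H : Cart X) {k' L : Type} [Field k'] [Field L] [Algebra k' L] (S : Mod k' L)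
    (ψ : Cart X →* Cart S) : Prop where
  char : CharZero k'
  var : IsVar S
  gen : ∃ g, Gen S g
  t0 : T0Space S.P
  tr : Algebra.trdeg k' L = 2
  ufd : ∀ w, UniqueFactorizationMonoid (S.O w)
  hH : Ample H
  amp : ∀ D, Ample D → Ample (ψ D)
  le : ∀ W, h0 W 1 ≤ h0 (W * H⁻¹) 1 + h0 (ψ W) 1
  ev : ∀ W D : Cart X, Ample D → ∃ n₀ : ℕ, ∀ n ≥ n₀,
    h0 (W * D ^ n) 1 = h0 (W * D ^ n * H⁻¹) 1 + h0 (ψ (W * D ^ n)) 1
  pic : ∀ (y : S.P) (C : Cart S), SPr S y C →
    ∃ (E : Cart X) (f : L), f ≠ 0 ∧ ∀ w, Un (S.O w) (C.eq w / ((ψ E).eq w * f))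
  crv : ∃ (m : ℕ) (k₂ K₂ : Type) (_ : Field k₂) (_ : Field K₂) (_ : Algebra k₂ K₂) (_ : CharZero k₂)
    (C : Mod k₂ K₂) (φ : Cart X →* Cart C), 1 ≤ m ∧ Crv C ∧ (∀ D, Ample D → Ample (φ D)) ∧
      (∀ W : Cart X, h0 (ψ W) 1 ≤ h0 (ψ (W * (H ^ m)⁻¹)) 1 + h0 (φ W) 1) ∧
      ∀ W D : Cart X, Ample D → ∃ n₀ : ℕ, ∀ n ≥ n₀,
        h0 (ψ (W * D ^ n)) 1 = h0 (ψ (W * D ^ n * (H ^ m)⁻¹)) 1 + h0 (φ (W * D ^ n)) 1

end Pool.Agent.H24.VP
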