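import Pool.Agent.H24.VP.Def

/-!
# [H24 VP LE] THEOREM V+ (MP_e49dc9_ag): linear equivalence up to units

`LEq A B`: `A` is the sum of `B`, of a principal divisor and of a trivial divisor.
-/

set_option autoImplicit false

namespace Pool.Agent.H24.VP

open Pool.Agent.H54.RV Pool.Agent.H83.TU Pool.Agent.H83.TK Pool.Agent.H24.TK

variable {k K : Type} [Field k] [Field K] [Algebra k K] {X : Mod k K}

/-- linear equivalence up to units -/
def LEq (A B : Cart X) : Prop := ∃ f : K, f ≠ 0 ∧ ∀ w, Un (X.O w) (A.eq w / (B.eq w * f))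

theorem LEq.refl (A : Cart X) : LEq A A := by
  refine ⟨1, one_ne_zero, fun w => ?_⟩
  rw [mul_one, div_self (A.ne w)]
  exact un_one _

theorem LEq.symm {A B : Cart X} (h : LEq A B) : LEq B A := by
  obtain ⟨f, hf, h⟩ := h
  refine ⟨f⁻¹, inv_ne_zero hf, fun w => ?_⟩
  have e : B.eq w / (A.eq w * f⁻¹) = (A.eq w / (B.eq w * f))⁻¹ := by
    have := A.ne w
    have := B.ne w
    field_simp
  rw [e]
  exact un_inv (h w)

theorem LEq.trans {A B C : Cart X} (h : LEq A B) (h' : LEq B C) : LEq A C := by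
  obtain ⟨f, hf, h⟩ := h
  obtain ⟨g, hg, h'⟩ := h'
  refine ⟨f * g, mul_ne_zero hf hg, fun w => ?_⟩
  have e : A.eq w / (C.eq w * (f * g)) = A.eq w / (B.eq w * f) * (B.eq w / (C.eq w * g)) := by
    have := B.ne w
    have := C.ne w
    field_simp
  rw [e]
  exact un_mul (h w) (h' w)

theorem LEq.mul {A B C D : Cart X} (h : LEq A B) (h' : LEq C D) : LEq (A * C) (B * D) := by
  obtain ⟨f, hf, h⟩ := h
  obtain ⟨g, hg, h'⟩ := h'
  refine ⟨f * g, mul_ne_zero hf hg, fun w => ?_⟩
  have e : (A * C).eq w / ((B * D).eq w * (f * g)) =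
      A.eq w / (B.eq w * f) * (C.eq w / (D.eq w * g)) := by
    rw [mul_eq, mul_eq]
    have := B.ne w
    have := D.ne w
    field_simp
  rw [e]
  exact un_mul (h w) (h' w)

theorem LEq.inv {A B : Cart X} (h : LEq A B) : LEq A⁻¹ B⁻¹ := by
  obtain ⟨f, hf, h⟩ := h
  refine ⟨f⁻¹, inv_ne_zero hf, fun w => ?_⟩
  have e : (A⁻¹).eq w / ((B⁻¹).eq w * f⁻¹) = (A.eq w / (B.eq w * f))⁻¹ := by
    rw [inv_eq, inv_eq]
    have := A.ne w
    have := B.ne w
    field_simp
  rw [e]
  exact un_inv (h w)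

theorem LEq.prin (A : Cart X) (f : K) (hf : f ≠ 0) : LEq (A * prin X f hf) A := by
  refine ⟨f, hf, fun w => ?_⟩
  have e : (A * Pool.Agent.H54.RV.prin X f hf).eq w = A.eq w * f := rfl
  rw [e, div_self (mul_ne_zero (A.ne w) hf)]
  exact un_one _

private theorem unPow {A : Subalgebra k K} {a : K} (h : Un A a) (n : ℕ) : Un A (a ^ n) := by
  induction n with
  | zero =>
    rw [pow_zero]
    exact un_one _
  | succ n ih =>
    rw [pow_succ]
    exact un_mul ih h

private theorem secMap {A B : Cart X} {f : K} (hf : f ≠ 0)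
    (h : ∀ w, Un (X.O w) (A.eq w / (B.eq w * f))) (n : ℕ) (s : K) :
    s ∈ secL A n ↔ s * f ^ n ∈ secL B n := by
  have key : ∀ w, s * A.eq w ^ n = s * f ^ n * B.eq w ^ n * (A.eq w / (B.eq w * f)) ^ n := by
    intro w
    have := B.ne w
    rw [div_pow, mul_pow]
    field_simp
  constructor
  · intro hs w
    have h1 := unPow (h w) n
    have h2 : s * f ^ n * B.eq w ^ n = s * A.eq w ^ n * ((A.eq w / (B.eq w * f)) ^ n)⁻¹ := by
      rw [key w]
      exact (mul_inv_cancel_right₀ h1.1 _).symm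
    rw [h2]
    exact (X.O w).mul_mem (hs w) h1.2.2
  · intro hs w
    have h1 := unPow (h w) n
    rw [key w]
    exact (X.O w).mul_mem (hs w) h1.2.1

/-- `secL A n` and `secL B n` are isomorphic by multiplication by a power of `f` -/
theorem LEq.h0 {A B : Cart X} (h : LEq A B) (n : ℕ) : h0 A n = Pool.Agent.H83.TU.h0 B n := by
  obtain ⟨f, hf, h⟩ := h
  have hfn : f ^ n ≠ 0 := pow_ne_zero n hf
  unfold Pool.Agent.H83.TU.h0
  refine LinearEquiv.finrank_eq
    { toFun := fun s => ⟨(s : K) * f ^ n, (secMap hf h n _).1 s.2⟩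
      invFun := fun s => ⟨(s : K) * (f ^ n)⁻¹, (secMap hf h n _).2 (by
        rw [mul_assoc, inv_mul_cancel₀ hfn, mul_one]
        exact s.2)⟩
      map_add' := fun s t => by
        apply Subtype.ext
        show ((s : K) + t) * f ^ n = _
        exact add_mul _ _ _
      map_smul' := fun c s => by
        apply Subtype.ext
        show (c • (s : K)) * f ^ n = c • ((s : K) * f ^ n)
        exact Algebra.smul_mul_assoc _ _ _
      left_inv := fun s => by
        apply Subtype.ext
        show (s : K) * f ^ n * (f ^ n)⁻¹ = s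
        rw [mul_assoc, mul_inv_cancel₀ hfn, mul_one]
      right_inv := fun s => by
        apply Subtype.ext
        show (s : K) * (f ^ n)⁻¹ * f ^ n = s
        rw [mul_assoc, inv_mul_cancel₀ hfn, mul_one] }

theorem LEq.eff {A B : Cart X} (h : LEq A B) (hA : Effective A) : ∃ f ∈ secL B 1, f ≠ 0 := by
  obtain ⟨f, hf, h⟩ := h
  refine ⟨f, ?_, hf⟩
  have h1 : (1 : K) ∈ secL A 1 := by
    intro w
    rw [one_mul, pow_one]
    exact hA w
  have h2 := (secMap hf h 1 1).1 h1
  rwa [one_mul, pow_one] at h2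

end Pool.Agent.H24.VP
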