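import Pool.Agent.H24.VP.Ev
import Pool.Agent.H24.VP.LE

/-!
# [H24 VP CvB] THEOREM V+ (MP_e49dc9_ag): the curves on the generic surface

`C` a prime divisor of `S` with generic point `y`, `trdeg κ(y) = 1`, linearly equivalent to `ψ E`.  `Γ := subM hS.var y`.
`cv_le`: `ex_le` and `LEq.h0` (`C⁻¹` and `ψ E⁻¹`).
`cv_num`: `ser_ample` on `S` (for `ψ H`), `ex_dim`: `h0 (ψ (W H ^ n)) = h0 (ψ (W E⁻¹ H ^ n)) + h0 (Γ, W H ^ n)` for large `n`; `sf_ev`,
`RR.chS_sub` and `h0_eq` on `Γ`, compare the coefficients of `n` (as in `crv_num`).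
-/

set_option autoImplicit false

namespace Pool.Agent.H24.VP

open Pool.Agent.H54.RV Pool.Agent.H83.TU Pool.Agent.H83.TK Pool.Agent.H24.TK Pool.Agent.H41.TK

variable {k K : Type} [Field k] [Field K] [Algebra k K] {X : Mod k K}
  {T : Cart X → Cart X → Cart X → ℝ} {l : Cart X → ℝ} {c : ℝ} {H : Cart X} {k' L : Type} [Field k'] [Field L]
  [Algebra k' L] {S : Mod k' L} {ψ : Cart X →* Cart S}

/-- `E` is the class of a curve on the generic surface -/
def Cls (S : Mod k' L) (ψ : Cart X →* Cart S) (E : Cart X) : Prop :=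
  ∃ (y : S.P) (C : Cart S), SPr S y C ∧ Algebra.trdeg k' (S.kap y) = 1 ∧ LEq C (ψ E)

theorem cv_crv (hS : Sf H S ψ) {y : S.P} (ht : Algebra.trdeg k' (S.kap y) = 1) : Crv (subM hS.var y) :=
  ⟨isVar_sub hS.var y, ⟨_, gen_sub hS.var y⟩, ⟨_, res_ample hS.var y _ (hS.amp H hS.hH)⟩, ht⟩

theorem cv_le (hS : Sf H S ψ) {y : S.P} {C : Cart S} (hC : SPr S y C) {E : Cart X} (hE : LEq C (ψ E)) (W : Cart X) :
    h0 (ψ W) 1 ≤ h0 (ψ (W * E⁻¹)) 1 + h0 (resD hS.var y (ψ W)) 1 := by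
  haveI := hS.char
  haveI := fd hS.var hS.gen (hS.amp H hS.hH) (ψ W)
  haveI := fd (isVar_sub hS.var y) ⟨_, gen_sub hS.var y⟩ (res_ample hS.var y _ (hS.amp H hS.hH)) (resD hS.var y (ψ W))
  have h1 := ex_le hS.var hC (ψ W) 1
  have h2 : LEq (ψ W ^ 1 * C⁻¹) (ψ (W * E⁻¹)) := by
    rw [pow_one, map_mul, map_inv]
    exact (LEq.refl _).mul hE.inv
  rw [h2.h0 1] at h1
  exact h1

/-- two linear functions which agree for large `n` -/
private theorem lin_eq {a b a' b' : ℝ} {N : ℕ} (h : ∀ n : ℕ, N ≤ n → a + n * b = a' + n * b') : a = a' ∧ b = b' := by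
  have h1 := h N le_rfl
  have h2 := h (N + 1) (Nat.le_succ N)
  push_cast at h2
  have h3 : b = b' := by linarith
  refine ⟨?_, h3⟩
  rw [h3] at h1
  linarith

theorem cv_num (hr : RR T l c) (hS : Sf H S ψ) {y : S.P} {C : Cart S} (hC : SPr S y C)
    (ht : Algebra.trdeg k' (S.kap y) = 1) {E : Cart X} (hE : LEq C (ψ E)) :
    (∀ W, (dg (resD hS.var y (ψ W)) : ℝ) = T W E H) ∧
      ((Pool.Agent.H41.TK.chi (subM hS.var y) : ℤ) : ℝ) = -((T E E H + T E H H) / 2) := by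
  haveI := hS.char
  haveI := hS.t0
  have hΓ := cv_crv hS ht
  have hdH : 0 < dg (resD hS.var y (ψ H)) := dg_ample hΓ _ (res_ample hS.var y _ (hS.amp H hS.hH))
  obtain ⟨e, he⟩ : ∃ e : ℝ, e = (Pool.Agent.H41.TK.chi (subM hS.var y) : ℤ) := ⟨_, rfl⟩
  have key : ∀ W : Cart X, T W E H - (T E E H + T E H H) / 2 = (dg (resD hS.var y (ψ W)) : ℝ) + e := by
    intro W
    obtain ⟨n1, h1⟩ := sf_ev hr hS W H hS.hH
    obtain ⟨n2, h2⟩ := sf_ev hr hS (W * E⁻¹) H hS.hH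
    obtain ⟨n3, h3⟩ := ser_ample hS.var (hS.amp H hS.hH) y (ψ W)
    obtain ⟨n4, h4⟩ : ∃ n4 : ℕ, ∀ n : ℕ, n4 ≤ n → - 2 * Pool.Agent.H41.TK.chi (subM hS.var y) <
        dg (resD hS.var y (ψ W)) + n * dg (resD hS.var y (ψ H)) := by
      refine ⟨(- 2 * Pool.Agent.H41.TK.chi (subM hS.var y) - dg (resD hS.var y (ψ W)) + 1).toNat, fun n hn => ?_⟩
      have h5 : (- 2 * Pool.Agent.H41.TK.chi (subM hS.var y) - dg (resD hS.var y (ψ W)) + 1) ≤ n := Int.toNat_le.1 hn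
      have h6 : (n : ℤ) * 1 ≤ n * dg (resD hS.var y (ψ H)) :=
        mul_le_mul_of_nonneg_left (by omega) (Int.natCast_nonneg _)
      omega
    refine (lin_eq (N := max (max n1 n2) (max n3 n4)) (b := T H E H) (b' := (dg (resD hS.var y (ψ H)) : ℝ))
      fun n hn => ?_).1
    have a1 := h1 n (le_trans ((le_max_left _ _).trans (le_max_left _ _)) hn)
    have a2 := h2 n (le_trans ((le_max_right _ _).trans (le_max_left _ _)) hn)
    have a3 := h3 n (le_trans ((le_max_left _ _).trans (le_max_right _ _)) hn)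
    have a4 := h4 n (le_trans ((le_max_right _ _).trans (le_max_right _ _)) hn)
    have a5 : dg (resD hS.var y (ψ (W * H ^ n))) = dg (resD hS.var y (ψ W)) + n * dg (resD hS.var y (ψ H)) := by
      rw [map_mul, map_pow, map_mul, map_pow, dg_mul hΓ, dg_pow hΓ]
    have a6 := h0_eq hΓ (resD hS.var y (ψ (W * H ^ n))) (by rw [a5]; exact a4)
    rw [a5] at a6
    have a7 : (h0 (resD hS.var y (ψ (W * H ^ n))) 1 : ℝ) =
        dg (resD hS.var y (ψ W)) + n * dg (resD hS.var y (ψ H)) + e := by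
      rw [he]
      exact_mod_cast a6
    have a8 : ψ W * ψ H ^ n = ψ (W * H ^ n) := by rw [map_mul, map_pow]
    rw [a8] at a3
    haveI := fd hS.var hS.gen (hS.amp H hS.hH) (ψ (W * H ^ n))
    have a9 := ex_dim hS.var hC (ψ (W * H ^ n)) 1
    rw [LinearMap.range_eq_top.2 a3, finrank_top] at a9
    have a10 : LEq (ψ (W * H ^ n) ^ 1 * C⁻¹) (ψ (W * E⁻¹ * H ^ n)) := by
      rw [pow_one, mul_right_comm W, map_mul ψ (W * H ^ n), map_inv]
      exact (LEq.refl _).mul hE.inv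
    rw [a10.h0 1] at a9
    have a11 : (h0 (ψ (W * H ^ n)) 1 : ℝ) = h0 (ψ (W * E⁻¹ * H ^ n)) 1 + h0 (resD hS.var y (ψ (W * H ^ n))) 1 := by
      exact_mod_cast a9
    have a12 := hr.chS_sub H (W * H ^ n) E
    rw [a1, a2, a7, mul_right_comm W] at a11
    rw [hr.tri.add, hr.tri.pow] at a12
    linarith
  have k1 := key 1
  rw [map_one, map_one, dg_one, hr.tri.one] at k1
  have k2 : e = -((T E E H + T E H H) / 2) := by
    push_cast at k1
    linarith
  refine ⟨fun W => ?_, ?_⟩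
  · have := key W
    linarith
  · rw [← he]
    exact k2

end Pool.Agent.H24.VP
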