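import Pool.Agent.H24.VP.CvB

/-!
# [H24 VP CvC] THEOREM V+ (MP_e49dc9_ag): the curves on the generic surface, consequences

`cv_pos`: `cv_num`, `res_ample`, `dg_ample`.  `cv_shp`: `cv_le`, `cv_num`, `h0_eq` (`- 2 chi Γ = T(E,E,H) + T(E,H,H) < dg`), `RR.chS_sub`.
-/

set_option autoImplicit false

namespace Pool.Agent.H24.VP

open Pool.Agent.H54.RV Pool.Agent.H83.TU Pool.Agent.H83.TK Pool.Agent.H24.TK Pool.Agent.H41.TK

variable {k K : Type} [Field k] [Field K] [Algebra k K] {X : Mod k K}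
  {T : Cart X → Cart X → Cart X → ℝ} {l : Cart X → ℝ} {c : ℝ} {H : Cart X} {k' L : Type} [Field k'] [Field L]
  [Algebra k' L] {S : Mod k' L} {ψ : Cart X →* Cart S}

theorem cv_pos (hr : RR T l c) (hS : Sf H S ψ) {E : Cart X} (hE : Cls S ψ E) {W : Cart X} (hW : Ample W) :
    0 < T W E H := by
  obtain ⟨y, C, hC, ht, hCE⟩ := hE
  have hchar := hS.char
  have h1 := (cv_num hr hS hC ht hCE).1 W
  have h2 := dg_ample (cv_crv hS ht) (resD hS.var y (ψ W)) (res_ample hS.var y _ (hS.amp W hW))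
  rw [← h1]
  exact_mod_cast h2

theorem cv_shp (hr : RR T l c) (hS : Sf H S ψ) {E : Cart X} (hE : Cls S ψ E) (W : Cart X)
    (hW : T E E H + T E H H < T W E H) :
    (h0 (ψ W) 1 : ℝ) ≤ h0 (ψ (W * E⁻¹)) 1 + (chS T l H W - chS T l H (W * E⁻¹)) := by
  obtain ⟨y, C, hC, ht, hCE⟩ := hE
  have hchar := hS.char
  obtain ⟨h1, h2⟩ := cv_num hr hS hC ht hCE
  have h3 := cv_le hS hC hCE W
  have h4 : - 2 * Pool.Agent.H41.TK.chi (subM hS.var y) < dg (resD hS.var y (ψ W)) := by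
    have h5 : ((- 2 * Pool.Agent.H41.TK.chi (subM hS.var y) : ℤ) : ℝ) < ((dg (resD hS.var y (ψ W)) : ℤ) : ℝ) := by
      rw [Int.cast_mul, h1, h2]
      push_cast
      linarith
    exact_mod_cast h5
  have h5 := h0_eq (cv_crv hS ht) _ h4
  have h6 : (h0 (resD hS.var y (ψ W)) 1 : ℝ) = T W E H - (T E E H + T E H H) / 2 := by
    have h7 : ((h0 (resD hS.var y (ψ W)) 1 : ℤ) : ℝ) =
        ((dg (resD hS.var y (ψ W)) : ℤ) : ℝ) + ((Pool.Agent.H41.TK.chi (subM hS.var y) : ℤ) : ℝ) := by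
      rw [h5, Int.cast_add]
    rw [h1, h2] at h7
    rw [Int.cast_natCast] at h7
    rw [h7]
    ring
  have h7 : (h0 (ψ W) 1 : ℝ) ≤ h0 (ψ (W * E⁻¹)) 1 + h0 (resD hS.var y (ψ W)) 1 := by exact_mod_cast h3
  rw [hr.chS_sub, ← h6]
  exact h7

end Pool.Agent.H24.VP
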