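import Pool.Agent.H83.TK.Dim

/-!
# [H24 VP Prm] THEOREM V+ (MP_e49dc9_ag): prime divisors on factorial varieties of any dimension

`exists_prm`: an effective divisor which is not trivial contains a prime divisor, whose residue field has transcendence
degree `d`, where `d + 1` is the one of `L`.
The statements `exists_pdiv` (`H83/TU/EN.lean`), `pdiv_of_prime` (`PA.lean`), `pdiv_uni` (`PB.lean`), `pdiv_eq`, `pdiv_spr` (`H83/TK/SubE.lean`),
`trdeg_pdiv` (`H83/TK/Dim.lean`, `trdeg_quot` of `H20/TU/FA7.lean`) and `split_prime` (`H32/TK/HC.lean`) have the hypothesis `Hyp X`, with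
`trdeg = 3`, but use only `var`, `gen`, `ufd`, `amp` (except for the last ones): copy them, with the hypotheses below.
-/

set_option autoImplicit false

namespace Pool.Agent.H24.VP

open MvPolynomial Pool.Agent.H54.RV Pool.Agent.H83.TU Pool.Agent.H83.TK

private theorem hyp_ind {d : ℕ} {k : Type} [Field k] (Ψ : MvPolynomial (Fin (d + 1)) k) (hΨ : Prime Ψ) :
    ∃ y : Fin d → MvPolynomial (Fin (d + 1)) k,
      AlgebraicIndependent k (fun i => Ideal.Quotient.mk (Ideal.span {Ψ}) (y i)) := by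
  obtain ⟨i, hi⟩ : ∃ i, degreeOf i Ψ ≠ 0 := by
    by_contra hcon
    push Not at hcon
    apply hΨ.not_isUnit
    have h1 : Ψ.totalDegree = 0 := by
      rw [MvPolynomial.totalDegree_eq_zero_iff]
      intro m hm i
      have h2 := MvPolynomial.monomial_le_degreeOf i hm
      rw [hcon i] at h2
      omega
    rw [MvPolynomial.totalDegree_eq_zero_iff_eq_C] at h1
    rw [h1]
    refine IsUnit.map _ (isUnit_iff_ne_zero.2 fun h2 => ?_)
    rw [h2, map_zero] at h1
    exact hΨ.ne_zero h1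
  refine ⟨fun j => X (i.succAbove j), ?_⟩
  rw [algebraicIndependent_iff]
  intro Q hQ
  by_contra hQ0
  have h1 : (aeval fun j => (Ideal.Quotient.mk (Ideal.span {Ψ}) (X (i.succAbove j)))) Q =
      Ideal.Quotient.mk (Ideal.span {Ψ}) (rename i.succAbove Q) := by
    have h2 : (aeval fun j => (Ideal.Quotient.mk (Ideal.span {Ψ}) (X (i.succAbove j)))) =
        (Ideal.Quotient.mkₐ k (Ideal.span {Ψ})).comp (rename i.succAbove : MvPolynomial (Fin d) k →ₐ[k] _) := by
      apply MvPolynomial.algHom_ext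
      intro j
      rw [aeval_X, AlgHom.comp_apply, rename_X]
      rfl
    rw [h2]
    rfl
  rw [h1, Ideal.Quotient.eq_zero_iff_mem, Ideal.mem_span_singleton] at hQ
  obtain ⟨H, hH⟩ := hQ
  have hne : rename i.succAbove Q ≠ 0 := by
    intro h2
    exact hQ0 (rename_injective _ Fin.succAbove_right_injective (h2.trans (map_zero _).symm))
  have hH0 : H ≠ 0 := by
    rintro rfl
    rw [mul_zero] at hH
    exact hne hH
  have h3 : degreeOf i (rename i.succAbove Q) = 0 := by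
    rw [← Nat.le_zero, MvPolynomial.degreeOf_le_iff]
    intro m hm
    obtain ⟨u, rfl, -⟩ := MvPolynomial.coeff_rename_ne_zero _ _ _ (MvPolynomial.mem_support_iff.1 hm)
    rw [Finsupp.mapDomain_of_notMem_range _ _ (by
      rintro ⟨j, hj⟩
      exact Fin.succAbove_ne i j hj)]
  rw [hH, degreeOf_mul_eq hΨ.ne_zero hH0] at h3
  omega

private theorem trdeg_quo {d : ℕ} {k S : Type} [Field k] [CommRing S] [IsDomain S] [Algebra k S] [Algebra.FiniteType k S]
    (htr : Algebra.trdeg k S = d + 1) (q : Ideal S) [hqp : q.IsPrime] (hq0 : q ≠ ⊥)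
    (hmin : ∀ Q : Ideal S, Q.IsPrime → Q ≠ ⊥ → Q ≤ q → Q = q) : d ≤ Algebra.trdeg k (S ⧸ q) := by
  have hqd : IsDomain (S ⧸ q) := Ideal.Quotient.isDomain q
  obtain ⟨s, g, hginj, hgint⟩ := exists_integral_inj_algHom_of_fg k S
  have hs : s = d + 1 := by
    have h1 := Pool.Agent.H20.TU.trdeg_of_int g hginj hgint
    rw [MvPolynomial.trdeg_of_isDomain, htr] at h1
    simp at h1
    exact_mod_cast h1
  subst hs
  let _ : Algebra (MvPolynomial (Fin (d + 1)) k) S := g.toRingHom.toAlgebra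
  have hfs : FaithfulSMul (MvPolynomial (Fin (d + 1)) k) S := (faithfulSMul_iff_algebraMap_injective _ _).2 hginj
  have hint2 : Algebra.IsIntegral (MvPolynomial (Fin (d + 1)) k) S := ⟨hgint⟩
  let q0 : Ideal (MvPolynomial (Fin (d + 1)) k) := q.under (MvPolynomial (Fin (d + 1)) k)
  have hq0ne : q0 ≠ ⊥ := by
    obtain ⟨c, hc, hc0⟩ := Submodule.exists_mem_ne_zero_of_ne_bot hq0
    exact Ideal.comap_ne_bot_of_integral_mem hc0 hc (Algebra.IsIntegral.isIntegral c)
  have hq0p : q0.IsPrime := Ideal.IsPrime.under _ _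
  obtain ⟨Ψ, hΨq, hΨ⟩ := hq0p.exists_mem_prime_of_ne_bot hq0ne
  have hsp : (Ideal.span {Ψ}).IsPrime := (Ideal.span_singleton_prime hΨ.ne_zero).2 hΨ
  have hspan : Ideal.span {Ψ} = q0 := by
    have hle : Ideal.span {Ψ} ≤ q0 := (Ideal.span_singleton_le_iff_mem _).2 hΨq
    by_contra hne
    have hlt : Ideal.span {Ψ} < q0 := lt_of_le_of_ne hle hne
    obtain ⟨Q, hQle, hQp, hQo⟩ := Algebra.HasGoingDown.exists_ideal_le_liesOver_of_lt (p := Ideal.span {Ψ}) q hlt
    have hQ0 : Q ≠ ⊥ := by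
      intro hbot
      have h1 : Ideal.span {Ψ} = Q.under _ := hQo.over
      have h2 : Ψ ∈ Q.under (MvPolynomial (Fin (d + 1)) k) := by rw [← h1]; exact Ideal.mem_span_singleton_self Ψ
      rw [hbot] at h2
      have h3 : algebraMap (MvPolynomial (Fin (d + 1)) k) S Ψ = 0 := h2
      exact hΨ.ne_zero (hginj (h3.trans (map_zero g).symm))
    have hQe := hmin Q hQp hQ0 hQle
    apply hne
    have h1 : Ideal.span {Ψ} = Q.under _ := hQo.over
    rw [h1, hQe]
  obtain ⟨y, hy⟩ := hyp_ind Ψ hΨ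
  let f : (MvPolynomial (Fin (d + 1)) k ⧸ Ideal.span {Ψ}) →ₐ[k] S ⧸ q :=
    Ideal.Quotient.liftₐ (Ideal.span {Ψ}) ((Ideal.Quotient.mkₐ k q).comp g) (fun a ha => by
      rw [hspan] at ha
      exact Ideal.Quotient.eq_zero_iff_mem.2 ha)
  have hf : Function.Injective f := by
    rw [injective_iff_map_eq_zero]
    intro z hz
    obtain ⟨a, rfl⟩ := Ideal.Quotient.mk_surjective z
    rw [Ideal.Quotient.eq_zero_iff_mem, hspan]
    have h1 : Ideal.Quotient.mk q (g a) = 0 := hz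
    have h2 : g a ∈ q := Ideal.Quotient.eq_zero_iff_mem.1 h1
    exact h2
  have h1 := (hy.map' hf).cardinalMk_le_trdeg
  rw [Cardinal.mk_fin] at h1
  exact_mod_cast h1

section

variable {k K : Type} [Field k] [Field K] [Algebra k K] {X : Mod k K}

/-- divisibility in a subalgebra of a field -/
private theorem pa_dvd {A : Subalgebra k K} {q a : K} (hq : q ∈ A) (ha : a ∈ A) (h0 : q ≠ 0) :
    (⟨q, hq⟩ : A) ∣ ⟨a, ha⟩ ↔ a / q ∈ A := by
  constructor
  · rintro ⟨c, hc⟩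
    have h1 : a = q * (c : K) := congrArg Subtype.val hc
    rw [h1, mul_div_cancel_left₀ _ h0]
    exact c.2
  · intro h
    refine ⟨⟨a / q, h⟩, Subtype.ext ?_⟩
    change a = q * (a / q)
    rw [mul_div_cancel₀ _ h0]

/-- a place from the powers of a uniformizer -/
private theorem pa_place (A : Subalgebra k K) (q : K) (hq : q ∈ A) (h0 : q ≠ 0) (hnu : ¬ Un A q)
    (hrep : ∀ b : K, b ≠ 0 → ∃ n : ℤ, ∃ u : K, Un A u ∧ b = q ^ n * u) :
    ∃ p : Place k K, (∀ a, a ∈ A ↔ a ∈ p.R) ∧ p.ord q = 1 := by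
  have hneg : ∀ (n : ℤ) (u : K), Un A u → (q ^ n * u ∈ A ↔ 0 ≤ n) := by
    intro n u hu
    constructor
    · intro h
      by_contra hn
      obtain ⟨m, hm⟩ : ∃ m : ℕ, (m : ℤ) = -n := ⟨(-n).toNat, by omega⟩
      have hm1 : 1 ≤ m := by omega
      have h1 : q ^ m * (q ^ n * u) = u := by
        rw [← mul_assoc, ← zpow_natCast, ← zpow_add₀ h0, hm, neg_add_cancel, zpow_zero, one_mul]
      have h2 : Un A (q ^ m * (q ^ n * u)) := by
        rw [h1]
        exact hu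
      have h3 := ((un_mul_iff (A.pow_mem hq m) h).1 h2).1
      exact hnu ((un_pow_iff hq hm1).1 h3)
    · intro hn
      obtain ⟨m, rfl⟩ : ∃ m : ℕ, n = m := ⟨n.toNat, by omega⟩
      rw [zpow_natCast]
      exact A.mul_mem (A.pow_mem hq m) hu.2.1
  have huniq : ∀ (n m : ℤ) (u v : K), Un A u → Un A v → q ^ n * u = q ^ m * v → n = m := by
    intro n m u v hu hv h
    have h1 : ∀ (n m : ℤ) (u v : K), Un A u → Un A v → q ^ n * u = q ^ m * v → m ≤ n := by
      intro n m u v hu hv h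
      have h2 : q ^ (n - m) * (u / v) = 1 := by
        rw [zpow_sub₀ h0]
        have h3 : q ^ m ≠ 0 := zpow_ne_zero m h0
        have h4 := hv.1
        field_simp
        rw [h]
      have h3 := (hneg (n - m) (u / v) (un_div hu hv)).1 (by
        rw [h2]
        exact A.one_mem)
      omega
    exact le_antisymm (h1 m n v u hv hu h.symm) (h1 n m u v hu hv h)
  choose! w uf hw using hrep
  have hval : ∀ b : K, b ≠ 0 → (b ∈ A ↔ 0 ≤ w b) := by
    intro b hb
    obtain ⟨h1, h2⟩ := hw b hb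
    have h3 := hneg (w b) (uf b) h1
    rw [← h2] at h3
    exact h3
  have hwmul : ∀ a b : K, a ≠ 0 → b ≠ 0 → w (a * b) = w a + w b := by
    intro a b ha hb
    obtain ⟨h1, h2⟩ := hw a ha
    obtain ⟨h3, h4⟩ := hw b hb
    obtain ⟨h5, h6⟩ := hw (a * b) (mul_ne_zero ha hb)
    apply huniq _ _ _ _ h5 (un_mul h1 h3)
    rw [← h6, zpow_add₀ h0]
    calc a * b = (q ^ w a * uf a) * (q ^ w b * uf b) := by rw [← h2, ← h4]
      _ = _ := by ring
  have hwq : w q = 1 := by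
    obtain ⟨h1, h2⟩ := hw q h0
    apply huniq _ _ _ _ h1 (un_one A)
    rw [← h2, zpow_one, mul_one]
  have hwinv : ∀ b : K, b ≠ 0 → w b⁻¹ = -w b := by
    intro b hb
    have h1 := hwmul b b⁻¹ hb (inv_ne_zero hb)
    have h2 := hwmul 1 1 one_ne_zero one_ne_zero
    rw [mul_one] at h2
    rw [mul_inv_cancel₀ hb] at h1
    omega
  let V : ValuationSubring K :=
    { A.toSubring with
      mem_or_inv_mem' := fun b => by
        change b ∈ A ∨ b⁻¹ ∈ A
        by_cases hb : b = 0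
        · left
          rw [hb]
          exact A.zero_mem
        · rcases le_total 0 (w b) with h | h
          · exact Or.inl ((hval b hb).2 h)
          · right
            rw [hval _ (inv_ne_zero hb), hwinv b hb]
            omega }
  have hVA : ∀ a : K, a ∈ V ↔ a ∈ A := fun a => Iff.rfl
  have hisu : ∀ b : V, (b : K) ≠ 0 → (IsUnit b ↔ w (b : K) = 0) := by
    intro b hb
    have hbA : 0 ≤ w (b : K) := (hval _ hb).1 ((hVA _).1 b.2)
    constructor
    · intro h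
      obtain ⟨c, hc⟩ := h.exists_right_inv
      have h1 : (b : K) * (c : K) = 1 := congrArg Subtype.val hc
      have hc0 : (c : K) ≠ 0 := right_ne_zero_of_mul_eq_one h1
      have hcA : 0 ≤ w (c : K) := (hval _ hc0).1 ((hVA _).1 c.2)
      have h2 := hwmul _ _ hb hc0
      have h3 := hwmul 1 1 one_ne_zero one_ne_zero
      rw [mul_one] at h3
      rw [h1] at h2
      omega
    · intro h
      have h1 : (b : K)⁻¹ ∈ V := by
        rw [hVA, hval _ (inv_ne_zero hb), hwinv _ hb, h]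
        omega
      exact IsUnit.of_mul_eq_one ⟨(b : K)⁻¹, h1⟩ (Subtype.ext (mul_inv_cancel₀ hb))
  have hqV : q ∈ V := (hVA q).2 hq
  have hirr : Irreducible (⟨q, hqV⟩ : V) := by
    rw [irreducible_iff]
    refine ⟨fun h => ?_, fun a b hab => ?_⟩
    · have h1 := (hisu ⟨q, hqV⟩ h0).1 h
      change w q = 0 at h1
      omega
    · have h1 : q = (a : K) * (b : K) := congrArg Subtype.val hab
      have ha0 : (a : K) ≠ 0 := fun h => h0 (by rw [h1, h, zero_mul])
      have hb0 : (b : K) ≠ 0 := fun h => h0 (by rw [h1, h, mul_zero])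
      have haA : 0 ≤ w (a : K) := (hval _ ha0).1 ((hVA _).1 a.2)
      have hbA : 0 ≤ w (b : K) := (hval _ hb0).1 ((hVA _).1 b.2)
      have h2 := hwmul _ _ ha0 hb0
      rw [← h1, hwq] at h2
      rw [hisu a ha0, hisu b hb0]
      omega
  have hdvr : IsDiscreteValuationRing V := by
    apply IsDiscreteValuationRing.ofHasUnitMulPowIrreducibleFactorization
    refine ⟨⟨q, hqV⟩, hirr, ?_⟩
    intro b hb
    have hb0 : (b : K) ≠ 0 := fun h => hb (Subtype.ext h)
    have hbA : 0 ≤ w (b : K) := (hval _ hb0).1 ((hVA _).1 b.2)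
    obtain ⟨h1, h2⟩ := hw (b : K) hb0
    obtain ⟨n, hn⟩ : ∃ n : ℕ, (n : ℤ) = w (b : K) := ⟨(w (b : K)).toNat, by omega⟩
    rw [← hn, zpow_natCast] at h2
    refine ⟨n, ⟨⟨⟨uf b, h1.2.1⟩, ⟨(uf b)⁻¹, h1.2.2⟩, Subtype.ext (mul_inv_cancel₀ h1.1),
      Subtype.ext (inv_mul_cancel₀ h1.1)⟩, Subtype.ext ?_⟩⟩
    change q ^ n * uf b = (b : K)
    exact h2.symm
  refine ⟨⟨V, fun c => A.algebraMap_mem c, hdvr⟩, fun a => Iff.rfl, ?_⟩
  rw [← ord_unique _ w hwmul ⟨q, h0, hwq⟩ (fun a ha => (hval a ha).symm) q h0]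
  exact hwq

private theorem pdiv_of_prime' (hX : IsVar X) (hg : ∃ g, Gen X g)
    (hufd : ∀ w, UniqueFactorizationMonoid (X.O w)) (x : X.P) (π : K) (hπ : π ∈ X.O x) (hp : Prime (⟨π, hπ⟩ : X.O x)) :
    ∃ P : PDiv X, P.η ⤳ x ∧ P.p.ord π = 1 ∧
      ∀ a ∈ X.O x, a ≠ 0 → (0 < P.p.ord a ↔ a / π ∈ X.O x) := by
  have h0 : π ≠ 0 := fun hh => hp.ne_zero (Subtype.ext hh)
  have hππ : ¬ Un (X.O x) π := fun hh => hp.not_unit ((un_iff hπ).2 hh)
  obtain ⟨U, hU, hxU⟩ := hX.chart x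
  have hRx : ∀ a ∈ X.sec U, a ∈ X.O x := fun a ha => (mem_sec U a).1 ha x hxU
  let j : X.sec U →ₐ[k] X.O x := Subalgebra.inclusion fun a ha => hRx a ha
  have hprime : (Ideal.span {(⟨π, hπ⟩ : X.O x)}).IsPrime :=
    (Ideal.span_singleton_prime hp.ne_zero).2 hp
  have hI : (Ideal.comap j (Ideal.span {(⟨π, hπ⟩ : X.O x)})).IsPrime := Ideal.comap_isPrime _ _
  have hmemI : ∀ a : X.sec U, a ∈ Ideal.comap j (Ideal.span {(⟨π, hπ⟩ : X.O x)}) ↔
      (a : K) / π ∈ X.O x := by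
    intro a
    rw [Ideal.mem_comap, Ideal.mem_span_singleton]
    exact pa_dvd hπ (hRx _ a.2) h0
  obtain ⟨η, hηU, hη⟩ := hX.prime U hU ⟨x, hxU⟩ _ hI
  have hη' : ∀ a ∈ X.sec U, (a / π ∈ X.O x ↔ ¬ Un (X.O η) a) := by
    intro a ha
    rw [← hη ⟨a, ha⟩, hmemI]
  have hnun : ∀ a : K, Un (X.O x) a → a / π ∉ X.O x := by
    intro a ha hh
    apply hππ
    refine ⟨h0, hπ, ?_⟩
    have h1 : π⁻¹ = a / π * a⁻¹ := by
      have := ha.1
      field_simp
    rw [h1]
    exact (X.O x).mul_mem hh ha.2.2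
  have hspec : η ⤳ x := by
    rw [specializes_iff_forall_open]
    intro V hV hxV
    obtain ⟨a, ha, hax, hay⟩ := hX.bas U V x hU hV hxU hxV
    apply hay η hηU
    by_contra hc
    exact hnun a hax ((hη' a ((mem_sec U a).2 ha)).2 hc)
  have hle : X.O x ≤ X.O η := hX.spec η x hspec
  have key : ∀ a ∈ X.O x, (Un (X.O η) a ↔ a / π ∉ X.O x) := by
    intro a ha
    obtain ⟨u, hu, hux, hau⟩ := hX.frac U x hU hxU a ha
    have h1 : Un (X.O η) u := by
      by_contra hc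
      exact hnun u hux ((hη' u hu).2 hc)
    rw [← un_mul_un h1, ← not_iff_not, not_not, ← hη' _ hau]
    constructor
    · intro h2
      have h3 : a / π = a * u / π * u⁻¹ := by
        have := hux.1
        field_simp
      rw [h3]
      exact (X.O x).mul_mem h2 hux.2.2
    · intro h2
      have h3 : a * u / π = a / π * u := by ring
      rw [h3]
      exact (X.O x).mul_mem h2 hux.2.1
  haveI := hufd x
  have hfac : ∀ a ∈ X.O x, a ≠ 0 → ∃ (n : ℕ) (u : K), Un (X.O η) u ∧ a = π ^ n * u := by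
    intro a ha ha0
    obtain ⟨n, c, hc, hac⟩ := WfDvdMonoid.max_power_factor (a₀ := (⟨a, ha⟩ : X.O x))
      (fun hh => ha0 (congrArg Subtype.val hh)) hp.irreducible
    refine ⟨n, (c : K), ?_, congrArg Subtype.val hac⟩
    rw [key _ c.2]
    intro hh
    exact hc ((pa_dvd hπ c.2 h0).2 hh)
  have hrep : ∀ b : K, b ≠ 0 → ∃ n : ℤ, ∃ u : K, Un (X.O η) u ∧ b = π ^ n * u := by
    intro b hb
    obtain ⟨s, hs, hs0, hbs⟩ := gen_frac hX hg U hU ⟨x, hxU⟩ b
    obtain ⟨n, u, hu, hn⟩ := hfac (b * s) (hRx _ hbs) (mul_ne_zero hb hs0)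
    obtain ⟨m, v, hv, hm⟩ := hfac s (hRx _ hs) hs0
    refine ⟨(n : ℤ) - m, u / v, un_div hu hv, ?_⟩
    have hv0 := hv.1
    have h1 : b = b * s / s := by field_simp
    rw [h1, hn, hm, zpow_sub₀ h0, zpow_natCast, zpow_natCast]
    have h2 : π ^ m ≠ 0 := pow_ne_zero m h0
    field_simp
  have hnu : ¬ Un (X.O η) π := by
    rw [key π hπ, not_not, div_self h0]
    exact (X.O x).one_mem
  obtain ⟨p, hp1, hp2⟩ := pa_place (X.O η) π (hle hπ) h0 hnu hrep
  refine ⟨⟨η, p, hp1⟩, hspec, hp2, ?_⟩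
  intro a ha ha0
  change 0 < p.ord a ↔ a / π ∈ X.O x
  have h1 : 0 ≤ p.ord a := (ord_nonneg p a ha0).2 ((hp1 a).1 (hle ha))
  have h2 : p.ord a = 0 ↔ Un (X.O η) a := by
    rw [ord_eq_zero p a ha0, ← hp1, ← hp1]
    exact ⟨fun hh => ⟨ha0, hh.1, hh.2⟩, fun hh => ⟨hh.2.1, hh.2.2⟩⟩
  have h3 : 0 < p.ord a ↔ ¬ p.ord a = 0 := by omega
  rw [h3, h2, key a ha, not_not]

private theorem pdiv_uni' (hX : IsVar X) (hufd : ∀ w, UniqueFactorizationMonoid (X.O w)) (P : PDiv X) (x : X.P) (hx : P.η ⤳ x) :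
    ∃ π ∈ X.O x, π ≠ 0 ∧ P.p.ord π = 1 ∧ ∀ a ∈ X.O x, a ≠ 0 → (0 < P.p.ord a ↔ a / π ∈ X.O x) := by
  obtain ⟨U, hU, hxU⟩ := hX.chart x
  have hηU : P.η ∈ U := hx.mem_open (hX.op U hU) hxU
  have hsecx : ∀ a ∈ X.sec U, a ∈ X.O x := fun a ha => (mem_sec U a).1 ha x hxU
  have hun0 : ∀ s, Un (X.O P.η) s → P.p.ord s = 0 := fun s hs =>
    (ord_eq_zero P.p s hs.1).2 ⟨(P.mem s).1 hs.2.1, (P.mem _).1 hs.2.2⟩
  obtain ⟨t, ht0, ht1⟩ := ord_unif P.p
  have htη : t ∈ X.O P.η := (P.mem t).2 ((ord_nonneg P.p t ht0).1 (by omega))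
  obtain ⟨s, hs, hsu, hts⟩ := hX.frac U P.η hU hηU t htη
  have ha₁ : P.p.ord (t * s) = 1 := by
    rw [ord_mul P.p t s ht0 hsu.1, ht1, hun0 s hsu]
    omega
  have ha₁0 : t * s ≠ 0 := mul_ne_zero ht0 hsu.1
  have ha₁x : t * s ∈ X.O x := hsecx _ hts
  haveI := hufd x
  have hfac : ∀ b : X.O x, b ≠ 0 → 0 < P.p.ord (b : K) →
      ∃ q : X.O x, Prime q ∧ q ∣ b ∧ 0 < P.p.ord (q : K) := by
    intro b
    refine UniqueFactorizationMonoid.induction_on_prime b (fun hh => absurd rfl hh) ?_ ?_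
    · intro y hy hy0 hpos
      exfalso
      have h1 : Un (X.O x) (y : K) := (un_iff y.2).1 hy
      have h2 := hun0 (y : K) (un_mono (hX.spec P.η x hx) h1)
      omega
    · intro a p ha hp ih hpa hpos
      have ha0 : (a : K) ≠ 0 := fun hh => ha (Subtype.ext hh)
      have hp0 : (p : K) ≠ 0 := fun hh => hp.ne_zero (Subtype.ext hh)
      have h1 : P.p.ord ((p * a : X.O x) : K) = P.p.ord (p : K) + P.p.ord (a : K) :=
        ord_mul P.p _ _ hp0 ha0
      rcases lt_or_ge 0 (P.p.ord (p : K)) with h2 | h2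
      · exact ⟨p, hp, dvd_mul_right p a, h2⟩
      · obtain ⟨q, hq1, hq2, hq3⟩ := ih ha (by omega)
        exact ⟨q, hq1, hq2.mul_left p, hq3⟩
  obtain ⟨q, hq1, ⟨d, hd⟩, hq3⟩ := hfac ⟨t * s, ha₁x⟩ (fun hh => ha₁0 (congrArg Subtype.val hh))
    (by
      change 0 < P.p.ord (t * s)
      omega)
  have hd' : t * s = (q : K) * (d : K) := congrArg Subtype.val hd
  have hq0 : (q : K) ≠ 0 := fun hh => hq1.ne_zero (Subtype.ext hh)
  have hd0 : (d : K) ≠ 0 := fun hh => ha₁0 (by rw [hd', hh, mul_zero])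
  have hqord : P.p.ord (q : K) = 1 := by
    have h1 := ord_mul P.p _ _ hq0 hd0
    rw [← hd', ha₁] at h1
    have h2 := pt_ord hX P x hx (d : K) d.2 hd0
    omega
  refine ⟨(q : K), q.2, hq0, hqord, ?_⟩
  intro b hb hb0
  constructor
  · intro hpos
    have h1 : b / (t * s) ∈ X.O P.η := by
      rw [P.mem, ← ord_nonneg P.p _ (div_ne_zero hb0 ha₁0), div_eq_mul_inv,
        ord_mul P.p _ _ hb0 (inv_ne_zero ha₁0), ord_inv, ha₁]
      omega
    obtain ⟨r, hr, hru, hbr⟩ := hX.frac U P.η hU hηU _ h1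
    have hr0 : r ≠ 0 := hru.1
    have h2 : (⟨b, hb⟩ : X.O x) * ⟨r, hsecx r hr⟩ =
        q * (d * ⟨b / (t * s) * r, hsecx _ hbr⟩) := by
      apply Subtype.ext
      change b * r = (q : K) * ((d : K) * (b / (t * s) * r))
      rw [← mul_assoc, ← hd']
      have hs0 := hsu.1
      field_simp
    have h3 : q ∣ (⟨b, hb⟩ : X.O x) * ⟨r, hsecx r hr⟩ := ⟨_, h2⟩
    rcases hq1.dvd_or_dvd h3 with h4 | h4
    · obtain ⟨c, hc⟩ := h4
      have h5 : b = (q : K) * (c : K) := congrArg Subtype.val hc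
      rw [h5, mul_div_cancel_left₀ _ hq0]
      exact c.2
    · exfalso
      obtain ⟨c, hc⟩ := h4
      have h5 : r = (q : K) * (c : K) := congrArg Subtype.val hc
      have hc0 : (c : K) ≠ 0 := fun hh => hr0 (by rw [h5, hh, mul_zero])
      have h6 := hun0 r hru
      rw [h5, ord_mul P.p _ _ hq0 hc0, hqord] at h6
      have h7 := pt_ord hX P x hx (c : K) c.2 hc0
      omega
  · intro hbq
    have h1 : b = (q : K) * (b / (q : K)) := by field_simp
    have h2 : b / (q : K) ≠ 0 := div_ne_zero hb0 hq0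
    rw [h1, ord_mul P.p _ _ hq0 h2, hqord]
    have h3 := pt_ord hX P x hx _ hbq h2
    omega

private theorem pdiv_eq' (hX : IsVar X) (hufd : ∀ w, UniqueFactorizationMonoid (X.O w)) (P : PDiv X) :
    ∃ S : Cart X, Effective S ∧ (∀ x, P.η ⤳ x → P.p.ord (S.eq x) = 1 ∧
      ∀ a ∈ X.O x, a ≠ 0 → (0 < P.p.ord a ↔ a / S.eq x ∈ X.O x)) ∧ ∀ x, ¬ P.η ⤳ x → S.eq x = 1 := by
  classical
  have hex : ∀ x, ∃ m : K, m ≠ 0 ∧ m ∈ X.O x ∧ (P.η ⤳ x → P.p.ord m = 1 ∧
      ∀ a ∈ X.O x, a ≠ 0 → (0 < P.p.ord a ↔ a / m ∈ X.O x)) ∧ (¬ P.η ⤳ x → m = 1) := by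
    intro x
    by_cases hx : P.η ⤳ x
    · obtain ⟨q, hq, hq0, hq1, hq2⟩ := pdiv_uni' hX hufd P x hx
      exact ⟨q, hq0, hq, fun _ => ⟨hq1, hq2⟩, fun hh => absurd hx hh⟩
    · exact ⟨1, one_ne_zero, (X.O x).one_mem, fun hh => absurd hh hx, fun _ => rfl⟩
  choose m hm0 hmO hm1 hm2 using hex
  have hgen : ∀ x a, a ∈ {a : K | a ∈ X.O x ∧ (P.η ⤳ x → a = 0 ∨ 0 < P.p.ord a)} ↔
      a / m x ∈ X.O x := by
    intro x a
    rw [Set.mem_ofPred_eq]
    by_cases hx : P.η ⤳ x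
    · obtain ⟨h1, h2⟩ := hm1 x hx
      by_cases ha : a = 0
      · rw [ha, zero_div]
        exact ⟨fun _ => (X.O x).zero_mem, fun _ => ⟨(X.O x).zero_mem, fun _ => Or.inl rfl⟩⟩
      · constructor
        · rintro ⟨h3, h4⟩
          rcases h4 hx with h5 | h5
          · exact absurd h5 ha
          · exact (h2 a h3 ha).1 h5
        · intro h3
          have h4 : a = a / m x * m x := by
            have := hm0 x
            field_simp
          have h5 : a ∈ X.O x := by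
            rw [h4]
            exact (X.O x).mul_mem h3 (hmO x)
          exact ⟨h5, fun _ => Or.inr ((h2 a h5 ha).2 h3)⟩
    · rw [hm2 x hx, div_one]
      exact ⟨fun h3 => h3.1, fun h3 => ⟨h3, fun h4 => absurd h4 hx⟩⟩
  obtain ⟨S, hS⟩ := cart_of hX (fun x => {a : K | a ∈ X.O x ∧ (P.η ⤳ x → a = 0 ∨ 0 < P.p.ord a)}) m
    (fun x => ⟨(X.O x).zero_mem, fun _ => Or.inl rfl⟩)
    (fun x a ha b hb => by
      rw [hgen] at ha hb ⊢
      rw [add_div]
      exact (X.O x).add_mem ha hb)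
    (fun x a ha c hc => by
      rw [hgen] at ha ⊢
      rw [mul_div_assoc]
      exact (X.O x).mul_mem hc ha)
    (fun x a ha => ha.1) hm0 hgen
    (fun x U hU hxU a ha => by
      obtain ⟨s₁, hs₁, hs₁u, has⟩ := hX.frac U x hU hxU a ha.1
      by_cases hx : P.η ⤳ x
      · refine ⟨s₁, hs₁, hs₁u, fun y hy => ⟨(mem_sec U _).1 has y hy, fun hPy => ?_⟩⟩
        rcases ha.2 hx with h1 | h1
        · left
          rw [h1, zero_mul]
        · right
          have ha0 : a ≠ 0 := by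
            rintro rfl
            have h2 : P.p.ord (0 : K) = 0 := by
              have h3 := ord_inv P.p (0 : K)
              rw [inv_zero] at h3
              omega
            omega
          rw [ord_mul P.p _ _ ha0 hs₁u.1]
          have h2 := pt_ord hX P y hPy s₁ ((mem_sec U _).1 hs₁ y hy) hs₁u.1
          omega
      · obtain ⟨V, hV, hxV, hPV⟩ := not_specializes_iff_exists_open.1 hx
        obtain ⟨c, hc, hcx, hcy⟩ := hX.bas U V x hU hV hxU hxV
        have hcs : c ∈ X.sec U := (mem_sec U c).2 hc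
        refine ⟨s₁ * c, (X.sec U).mul_mem hs₁ hcs, un_mul hs₁u hcx, fun y hy => ⟨?_, fun hPy => ?_⟩⟩
        · rw [← mul_assoc]
          exact (X.O y).mul_mem ((mem_sec U _).1 has y hy) (hc y hy)
        · by_cases ha0 : a = 0
          · left
            rw [ha0, zero_mul]
          · right
            have hPU : P.η ∈ U := hPy.mem_open (hX.op U hU) hy
            have hc0 : c ≠ 0 := hcx.1
            have h1 : ¬ Un (X.O P.η) c := fun hh => hPV (hcy P.η hPU hh)
            have h2 : P.p.ord c ≠ 0 := by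
              intro hh
              obtain ⟨h3, h4⟩ := (ord_eq_zero P.p c hc0).1 hh
              exact h1 ⟨hc0, (P.mem c).2 h3, (P.mem _).2 h4⟩
            have h3 := pt_ord hX P y hPy c (hc y hy) hc0
            have h4 := pt_ord hX P y hPy (a * s₁) ((mem_sec U _).1 has y hy)
              (mul_ne_zero ha0 hs₁u.1)
            rw [← mul_assoc, ord_mul P.p _ _ (mul_ne_zero ha0 hs₁u.1) hc0]
            omega)
  refine ⟨S, fun x => ?_, fun x hx => ?_, fun x hx => ?_⟩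
  · rw [hS]
    exact hmO x
  · rw [hS]
    exact hm1 x hx
  · rw [hS]
    exact hm2 x hx


private theorem pdiv_spr' (hX : IsVar X) (hufd : ∀ w, UniqueFactorizationMonoid (X.O w)) (P : PDiv X) : ∃ S : Cart X, SPr X P.η S := by
  obtain ⟨S, h1, h2, h3⟩ := pdiv_eq' hX hufd P
  have hu : ∀ a, a ∈ X.O P.η → a ≠ 0 → (Un (X.O P.η) a ↔ P.p.ord a = 0) := by
    intro a ha ha0
    rw [ord_eq_zero P.p a ha0]
    exact ⟨fun h4 => ⟨(P.mem a).1 h4.2.1, (P.mem _).1 h4.2.2⟩, fun h4 => ⟨ha0, (P.mem a).2 h4.1, (P.mem _).2 h4.2⟩⟩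
  refine ⟨S, h1, fun x hx => ?_, fun x hx h4 => ?_, fun x hx a ha h4 => ?_⟩
  · rw [h3 x hx]
    exact un_one _
  · rw [hu _ (hX.spec _ _ hx (h1 x)) (S.ne x), (h2 x hx).1] at h4
    exact one_ne_zero h4
  · by_cases ha0 : a = 0
    · rw [ha0, zero_div]
      exact zero_mem _
    · rw [← (h2 x hx).2 a ha ha0]
      have h5 := pt_ord hX P x hx a ha ha0
      have h6 : P.p.ord a ≠ 0 := fun h7 => h4 ((hu a (hX.spec _ _ hx ha) ha0).2 h7)
      omega

private theorem trdeg_pdiv' (hX : IsVar X) (hgen : ∃ g, Gen X g) {d : ℕ} (htr : Algebra.trdeg k K = d + 1) (P : PDiv X) :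
    Algebra.trdeg k (X.kap P.η) = d := by
  obtain ⟨g, hg⟩ := hgen
  obtain ⟨U, hU, hPU⟩ := hX.chart P.η
  have hgU : g ∈ U := gen_mem hg U (hX.op U hU) ⟨_, hPU⟩
  have hft : Algebra.FiniteType k (X.sec U) := (Subalgebra.fg_iff_finiteType _).1 (hX.fg U hU ⟨_, hPU⟩)
  have hsec : ∀ a : X.sec U, ∀ y ∈ U, (a : K) ∈ X.O y := fun a => (mem_sec U a.1).1 a.2
  have hker : ∀ (y : X.P) (hy : y ∈ U) (a : X.sec U),
      a ∈ RingHom.ker (evS X y hy : X.sec U →+* X.kap y) ↔ ¬ Un (X.O y) (a : K) := by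
    intro y hy a
    rw [← rs_ne y (hsec a y hy), not_not]
    exact Iff.rfl
  -- the transcendence degree of the coordinate ring
  have h3 : Algebra.trdeg k (X.sec U) = d + 1 := by
    have h1 := trdeg_ev hX hU g hgU
    have h2 : RingHom.ker (evS X g hgU : X.sec U →+* X.kap g) = ⊥ := by
      rw [eq_bot_iff]
      intro a ha
      rw [hker] at ha
      rw [Ideal.mem_bot]
      by_contra h3
      exact ha ⟨fun h4 => h3 (Subtype.ext h4), hsec a g hgU, by rw [hg.top]; exact Algebra.mem_top⟩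
    rw [h2, (AlgEquiv.quotientBot k (X.sec U)).trdeg_eq, trdeg_gen hg, htr] at h1
    exact h1
  have hlt : Algebra.trdeg k (X.kap P.η) < d + 1 := by
    obtain ⟨t, ht0, ht⟩ := ord_unif P.p
    rw [← htr]
    refine trdeg_lt_gen hX hg ht0 fun h3 => ?_
    have h4 := (ord_eq_zero P.p t h3.1).2 ⟨(P.mem _).1 h3.2.1, (P.mem _).1 h3.2.2⟩
    omega
  have hge : d ≤ Algebra.trdeg k (X.kap P.η) := by
    rw [← trdeg_ev hX hU P.η hPU]
    have hprime := RingHom.ker_isPrime (evS X P.η hPU : X.sec U →+* X.kap P.η)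
    refine trdeg_quo h3 _ ?_ ?_
    · intro hbot
      obtain ⟨t, ht0, ht⟩ := ord_unif P.p
      have htO : t ∈ X.O P.η := (P.mem t).2 ((ord_nonneg P.p t ht0).1 (by omega))
      obtain ⟨s, hs, h4, h5⟩ := hX.frac U P.η hU hPU t htO
      have h6 : (⟨t * s, h5⟩ : X.sec U) ∈ RingHom.ker (evS X P.η hPU : X.sec U →+* X.kap P.η) := by
        rw [hker]
        intro h7
        have h8 := ((un_mul_iff htO h4.2.1).1 h7).1
        have h9 := (ord_eq_zero P.p t h8.1).2 ⟨(P.mem _).1 h8.2.1, (P.mem _).1 h8.2.2⟩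
        omega
      rw [hbot, Ideal.mem_bot] at h6
      exact mul_ne_zero ht0 h4.1 (congrArg Subtype.val h6)
    · intro Q hQ hQ0 hQle
      refine le_antisymm hQle ?_
      obtain ⟨y, hy, hQy⟩ := hX.prime U hU ⟨_, hPU⟩ Q hQ
      obtain ⟨b, hb, hb0⟩ := Submodule.exists_mem_ne_zero_of_ne_bot hQ0
      have hb0' : (b : K) ≠ 0 := fun hh => hb0 (Subtype.ext hh)
      have hyP : y ⤳ P.η := by
        refine sp_of hX hU hy hPU fun a ha h6 h7 => ?_
        have h8 : (⟨a, ha⟩ : X.sec U) ∈ Q := (hQy _).2 fun h9 => (rs_ne y h9.2.1).2 h9 h6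
        exact (hker _ hPU _).1 (hQle h8) h7
      intro a ha
      rw [hker] at ha
      by_cases ha0 : (a : K) = 0
      · have h6 : a = 0 := Subtype.ext ha0
        rw [h6]
        exact Q.zero_mem
      have haO := hsec a _ hPU
      have h6 : 0 < P.p.ord (a : K) := by
        have h7 : 0 ≤ P.p.ord (a : K) := (ord_nonneg P.p _ ha0).2 ((P.mem _).1 haO)
        refine lt_of_le_of_ne h7 fun h8 => ha ?_
        have h9 := (ord_eq_zero P.p _ ha0).1 h8.symm
        exact ⟨ha0, haO, (P.mem _).2 h9.2⟩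
      have hpow : ∀ n : ℕ, P.p.ord ((a : K) ^ n) = n * P.p.ord (a : K) := by
        intro n
        induction n with
        | zero => rw [pow_zero, ord_one]; simp
        | succ n ih =>
          rw [pow_succ, ord_mul P.p _ _ (pow_ne_zero n ha0) ha0, ih]
          push_cast
          ring
      let N : ℕ := (P.p.ord (b : K)).toNat
      have h7 : (a : K) ^ N / (b : K) ∈ X.O P.η := by
        refine (P.mem _).2 ((ord_nonneg P.p _ (div_ne_zero (pow_ne_zero _ ha0) hb0')).1 ?_)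
        rw [div_eq_mul_inv, ord_mul P.p _ _ (pow_ne_zero _ ha0) (inv_ne_zero hb0'), ord_inv, hpow]
        have h8 : P.p.ord (b : K) ≤ N := Int.self_le_toNat _
        nlinarith
      have h8 : (a : K) ^ N / (b : K) ∈ X.O y := hX.spec _ _ hyP h7
      rw [hQy] at hb ⊢
      intro h9
      apply hb
      have h10 : (b : K) * ((a : K) ^ N / (b : K)) = (a : K) ^ N := by field_simp
      have h11 := un_pow h9 N
      rw [← h10, un_mul_iff (hsec b y hy) h8] at h11
      exact h11.1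
  have h4 : Algebra.trdeg k (X.kap P.η) < Cardinal.aleph0 :=
    hlt.trans (by exact_mod_cast Cardinal.natCast_lt_aleph0 (n := d + 1))
  obtain ⟨n, hn⟩ := Cardinal.lt_aleph0.1 h4
  rw [hn] at hlt hge ⊢
  have h5 : n < d + 1 := by exact_mod_cast hlt
  have h6 : d ≤ n := by exact_mod_cast hge
  have h7 : n = d := by omega
  rw [h7]

private theorem exists_pdiv' (hX : IsVar X) (hg : ∃ g, Gen X g) (hufd : ∀ w, UniqueFactorizationMonoid (X.O w)) (S : Cart X) (hS : Effective S) (hn : ¬ Effective S⁻¹) :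
    ∃ P : PDiv X, 1 ≤ P.p.ord (S.eq P.η) := by
  have h1 : ∃ x, (S.eq x)⁻¹ ∉ X.O x := by
    by_contra hcon
    push Not at hcon
    exact hn fun x => by
      rw [inv_eq]
      exact hcon x
  obtain ⟨x, hx⟩ := h1
  have hufx := hufd x
  have ha0 : (⟨S.eq x, hS x⟩ : X.O x) ≠ 0 := by
    intro h2
    exact S.ne x (congrArg Subtype.val h2)
  have hau : ¬ IsUnit (⟨S.eq x, hS x⟩ : X.O x) := by
    intro h2
    exact hx ((un_iff (hS x)).1 h2).2.2
  obtain ⟨i, hi, b, hb⟩ := WfDvdMonoid.exists_irreducible_factor hau ha0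
  have hp : Prime i := UniqueFactorizationMonoid.irreducible_iff_prime.1 hi
  obtain ⟨P, hPx, -, hP⟩ := pdiv_of_prime' hX hg hufd x i.1 i.2 hp
  refine ⟨P, ?_⟩
  have hi0 : (i : K) ≠ 0 := by
    intro h2
    exact hi.ne_zero (Subtype.ext h2)
  have h3 : S.eq x = (i : K) * (b : K) := congrArg Subtype.val hb
  have h4 : S.eq x / (i : K) ∈ X.O x := by
    rw [h3, mul_div_cancel_left₀ _ hi0]
    exact b.2
  have h5 : 0 < P.p.ord (S.eq x) := (hP (S.eq x) (hS x) (S.ne x)).2 h4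
  rw [ord_eq_pt P S x hPx] at h5
  omega

end

variable {k L : Type} [Field k] [Field L] [Algebra k L] {S : Mod k L}

theorem exists_prm (hV : IsVar S) (hg : ∃ g, Gen S g) (hu : ∀ w, UniqueFactorizationMonoid (S.O w)) {d : ℕ}
    (htr : Algebra.trdeg k L = d + 1) (D : Cart S) (hD : Effective D) (hn : ¬ Effective D⁻¹) :
    ∃ (y : S.P) (C : Cart S), SPr S y C ∧ Algebra.trdeg k (S.kap y) = d ∧ Effective (D * C⁻¹) := by
  obtain ⟨P, hP⟩ := exists_pdiv' hV hg hu D hD hn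
  obtain ⟨C, hC⟩ := pdiv_spr' hV hu P
  refine ⟨P.η, C, hC, trdeg_pdiv' hV hg htr P, ?_⟩
  have hun : ¬ Un (S.O P.η) (D.eq P.η) := by
    rintro ⟨-, h1, h2⟩
    have := (ord_eq_zero P.p _ (D.ne _)).2 ⟨(P.mem _).1 h1, (P.mem _).1 h2⟩
    omega
  intro x
  rw [mul_eq, inv_eq, ← div_eq_mul_inv, hC.mem_iff hV x (hD x)]
  intro hx h1
  apply hun
  have h2 := quo_un D P.η x hx
  have h3 : D.eq P.η = D.eq x * (D.eq x / D.eq P.η)⁻¹ := by
    have := D.ne x
    have := D.ne P.η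
    field_simp
  rw [h3]
  exact un_mul h1 (un_inv h2)

end Pool.Agent.H24.VP
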