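import Pool.Agent.H24.VP.T4
import Pool.Agent.H24.VP.CvC
import Pool.Agent.H24.VP.Prm
import Pool.Agent.H24.VP.Int

/-!
# [H24 VP Dec] THEOREM V+ (MP_e49dc9_ag): decomposition on the generic surface

`le_num`: `ψ A` and `ψ B` linearly equivalent: `h0 (ψ (U⁻¹ A H ^ n)) = h0 (ψ (U⁻¹ B H ^ n))` (`LEq.mul`, `LEq.h0`), so (`sf_ev`) `chS (U⁻¹ A H ^ n) =
chS (U⁻¹ B H ^ n)` for large `n` and all `U`; the same with `U = 1`: take the difference, then the coefficient of `n` and the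
constant term: `T(A,U,H) = T(B,U,H)`.
`dec`: induction on the natural number `T(W,H,H)` (`t_int`, `h0_nn`).  `f ≠ 0` in `secL (ψ W) 1`, `D := ψ W * prin f` is effective.  If
`D⁻¹` is effective: `r = 0` (`LEq (ψ W) 1`, as `D` is trivial).  Otherwise `exists_prm` (`d = 1`): `y, C` with `D * C⁻¹` effective, `Sf.pic`:
`LEq C (ψ E)`, `Cls E`, `LEq (D C⁻¹) (ψ (W E⁻¹))`, so `0 < h0 (ψ (W E⁻¹))` (`LEq.eff`), `0 < T(E,H,H)` (`cv_pos` with `W := H`): induction.
-/

set_option autoImplicit false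

namespace Pool.Agent.H24.VP

open Pool.Agent.H54.RV Pool.Agent.H83.TU Pool.Agent.H83.TK Pool.Agent.H24.TK Pool.Agent.H41.TK

variable {k K : Type} [Field k] [Field K] [Algebra k K] {X : Mod k K}
  {T : Cart X → Cart X → Cart X → ℝ} {l : Cart X → ℝ} {c : ℝ} {H : Cart X} {k' L : Type} [Field k'] [Field L]
  [Algebra k' L] {S : Mod k' L} {ψ : Cart X →* Cart S}

theorem le_num (hr : RR T l c) (hS : Sf H S ψ) {A B : Cart X} (h : LEq (ψ A) (ψ B)) (U : Cart X) :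
    T A U H = T B U H := by
  obtain ⟨n1, h1⟩ := sf_ev hr hS A H hS.hH
  obtain ⟨n2, h2⟩ := sf_ev hr hS B H hS.hH
  obtain ⟨n3, h3⟩ := sf_ev hr hS (A * U⁻¹) H hS.hH
  obtain ⟨n4, h4⟩ := sf_ev hr hS (B * U⁻¹) H hS.hH
  obtain ⟨n, hn1, hn2, hn3, hn4⟩ : ∃ n, n1 ≤ n ∧ n2 ≤ n ∧ n3 ≤ n ∧ n4 ≤ n :=
    ⟨n1 + n2 + n3 + n4, by omega, by omega, by omega, by omega⟩
  have e1 := h1 n hn1
  have e2 := h2 n hn2
  have e3 := h3 n hn3
  have e4 := h4 n hn4
  have k1 : h0 (ψ (A * H ^ n)) 1 = h0 (ψ (B * H ^ n)) 1 := by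
    rw [map_mul ψ A, map_mul ψ B]
    exact (h.mul (LEq.refl _)).h0 1
  have k2 : h0 (ψ (A * U⁻¹ * H ^ n)) 1 = h0 (ψ (B * U⁻¹ * H ^ n)) 1 := by
    rw [mul_assoc A, mul_assoc B, map_mul ψ A, map_mul ψ B]
    exact (h.mul (LEq.refl _)).h0 1
  rw [k1, e2] at e1
  rw [k2, e4] at e3
  have g1 := hr.chS_sub H (A * H ^ n) U
  have g2 := hr.chS_sub H (B * H ^ n) U
  rw [mul_right_comm A (H ^ n) U⁻¹, hr.tri.add] at g1
  rw [mul_right_comm B (H ^ n) U⁻¹, hr.tri.add] at g2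
  linarith

theorem dec (hr : RR T l c) (hS : Sf H S ψ) (W : Cart X) (hW : 0 < h0 (ψ W) 1) :
    ∃ (r : ℕ) (E : Fin r → Cart X), (∀ i, Cls S ψ (E i)) ∧ LEq (ψ W) (ψ (∏ i, E i)) := by
  have hchar := hS.char
  have hfd : ∀ D : Cart S, Module.Finite k' (secL D 1) := fun D => fd hS.var hS.gen (hS.amp H hS.hH) D
  obtain ⟨N, hN⟩ : ∃ N : ℕ, T W H H < N := exists_nat_gt _
  induction N generalizing W with
  | zero =>
    exfalso
    have h1 := h0_nn hr hS W hW
    rw [Nat.cast_zero] at hN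
    linarith
  | succ N ih =>
    obtain ⟨f, hf, hf0⟩ : ∃ f ∈ secL (ψ W) 1, f ≠ 0 := by
      by_contra hcon
      push Not at hcon
      have h2 : Subsingleton (secL (ψ W) 1) :=
        ⟨fun a b => Subtype.ext (by rw [hcon _ a.2, hcon _ b.2])⟩
      unfold h0 at hW
      rw [Module.finrank_zero_of_subsingleton] at hW
      exact lt_irrefl _ hW
    obtain ⟨D, hDd⟩ : ∃ D : Cart S, D = ψ W * prin S f hf0 := ⟨_, rfl⟩
    have hDe : ∀ w, D.eq w = (ψ W).eq w * f := by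
      intro w
      rw [hDd]
      rfl
    have hD : Effective D := fun w => by
      have h1 : f * (ψ W).eq w ^ 1 ∈ S.O w := hf w
      rw [pow_one, mul_comm] at h1
      rw [hDe]
      exact h1
    by_cases hn : Effective D⁻¹
    · refine ⟨0, Fin.elim0, fun i => i.elim0, f⁻¹, inv_ne_zero hf0, fun w => ?_⟩
      have e : (ψ W).eq w / ((ψ (∏ i : Fin 0, (Fin.elim0 i : Cart X))).eq w * f⁻¹) = D.eq w := by
        rw [Fin.prod_univ_zero, map_one, one_eq, one_mul, div_inv_eq_mul, hDe]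
      rw [e]
      exact ⟨D.ne w, hD w, hn w⟩
    · obtain ⟨y, C, hC, ht, hE⟩ := exists_prm hS.var hS.gen hS.ufd (d := 1)
        (by rw [hS.tr, Nat.cast_one, one_add_one_eq_two]) D hD hn
      obtain ⟨E, g, hg0, hg⟩ := hS.pic y C hC
      have hCE : LEq C (ψ E) := ⟨g, hg0, hg⟩
      have hcls : Cls S ψ E := ⟨y, C, hC, by rw [ht, Nat.cast_one], hCE⟩
      have hLE : LEq (D * C⁻¹) (ψ (W * E⁻¹)) := by
        rw [map_mul, map_inv, hDd]
        exact (LEq.prin (ψ W) f hf0).mul hCE.inv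
      obtain ⟨s, hs, hs0⟩ := hLE.eff hE
      have hpos := Pool.Agent.H32.TK.pos_of_sec (ψ (W * E⁻¹)) (hfd _) hs hs0
      have hT : 0 < T E H H := by
        have h1 := cv_pos hr hS hcls hS.hH
        rwa [hr.tri.s12] at h1
      obtain ⟨z1, hz1⟩ := t_int hr ⟨H, hS.hH⟩ E H H
      have hz : 1 ≤ T E H H := by
        rw [hz1] at hT ⊢
        exact_mod_cast hT
      have hlt : T (W * E⁻¹) H H < N := by
        rw [hr.tri.add, hr.tri.inv]
        rw [Nat.cast_succ] at hN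
        linarith
      obtain ⟨r, F, hF, hL⟩ := ih (W * E⁻¹) hpos hlt
      refine ⟨r + 1, Fin.cons E F, fun i => ?_, ?_⟩
      · refine Fin.cases ?_ (fun j => ?_) i
        · rw [Fin.cons_zero]
          exact hcls
        · rw [Fin.cons_succ]
          exact hF j
      · rw [Fin.prod_univ_succ, Fin.cons_zero]
        simp only [Fin.cons_succ]
        rw [map_mul]
        have h1 := (LEq.refl (ψ E)).mul hL
        rw [← map_mul ψ E (W * E⁻¹), mul_comm E, inv_mul_cancel_right] at h1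
        exact h1

end Pool.Agent.H24.VP
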