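import Pool.Agent.H24.VP.Alg

/-!
# [H24 VP Ev] THEOREM V+ (MP_e49dc9_ag): the Hilbert polynomial of the generic surface, the generic curve on it

`sf_ev`: `Sf.ev`, `RR.ev` for `W` and for `W * H⁻¹`, `RR.chi_sub`.
`crv_num`: as the part `key` of `w_surf` in `H41/TW/W1.lean`: `h0 (ψ (W H ^ n)) - h0 (ψ (W H ^ n (H ^ m)⁻¹)) = h0 (φ (W H ^ n)) =
dg (φ W) + n dg (φ H) + chi C` for large `n` (`h0_eq`, `dg_ample`), compare with `sf_ev` and `RR.chS_sub`.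
-/

set_option autoImplicit false

namespace Pool.Agent.H24.VP

open Pool.Agent.H54.RV Pool.Agent.H83.TU Pool.Agent.H83.TK Pool.Agent.H24.TK Pool.Agent.H41.TK

variable {k K : Type} [Field k] [Field K] [Algebra k K] {X : Mod k K}
  {T : Cart X → Cart X → Cart X → ℝ} {l : Cart X → ℝ} {c : ℝ} {H : Cart X} {k' L : Type} [Field k'] [Field L]
  [Algebra k' L] {S : Mod k' L} {ψ : Cart X →* Cart S}

theorem sf_ev (hr : RR T l c) (hS : Sf H S ψ) (W D : Cart X) (hD : Ample D) :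
    ∃ n₀ : ℕ, ∀ n ≥ n₀, (h0 (ψ (W * D ^ n)) 1 : ℝ) = chS T l H (W * D ^ n) := by
  obtain ⟨n1, h1⟩ := hS.ev W D hD
  obtain ⟨n2, h2⟩ := hr.ev W D hD
  obtain ⟨n3, h3⟩ := hr.ev (W * H⁻¹) D hD
  refine ⟨max n1 (max n2 n3), fun n hn => ?_⟩
  have a1 := h1 n (le_trans (le_max_left _ _) hn)
  have a2 := h2 n (le_trans ((le_max_left _ _).trans (le_max_right _ _)) hn)
  have a3 := h3 n (le_trans ((le_max_right _ _).trans (le_max_right _ _)) hn)
  have a4 : (h0 (W * D ^ n) 1 : ℝ) = h0 (W * D ^ n * H⁻¹) 1 + h0 (ψ (W * D ^ n)) 1 := by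
    exact_mod_cast a1
  have a5 : W * H⁻¹ * D ^ n = W * D ^ n * H⁻¹ := mul_right_comm _ _ _
  rw [a5] at a3
  rw [← hr.chi_sub H (W * D ^ n)]
  linarith

/-- two linear functions which agree for large `n` -/
private theorem lin_eq' {a b a' b' : ℝ} {N : ℕ} (h : ∀ n : ℕ, N ≤ n → a + n * b = a' + n * b') :
    a = a' ∧ b = b' := by
  have h1 := h N le_rfl
  have h2 := h (N + 1) (Nat.le_succ N)
  push_cast at h2
  have h3 : b = b' := by linarith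
  refine ⟨?_, h3⟩
  rw [h3] at h1
  linarith

theorem crv_num (hr : RR T l c) (hS : Sf H S ψ) : 0 < T H H H ∧
    ∃ (m : ℕ) (k₂ K₂ : Type) (_ : Field k₂) (_ : Field K₂) (_ : Algebra k₂ K₂) (_ : CharZero k₂)
      (C : Mod k₂ K₂) (φ : Cart X →* Cart C), 1 ≤ m ∧ Crv C ∧ (∀ D, Ample D → Ample (φ D)) ∧
        (∀ W : Cart X, h0 (ψ W) 1 ≤ h0 (ψ (W * (H ^ m)⁻¹)) 1 + h0 (φ W) 1) ∧
        (∀ W : Cart X, (dg (φ W) : ℝ) = m * T W H H) ∧
        ((Pool.Agent.H41.TK.chi C : ℤ) : ℝ) = -((m ^ 2 + m) * T H H H / 2) := by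
  obtain ⟨m, k₂, K₂, i1, i2, i3, i4, C, φ, hm, hC, hφ, hle, heq⟩ := hS.crv
  obtain ⟨τ, hτ⟩ : ∃ τ, τ = T H H H := ⟨_, rfl⟩
  obtain ⟨e, he⟩ : ∃ e : ℝ, e = (Pool.Agent.H41.TK.chi C : ℤ) := ⟨_, rfl⟩
  have hm1 : (1 : ℝ) ≤ m := by exact_mod_cast hm
  have hdS : 0 < dg (φ H) := dg_ample hC _ (hφ H hS.hH)
  have key : ∀ W : Cart X, m * T W H H - (m ^ 2 + m) * τ / 2 = (dg (φ W) : ℝ) + e ∧
      m * τ = (dg (φ H) : ℝ) := by
    intro W
    obtain ⟨n1, h1⟩ := sf_ev hr hS W H hS.hH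
    obtain ⟨n2, h2⟩ := sf_ev hr hS (W * (H ^ m)⁻¹) H hS.hH
    obtain ⟨n3, h3⟩ := heq W H hS.hH
    obtain ⟨n4, h4⟩ : ∃ n4 : ℕ, ∀ n : ℕ, n4 ≤ n →
        - 2 * Pool.Agent.H41.TK.chi C < dg (φ W) + n * dg (φ H) := by
      refine ⟨(- 2 * Pool.Agent.H41.TK.chi C - dg (φ W) + 1).toNat, fun n hn => ?_⟩
      have h5 : (- 2 * Pool.Agent.H41.TK.chi C - dg (φ W) + 1) ≤ n := Int.toNat_le.1 hn
      have h6 : (n : ℤ) * 1 ≤ n * dg (φ H) :=
        mul_le_mul_of_nonneg_left (by omega) (Int.natCast_nonneg _)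
      omega
    refine lin_eq' (N := max (max n1 n2) (max n3 n4)) fun n hn => ?_
    have a1 := h1 n (le_trans ((le_max_left _ _).trans (le_max_left _ _)) hn)
    have a2 := h2 n (le_trans ((le_max_right _ _).trans (le_max_left _ _)) hn)
    have a3 := h3 n (le_trans ((le_max_left _ _).trans (le_max_right _ _)) hn)
    have a4 := h4 n (le_trans ((le_max_right _ _).trans (le_max_right _ _)) hn)
    have a5 : dg (φ (W * H ^ n)) = dg (φ W) + n * dg (φ H) := by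
      rw [map_mul, map_pow, dg_mul hC, dg_pow hC]
    have a6 := h0_eq hC (φ (W * H ^ n)) (by rw [a5]; exact a4)
    rw [a5] at a6
    have a7 : (h0 (φ (W * H ^ n)) 1 : ℝ) = dg (φ W) + n * dg (φ H) + e := by
      rw [he]
      exact_mod_cast a6
    have a8 : (h0 (ψ (W * H ^ n)) 1 : ℝ) =
        h0 (ψ (W * (H ^ m)⁻¹ * H ^ n)) 1 + h0 (φ (W * H ^ n)) 1 := by
      rw [mul_right_comm W]
      exact_mod_cast a3
    rw [a1, a2, a7, mul_right_comm W] at a8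
    have a9 := hr.chS_sub H (W * H ^ n) (H ^ m)
    simp only [hr.tri.add, hr.tri.pow, hr.tri.pow2, ← hτ] at a9
    linarith
  obtain ⟨k1, k2⟩ := key 1
  have k0 : (dg (φ 1) : ℝ) = 0 := by
    rw [map_one, dg_one]
    norm_num
  rw [k0, hr.tri.one] at k1
  have k4 : e = -((m ^ 2 + m) * τ / 2) := by linarith
  have hτ0 : 0 < τ := by
    have h1 : (0 : ℝ) < dg (φ H) := by exact_mod_cast hdS
    rw [← k2] at h1
    exact (pos_iff_pos_of_mul_pos h1).1 (by linarith)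
  rw [← hτ]
  refine ⟨hτ0, m, k₂, K₂, i1, i2, i3, i4, C, φ, hm, hC, hφ, hle, fun W => ?_, ?_⟩
  · have h1 := (key W).1
    rw [k4] at h1
    linarith
  · rw [← he]
    exact k4

end Pool.Agent.H24.VP
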