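import Pool.Agent.H24.VP.Hda2
import Pool.Agent.H24.VP.Two

/-!
# [H24 VP Fin] THEOREM V+ (MP_e49dc9_ag): the prime divisors with `T(N,A,P) = 0`

Suppose that the set is infinite: choose `ρ + 1` different points `η i = (P i).η` in it, `C i` their divisors.  There are integers
`x i`, not all `0`, with `∑ x i • ν (C i) = 0` (`ρ + 1` vectors in `ℤ ^ ρ`).  `U := ∏ over x i > 0 of C i ^ x i`, `V := ∏ over x i < 0 of C i ^ (-x i)`:
`ν U = ν V`, so `T(U,.,.) = T(V,.,.)` (`numz_T`).  Without loss some `x i > 0` (otherwise `T(V,A,A) = T(U,A,A) = 0`, against `pos_prm`).  `T(U,U,A) =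
T(U,V,A) ≥ 0` (`nn_two`), `T(N,U,A) = 0`, `T(N,N,A) = 0`, `T(U,A,A) > 0`.  `E := U ^ a * N ^ (-b)`, `a = T(N,A,A)`, `b = T(U,A,A)` (integers, `t_int`, positive):
`T(E,A,A) = 0`, `T(E,E,A) = a ^ 2 T(U,U,A) ≥ 0`, `hdg_amp`: `= 0`, `hdg_eq` (`L := A`): `T(E,G,A) = 0`: `a T(U,G,A) = b T(N,G,A)` for all `G`.  `M := U ^ a`, `r := b`.
-/

set_option autoImplicit false

namespace Pool.Agent.H24.VP

open Pool.Agent.H54.RV Pool.Agent.H83.TU Pool.Agent.H83.TK Pool.Agent.H24.TK

variable {k K : Type} [Field k] [Field K] [Algebra k K] {X : Mod k K}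
  {T : Cart X → Cart X → Cart X → ℝ} {l : Cart X → ℝ} {c : ℝ}

private theorem eff_one : Effective (1 : Cart X) := fun x => by
  rw [one_eq]
  exact (X.O x).one_mem

private theorem eff_mul {A B : Cart X} (hA : Effective A) (hB : Effective B) : Effective (A * B) :=
  fun x => by
    rw [mul_eq]
    exact (X.O x).mul_mem (hA x) (hB x)

private theorem eff_pow {A : Cart X} (hA : Effective A) (n : ℕ) : Effective (A ^ n) := fun x => by
  rw [pow_eq]
  exact (X.O x).pow_mem (hA x) n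

private theorem eff_prod {ι : Type} (s : Finset ι) (f : ι → Cart X) (hf : ∀ i ∈ s, Effective (f i)) :
    Effective (∏ i ∈ s, f i) := by
  classical
  induction s using Finset.induction_on with
  | empty => exact eff_one
  | insert a s ha ih =>
    rw [Finset.prod_insert ha]
    exact eff_mul (hf a (Finset.mem_insert_self _ _)) (ih fun i hi => hf i (Finset.mem_insert_of_mem hi))

/-- the construction of `M` from `U` -/
private theorem fin_end [CharZero k] [T0Space X.P] (h : Hyp X) (hr : RR T l c) {A N U : Cart X} (hA : Ample A)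
    (hNN : ∀ G, T N N G = 0) (hv : 0 < T N A A) (hU : Effective U) (hUA : 0 < T U A A)
    (hUU : 0 ≤ T U U A) (hNU : T N U A = 0) :
    ∃ (r : ℕ) (M : Cart X), 1 ≤ r ∧ Effective M ∧ ∀ G, T M G A = r * T N G A := by
  have hA3 := pos_amp h hr hA hA hA
  obtain ⟨za, hza⟩ := t_int hr h.amp N A A
  obtain ⟨zb, hzb⟩ := t_int hr h.amp U A A
  have ha0 : 0 < za := by
    rw [hza] at hv
    exact_mod_cast hv
  have hb0 : 0 < zb := by
    rw [hzb] at hUA
    exact_mod_cast hUA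
  have hUN : T U N A = 0 := by rw [hr.tri.s12, hNU]
  have hEE : T (U ^ za * N ^ (-zb)) (U ^ za * N ^ (-zb)) A = za ^ 2 * T U U A := by
    simp only [hr.tri.add, hr.tri.add2, hr.tri.zpow, hr.tri.zpow2, hUN, hNU, hNN]
    ring
  have hEA : T (U ^ za * N ^ (-zb)) A A = 0 := by
    rw [hr.tri.add, hr.tri.zpow, hr.tri.zpow, hza, hzb]
    push_cast
    ring
  have hE0 : T (U ^ za * N ^ (-zb)) (U ^ za * N ^ (-zb)) A = 0 := by
    refine le_antisymm (hdg_amp h hr hA _ hEA) ?_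
    rw [hEE]
    positivity
  have key : ∀ G, T (U ^ za * N ^ (-zb)) G A = 0 := fun G =>
    hdg_eq hr.tri (t_int hr h.amp) hA3 (fun E hE => hdg_amp h hr hA E hE) A _ G hA3
      (by rw [hr.tri.s12, hEA]) hE0
  refine ⟨zb.toNat, U ^ za.toNat, by omega, eff_pow hU _, fun G => ?_⟩
  have h1 := key G
  rw [hr.tri.add, hr.tri.zpow, hr.tri.zpow] at h1
  rw [hr.tri.pow]
  have h2 : ((za.toNat : ℕ) : ℝ) = (za : ℝ) := by
    have : ((za.toNat : ℕ) : ℤ) = za := Int.toNat_of_nonneg ha0.le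
    exact_mod_cast congrArg (fun z : ℤ => (z : ℝ)) this
  have h3 : ((zb.toNat : ℕ) : ℝ) = (zb : ℝ) := by
    have : ((zb.toNat : ℕ) : ℤ) = zb := Int.toNat_of_nonneg hb0.le
    exact_mod_cast congrArg (fun z : ℤ => (z : ℝ)) this
  rw [h2, h3]
  push_cast at h1
  linarith

theorem fin_prm [CharZero k] [T0Space X.P] (h : Hyp X) (hr : RR T l c) {ρ : ℕ}
    (ν : Cart X →* Multiplicative (Fin ρ → ℤ)) (hν : ∀ D, ν D = 1 → NumZ D) {A N : Cart X} (hA : Ample A) (hN : Nf N)
    (hNN : ∀ G, T N N G = 0) (hv : 0 < T N A A) :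
    {η : X.P | ∃ P : PDiv X, P.η = η ∧ ∃ C : Cart X, SPr X P.η C ∧ T N A C = 0}.Finite ∨
      ∃ (r : ℕ) (M : Cart X), 1 ≤ r ∧ Effective M ∧ ∀ G, T M G A = r * T N G A := by
  classical
  by_cases hfin : {η : X.P | ∃ P : PDiv X, P.η = η ∧ ∃ C : Cart X, SPr X P.η C ∧ T N A C = 0}.Finite
  · exact Or.inl hfin
  right
  obtain ⟨t, ht, htc⟩ := Set.Infinite.exists_subset_card_eq hfin (ρ + 1)
  have hch : ∀ i : t, ∃ (P : PDiv X) (C : Cart X), P.η = i.1 ∧ SPr X P.η C ∧ T N A C = 0 := by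
    intro i
    obtain ⟨P, hP, C, hC, h0⟩ := ht (Finset.mem_coe.2 i.2)
    exact ⟨P, C, hP, hC, h0⟩
  choose P C hP hC hNC using hch
  have hdep : ∃ x : t → ℤ, ∑ i, x i • (Multiplicative.toAdd (ν (C i))) = 0 ∧ ∃ i, x i ≠ 0 := by
    rw [← Fintype.not_linearIndependent_iff]
    intro hli
    have h1 := hli.fintype_card_le_finrank
    rw [Module.finrank_fintype_fun_eq_card, Fintype.card_coe, htc, Fintype.card_fin] at h1
    omega
  obtain ⟨x, hx, i₀, hi₀⟩ := hdep
  obtain ⟨U, hU⟩ : ∃ U, U = ∏ i, C i ^ (x i).toNat := ⟨_, rfl⟩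
  obtain ⟨V, hV⟩ : ∃ V, V = ∏ i, C i ^ (-x i).toNat := ⟨_, rfl⟩
  have hνUV : ν (U * V⁻¹) = 1 := by
    apply Multiplicative.toAdd.injective
    rw [toAdd_one, map_mul, map_inv, toAdd_mul, toAdd_inv, hU, hV, map_prod ν, map_prod ν, toAdd_prod,
      toAdd_prod, ← Finset.sum_neg_distrib, ← Finset.sum_add_distrib, ← hx]
    refine Finset.sum_congr rfl fun i _ => ?_
    rw [map_pow ν, map_pow ν, toAdd_pow, toAdd_pow, ← natCast_zsmul, ← natCast_zsmul, ← sub_eq_add_neg,
      ← sub_smul, Int.toNat_sub_toNat_neg]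
  have hUV : ∀ G G', T U G G' = T V G G' := by
    intro G G'
    have h1 := numz_T h hr (hν _ hνUV) G G'
    rw [hr.tri.add, hr.tri.inv] at h1
    linarith
  have hEU : Effective U := by
    rw [hU]
    exact eff_prod _ _ fun i _ => eff_pow (hC i).eff _
  have hCA : ∀ i, 0 < T (C i) A A := by
    intro i
    have h1 := pos_prm h hr hA hA (P i) (hC i)
    have h2 : T (C i) A A = T A A (C i) := by rw [hr.tri.s12, hr.tri.s23]
    rw [h2]
    exact h1
  have hsumA : ∀ (m : t → ℕ), T (∏ i, C i ^ m i) A A = ∑ i, m i * T (C i) A A := by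
    intro m
    rw [hr.tri.prod]
    exact Finset.sum_congr rfl fun i _ => hr.tri.pow _ _ _ _
  have hpos : ∀ (m : t → ℕ), 1 ≤ m i₀ → 0 < T (∏ i, C i ^ m i) A A := by
    intro m hm
    rw [hsumA]
    refine Finset.sum_pos' (fun i _ => mul_nonneg (Nat.cast_nonneg _) (hCA i).le)
      ⟨i₀, Finset.mem_univ _, mul_pos (by exact_mod_cast hm) (hCA i₀)⟩
  have hUA : 0 < T U A A := by
    rcases lt_or_gt_of_ne hi₀ with h1 | h1
    · rw [hUV, hV]
      exact hpos _ (by omega)
    · rw [hU]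
      exact hpos _ (by omega)
  have hUU : 0 ≤ T U U A := by
    rw [hr.tri.s12, hUV, hr.tri.s12, hU, hV, hr.tri.prod]
    refine Finset.sum_nonneg fun i _ => ?_
    rw [hr.tri.prod2]
    refine Finset.sum_nonneg fun j _ => ?_
    rw [hr.tri.pow, hr.tri.pow2]
    by_cases hij : i = j
    · subst hij
      rcases le_total (x i) 0 with h1 | h1
      · have h2 : (x i).toNat = 0 := by omega
        rw [h2, Nat.cast_zero, zero_mul]
      · have h2 : (-x i).toNat = 0 := by omega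
        rw [h2, Nat.cast_zero, zero_mul, mul_zero]
    · have h1 : (P i).η ≠ (P j).η := by
        rw [hP, hP]
        exact fun h2 => hij (Subtype.ext h2)
      have h2 := nn_two h hr hA (P i) (P j) (hC i) (hC j) h1
      positivity
  have hNU : T N U A = 0 := by
    rw [hU, hr.tri.prod2]
    refine Finset.sum_eq_zero fun i _ => ?_
    rw [hr.tri.pow2, hr.tri.s23, hNC, mul_zero]
  exact fin_end h hr hA hNN hv hEU hUA hUU hNU

end Pool.Agent.H24.VP
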