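import Pool.Agent.H24.VP.Ram

/-!
# [H24 VP Low] THEOREM V+ (MP_e49dc9_ag): the lower bound on the threefold, without Kodaira's theorem

`e W := h0 (ψ W) 1 - chS W`, `eY W := h0 W 1 - chi W`.  `Sf.le` and `RR.chi_sub`: `eY (W H) ≤ eY W + e (W H)`.
`low_of`: let `M n = H * M' n`, `M n` nef and big on the generic surface, `0 < h0 (ψ (M' n)) 1` for `n ≥ n₀`.  `ram`: `e (H ^ i * M n) ≤ e (H ^ (i + 1))` for `i ≥ 1`,
`n ≥ n₀`; the right side is `0` for `i ≥ i₀` (`sf_ev` with `W := 1`, `D := H`).  `C := ∑ i < i₀, |e (H ^ (i + 1))|`.  `eY (M n) ≥ eY (M n * H ^ j) - ∑ 1 ≤ i ≤ j, e (H ^ i * M n) ≥ - C`,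
where `eY (M n * H ^ j) = 0` for large `j` (`RR.ev`).
`low`: `M n := H ^ 3 * N ^ n` is ample (`cv_pos`), `M' n := H ^ 2 * N ^ n`: `T(M',H,H) = 2 T(H,H,H) + n T(N,H,H) > T(H,H,H)` (`crv_num`), `t4`: `h0 (ψ M') ≥ chS M' = const +
(3/2) n T(N,H,H)`, positive for `n ≥ n₀`; `T(M,M,H) = 9 T(H,H,H) + 6 n T(N,H,H)`.
`low2`: `0 < T(N,N,H)`: `M n := N ^ n`, `M' n := N ^ n * H⁻¹`: `T(M',H,H) = n T(N,H,H) - T(H,H,H)`, where `0 < T(N,H,H)` (`0 ≤ T(N,H,H)`: `0 ≤ dg (φ N)` in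
`crv_num`; if it is `0` then `hdg` is violated), `chS M' = n ^ 2 T(N,N,H) / 2 + O(n)`.  `hM`: `0 < T(H N ^ n,E,H)` for all `n` (`cv_pos`), so `0 ≤ T(N,E,H)`.
(Proof of the descent by helper9.)
-/

set_option autoImplicit false

namespace Pool.Agent.H24.VP

open Pool.Agent.H54.RV Pool.Agent.H83.TU Pool.Agent.H83.TK Pool.Agent.H24.TK Pool.Agent.H41.TK

variable {k K : Type} [Field k] [Field K] [Algebra k K] {X : Mod k K}
  {T : Cart X → Cart X → Cart X → ℝ} {l : Cart X → ℝ} {c : ℝ} {H : Cart X} {k' L : Type} [Field k'] [Field L]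
  [Algebra k' L] {S : Mod k' L} {ψ : Cart X →* Cart S}

theorem low_of (hr : RR T l c) (hS : Sf H S ψ) (hi : ∀ A B C, ∃ z : ℤ, T A B C = z) (M M' : ℕ → Cart X) (n₀ : ℕ)
    (hM : ∀ n ≥ n₀, (∀ E, Cls S ψ E → 0 ≤ T (M n) E H) ∧ M n = H * M' n ∧ 0 < T (M n) H H ∧ 0 < T (M n) (M n) H ∧
      0 < h0 (ψ (M' n)) 1) :
    ∃ C : ℝ, ∀ n ≥ n₀, chi T l c (M n) - C ≤ h0 (M n) 1 := by
  classical
  -- the values on the surface
  obtain ⟨i₀, hi₀⟩ := sf_ev hr hS 1 H hS.hH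
  obtain ⟨g, hg⟩ : ∃ g : ℕ → ℝ, g = fun i => (h0 (ψ (H ^ (i + 1))) 1 : ℝ) - chS T l H (H ^ (i + 1)) :=
    ⟨_, rfl⟩
  have hg0 : ∀ i, i₀ ≤ i → g i = 0 := by
    intro i hi
    have h1 := hi₀ (i + 1) (by omega)
    rw [one_mul] at h1
    rw [hg]
    simp only
    rw [h1, sub_self]
  refine ⟨∑ i ∈ Finset.range i₀, |g (i + 1)|, fun n hn => ?_⟩
  obtain ⟨h1, h2, h3, h4, h5⟩ := hM n hn
  obtain ⟨Mn, hMn⟩ : ∃ Mn, Mn = M n := ⟨_, rfl⟩
  rw [← hMn] at h1 h2 h3 h4 ⊢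
  have hram : ∀ i, 1 ≤ i → (h0 (ψ (H ^ i * Mn)) 1 : ℝ) - chS T l H (H ^ i * Mn) ≤ g i := by
    intro i hi1
    rw [hg]
    exact ram hr hS hi h1 h2 h3 h4 h5 i hi1
  -- the descent
  have hstep : ∀ j : ℕ, (h0 (Mn * H ^ j) 1 : ℝ) - chi T l c (Mn * H ^ j) ≤
      (h0 Mn 1 : ℝ) - chi T l c Mn + ∑ i ∈ Finset.range j, |g (i + 1)| := by
    intro j
    induction j with
    | zero => rw [pow_zero, mul_one, Finset.range_zero, Finset.sum_empty, add_zero]
    | succ j ih =>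
      rw [Finset.sum_range_succ]
      have h1 : Mn * H ^ (j + 1) * H⁻¹ = Mn * H ^ j := by
        rw [pow_succ, ← mul_assoc, mul_inv_cancel_right]
      have h2 := hS.le (Mn * H ^ (j + 1))
      rw [h1] at h2
      have h3 := hr.chi_sub H (Mn * H ^ (j + 1))
      rw [h1] at h3
      have h4 := hram (j + 1) (by omega)
      rw [mul_comm (H ^ (j + 1)) Mn] at h4
      have h5 := le_abs_self (g (j + 1))
      have h6 : (h0 (Mn * H ^ (j + 1)) 1 : ℝ) ≤ h0 (Mn * H ^ j) 1 + h0 (ψ (Mn * H ^ (j + 1))) 1 := by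
        exact_mod_cast h2
      linarith
  obtain ⟨j₀, hj₀⟩ := hr.ev Mn H hS.hH
  obtain ⟨j, hj⟩ : ∃ j, j = max i₀ j₀ := ⟨_, rfl⟩
  have h1 := hj₀ j (by rw [hj]; exact le_max_right _ _)
  have h2 := hstep j
  rw [h1, sub_self] at h2
  have h3 : ∑ i ∈ Finset.range j, |g (i + 1)| = ∑ i ∈ Finset.range i₀, |g (i + 1)| := by
    symm
    refine Finset.sum_subset (Finset.range_subset_range.2 (by rw [hj]; exact le_max_left _ _))
      fun i _ hi => ?_
    rw [Finset.mem_range, not_lt] at hi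
    rw [hg0 (i + 1) (by omega), abs_zero]
  rw [h3] at h2
  linarith

private theorem nef_pow (hS : Sf H S ψ) {N : Cart X} (hN : ∀ A : Cart X, Ample A → Ample (A * N)) (i : ℕ)
    (hi : 1 ≤ i) (n : ℕ) : Ample (H ^ i * N ^ n) := by
  induction n with
  | zero =>
    rw [pow_zero, mul_one]
    exact ample_pow H i hi hS.hH
  | succ m ih =>
    rw [pow_succ N m, ← mul_assoc]
    exact hN _ ih

theorem low (hr : RR T l c) (hS : Sf H S ψ) (hi : ∀ A B C, ∃ z : ℤ, T A B C = z) (N : Cart X)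
    (hN : ∀ A : Cart X, Ample A → Ample (A * N)) (hNN : T N N H = 0) (hv : 0 < T N H H) :
    ∃ (C : ℝ) (n₀ : ℕ), ∀ n ≥ n₀, chi T l c (H ^ 3 * N ^ n) - C ≤ h0 (H ^ 3 * N ^ n) 1 := by
  classical
  have hH3 : 0 < T H H H := (crv_num hr hS).1
  -- the number of steps
  obtain ⟨n₀, hn₀⟩ := exists_nat_gt ((-(7 / 6 * T H H H + l H)) / (3 / 2 * T N H H))
  rw [div_lt_iff₀ (by positivity)] at hn₀
  obtain ⟨C, hC⟩ := low_of hr hS hi (fun n => H ^ 3 * N ^ n) (fun n => H ^ 2 * N ^ n) n₀ fun n hn => by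
    have hn1 : (n₀ : ℝ) ≤ n := by exact_mod_cast hn
    have hn2 : (0 : ℝ) ≤ n := Nat.cast_nonneg n
    refine ⟨fun E hE => (cv_pos hr hS hE (nef_pow hS hN 3 (by norm_num) n)).le, ?_, ?_, ?_, ?_⟩
    · rw [pow_succ' H 2, mul_assoc]
    · rw [hr.tri.add, hr.tri.pow, hr.tri.pow]
      push_cast
      positivity
    · simp only [hr.tri.add, hr.tri.add2, hr.tri.pow, hr.tri.pow2, hNN]
      rw [hr.tri.s12 H N H]
      push_cast
      have : 0 ≤ (n : ℝ) * T N H H := by positivity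
      nlinarith
    · have hM'1 : T H H H < T (H ^ 2 * N ^ n) H H := by
        rw [hr.tri.add, hr.tri.pow, hr.tri.pow]
        have : 0 ≤ (n : ℝ) * T N H H := by positivity
        push_cast
        linarith
      have hM'2 : chS T l H (H ^ 2 * N ^ n) = 7 / 6 * T H H H + l H + n * (3 / 2 * T N H H) := by
        unfold chS
        simp only [hr.tri.add, hr.tri.add2, hr.tri.pow, hr.tri.pow2, hNN]
        rw [hr.tri.s12 H N H]
        push_cast
        ring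
      have h1 := t4 hr hS _ hM'1
      rw [hM'2] at h1
      have h2 : (n₀ : ℝ) * (3 / 2 * T N H H) ≤ n * (3 / 2 * T N H H) :=
        mul_le_mul_of_nonneg_right hn1 (by positivity)
      have h3 : (0 : ℝ) < h0 (ψ (H ^ 2 * N ^ n)) 1 := by linarith
      exact_mod_cast h3
  exact ⟨C, n₀, hC⟩

/-- a linear function of `n` which is nonnegative for all `n` -/
private theorem lin_nn' {a b : ℝ} (h : ∀ n : ℕ, 0 ≤ a + n * b) : 0 ≤ b := by
  by_contra hb
  push Not at hb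
  obtain ⟨n, hn⟩ := exists_nat_gt (a / -b)
  rw [div_lt_iff₀ (by linarith)] at hn
  have := h n
  linarith

theorem low2 (hr : RR T l c) (hS : Sf H S ψ) (hi : ∀ A B C, ∃ z : ℤ, T A B C = z) (N : Cart X)
    (hN : ∀ A : Cart X, Ample A → Ample (A * N)) (hNN : 0 < T N N H) :
    ∃ (C : ℝ) (n₀ : ℕ), ∀ n ≥ n₀, chi T l c (N ^ n) - C ≤ h0 (N ^ n) 1 := by
  classical
  have hH3 : 0 < T H H H := (crv_num hr hS).1
  have hv : 0 < T N H H := by
    have h0 : 0 ≤ T N H H := by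
      obtain ⟨-, m, k₂, K₂, i1, i2, i3, i4, C, φ, hm, hC, hφ, -, hdg, -⟩ := crv_num hr hS
      have hm0 : (0 : ℝ) < m := by exact_mod_cast hm
      refine lin_nn' (a := T H H H) fun n => ?_
      have h1 := dg_ample hC _ (hφ _ (nef_pow hS hN 1 le_rfl n))
      have h2 := hdg (H ^ 1 * N ^ n)
      have h3 : (0 : ℝ) < dg (φ (H ^ 1 * N ^ n)) := by exact_mod_cast h1
      rw [h2, pow_one, hr.tri.add, hr.tri.pow] at h3
      exact ((mul_pos_iff_of_pos_left hm0).1 h3).le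
    rcases h0.eq_or_lt with h1 | h1
    · exact absurd (hdg hr hS N h1.symm) (not_le.2 hNN)
    · exact h1
  -- the number of steps
  obtain ⟨a, ha⟩ : ∃ a, a = T N N H := ⟨_, rfl⟩
  obtain ⟨v, hvd⟩ : ∃ v, v = T N H H := ⟨_, rfl⟩
  obtain ⟨u, hu⟩ : ∃ u, u = T H H H := ⟨_, rfl⟩
  rw [← ha] at hNN
  rw [← hvd] at hv
  rw [← hu] at hH3
  obtain ⟨n₀, hn₀⟩ := exists_nat_gt (max (2 * u / v) (max 1 ((3 / 2 * v + |7 / 6 * u + l H|) / (a / 2))))
  have hb1 : 2 * u / v < n₀ := lt_of_le_of_lt (le_max_left _ _) hn₀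
  have hb2 : (1 : ℝ) < n₀ := lt_of_le_of_lt ((le_max_left _ _).trans (le_max_right _ _)) hn₀
  have hb3 : (3 / 2 * v + |7 / 6 * u + l H|) / (a / 2) < n₀ :=
    lt_of_le_of_lt ((le_max_right _ _).trans (le_max_right _ _)) hn₀
  rw [div_lt_iff₀ hv] at hb1
  rw [div_lt_iff₀ (by positivity)] at hb3
  obtain ⟨C, hC⟩ := low_of hr hS hi (fun n => N ^ n) (fun n => N ^ n * H⁻¹) n₀ fun n hn => by
    have hn1 : (n₀ : ℝ) ≤ n := by exact_mod_cast hn
    have hn2 : (1 : ℝ) < n := by linarith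
    have hn0 : (0 : ℝ) < n := by linarith
    refine ⟨fun E hE => ?_, ?_, ?_, ?_, ?_⟩
    · have h1 : 0 ≤ T N E H := by
        refine lin_nn' (a := T H E H) fun m => ?_
        have h2 := cv_pos hr hS hE (nef_pow hS hN 1 le_rfl m)
        rw [pow_one, hr.tri.add, hr.tri.pow] at h2
        exact h2.le
      rw [hr.tri.pow]
      positivity
    · rw [mul_comm, inv_mul_cancel_right]
    · rw [hr.tri.pow, ← hvd]
      positivity
    · rw [hr.tri.pow, hr.tri.pow2, ← ha]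
      positivity
    · have e1 : T (N ^ n * H⁻¹) H H = n * v - u := by
        rw [hr.tri.add, hr.tri.pow, hr.tri.inv, ← hvd, ← hu]
        ring
      have hM'1 : T H H H < T (N ^ n * H⁻¹) H H := by
        rw [e1, ← hu]
        have : (n₀ : ℝ) * v ≤ n * v := mul_le_mul_of_nonneg_right hn1 hv.le
        linarith
      have hM'2 : chS T l H (N ^ n * H⁻¹) = (n : ℝ) ^ 2 * (a / 2) - n * (3 / 2 * v) + (7 / 6 * u + l H) := by
        unfold chS
        rw [e1]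
        simp only [hr.tri.add, hr.tri.add2, hr.tri.pow, hr.tri.pow2, hr.tri.inv, hr.tri.inv2]
        rw [hr.tri.s12 H N H, ← ha, ← hvd, ← hu]
        ring
      have h1 := t4 hr hS _ hM'1
      rw [hM'2] at h1
      have h2 := neg_abs_le (7 / 6 * u + l H)
      have h4 := abs_nonneg (7 / 6 * u + l H)
      have h5 : (n₀ : ℝ) * (a / 2) ≤ n * (a / 2) := mul_le_mul_of_nonneg_right hn1 (by positivity)
      have h6 : (n : ℝ) * (3 / 2 * v + |7 / 6 * u + l H|) < n * (n * (a / 2)) :=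
        mul_lt_mul_of_pos_left (by linarith) hn0
      have h7 : |7 / 6 * u + l H| ≤ n * |7 / 6 * u + l H| := le_mul_of_one_le_left h4 hn2.le
      have h3 : (0 : ℝ) < h0 (ψ (N ^ n * H⁻¹)) 1 := by nlinarith
      exact_mod_cast h3
  exact ⟨C, n₀, hC⟩

end Pool.Agent.H24.VP
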