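import Pool.Agent.H24.VP.Hda2

/-!
# [H24 VP Prs] THEOREM V+ (MP_e49dc9_ag): from one ample divisor to all pairs of divisors

`B` ample, `n` large, `A ^ n * B⁻¹` and `B ^ n * A⁻¹` ample.  (1) `T(N,B,B) > 0` and `T(N,A,B) > 0`: `nn_amp` for `(N, B, B ^ n A⁻¹)`, `(N, A, B ^ n A⁻¹)`.
(2) `T(M,N,B) = 0`: `T(M,N,A) = r T(N,N,A) = 0`, `nn_eff` for `(N, A ^ n B⁻¹, M)` and `(N, B, M)`.  (3) `T(M,M,B) ≤ 0`: otherwise `hdg_L` (`H := B`, `L := M`,
`E := N ^ t * B`) for large `t`.  (4) `T(M,M,A) = 0`, (3) for `A ^ n B⁻¹`: `T(M,M,B) = 0`.  (5) `E := M ^ x * N ^ (-y)`, `x = T(N,B,B)`, `y = T(M,B,B)`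
(integers, `t_int`): `T(E,B,B) = 0 = T(E,E,B)`, `hdg_eq`: `T(N,B,B) T(M,G,B) = T(M,B,B) T(N,G,B)` for all `G`; `G = A`, `T(M,A,B) = T(M,B,A) = r T(N,B,A)`:
`T(M,B,B) = r T(N,B,B)`, so `T(M,G,B) = r T(N,G,B)`.  (6) every divisor is a difference of ample ones.
-/

set_option autoImplicit false

namespace Pool.Agent.H24.VP

open Pool.Agent.H54.RV Pool.Agent.H83.TU Pool.Agent.H83.TK Pool.Agent.H24.TK

variable {k K : Type} [Field k] [Field K] [Algebra k K] {X : Mod k K}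
  {T : Cart X → Cart X → Cart X → ℝ} {l : Cart X → ℝ} {c : ℝ}

private theorem diff_amp (h : Hyp X) (G : Cart X) : ∃ A B : Cart X, Ample A ∧ Ample B ∧ G = A * B⁻¹ := by
  obtain ⟨H, hH⟩ := h.amp
  obtain ⟨m, hm, hA⟩ := ample_add h.var H G hH
  refine ⟨H ^ m * G, H ^ m, hA, ample_pow H m hm hH, ?_⟩
  rw [mul_comm (H ^ m) G, mul_inv_cancel_right]

/-- (1): positivity of `N` on all pairs -/
private theorem step1 [CharZero k] [T0Space X.P] (h : Hyp X) (hr : RR T l c) {A N B : Cart X}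
    (hA : Ample A) (hB : Ample B) (hN : Nf N) (hv : 0 < T N A A) : 0 < T N B B ∧ 0 < T N A B := by
  obtain ⟨n, hn, hQ⟩ := ample_add h.var B A⁻¹ hB
  have hn0 : (0 : ℝ) < n := by exact_mod_cast hn
  have h1 := nn_amp h hr hN hA hQ
  have h2 := nn_amp h hr hN hB hQ
  rw [hr.tri.add3, hr.tri.pow3, hr.tri.inv3] at h1 h2
  have h3 : T N B A = T N A B := hr.tri.s23 _ _ _
  have h4 : 0 < T N A B := by
    by_contra h5
    push Not at h5
    nlinarith
  refine ⟨?_, h4⟩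
  by_contra h5
  push Not at h5
  rw [h3] at h2
  nlinarith

/-- (2) -/
private theorem step2 [CharZero k] [T0Space X.P] (h : Hyp X) (hr : RR T l c) {A N M B : Cart X}
    (hA : Ample A) (hB : Ample B) (hN : Nf N) (hM : Effective M) (hMN : T M N A = 0) : T M N B = 0 := by
  obtain ⟨n, hn, hP⟩ := ample_add h.var A B⁻¹ hA
  have h1 := nn_eff h hr hN hP hM
  have h2 := nn_eff h hr hN hB hM
  rw [hr.tri.add2, hr.tri.pow2, hr.tri.inv2] at h1
  have h3 : T N A M = 0 := by rw [hr.tri.s23, hr.tri.s12, hMN]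
  have h4 : T N B M = T M N B := by rw [hr.tri.s23, hr.tri.s12]
  rw [h3, mul_zero] at h1
  rw [h4] at h1 h2
  linarith

/-- (3) -/
private theorem step3 [CharZero k] [T0Space X.P] (h : Hyp X) (hr : RR T l c) {N M B : Cart X}
    (hB : Ample B) (hNN : ∀ G, T N N G = 0) (hNB : 0 < T N B B) (hMN : T M N B = 0) : T M M B ≤ 0 := by
  by_contra hcon
  push Not at hcon
  have hB3 := pos_amp h hr hB hB hB
  obtain ⟨t, ht⟩ := exists_nat_gt (T M B B ^ 2 / (T M M B * T N B B))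
  rw [div_lt_iff₀ (mul_pos hcon hNB)] at ht
  have h1 := hdg_L hr.tri (t_int hr h.amp) hB3 (fun E hE => hdg_amp h hr hB E hE) M (N ^ t * B) hcon
  have e1 : T (N ^ t * B) (N ^ t * B) B = 2 * t * T N B B + T B B B := by
    simp only [hr.tri.add, hr.tri.add2, hr.tri.pow, hr.tri.pow2, hNN]
    rw [hr.tri.s12 B N B]
    ring
  have e2 : T M (N ^ t * B) B = T M B B := by
    rw [hr.tri.add2, hr.tri.pow2, hMN]
    ring
  rw [e1, e2] at h1
  have h2 : 0 < T M M B * T B B B := mul_pos hcon hB3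
  have h3 : 0 ≤ T M B B ^ 2 := sq_nonneg _
  nlinarith

/-- (5) -/
private theorem step5 [CharZero k] [T0Space X.P] (h : Hyp X) (hr : RR T l c) {A N M B : Cart X} {r : ℕ}
    (hB : Ample B) (hNN : ∀ G, T N N G = 0) (hNB : 0 < T N B B) (hNA : 0 < T N A B)
    (hMN : T M N B = 0) (hMM : T M M B = 0) (hMA : T M A B = r * T N A B) (G : Cart X) :
    T M G B = r * T N G B := by
  have hB3 := pos_amp h hr hB hB hB
  obtain ⟨x, hx⟩ := t_int hr h.amp N B B
  obtain ⟨y, hy⟩ := t_int hr h.amp M B B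
  have hNM : T N M B = 0 := by rw [hr.tri.s12, hMN]
  have key : ∀ G', T (M ^ x * N ^ (-y)) G' B = 0 := by
    intro G'
    refine hdg_eq hr.tri (t_int hr h.amp) hB3 (fun E hE => hdg_amp h hr hB E hE) B
      (M ^ x * N ^ (-y)) G' hB3 ?_ ?_
    · rw [hr.tri.add2, hr.tri.zpow2, hr.tri.zpow2, hr.tri.s12 B M, hr.tri.s12 B N, hx, hy]
      push_cast
      ring
    · simp only [hr.tri.add, hr.tri.add2, hr.tri.zpow, hr.tri.zpow2, hMM, hMN, hNM, hNN]
      ring
  have h1 : ∀ G', T N B B * T M G' B = T M B B * T N G' B := by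
    intro G'
    have h2 := key G'
    rw [hr.tri.add, hr.tri.zpow, hr.tri.zpow] at h2
    rw [hx, hy]
    push_cast at h2
    linarith
  have h2 := h1 A
  rw [hMA] at h2
  have h3 : T M B B = r * T N B B := by
    have h4 : T N A B * (T M B B - r * T N B B) = 0 := by linarith
    rcases mul_eq_zero.1 h4 with h5 | h5
    · exact absurd h5 hNA.ne'
    · linarith
  have h4 := h1 G
  rw [h3] at h4
  have h5 : T N B B * (T M G B - r * T N G B) = 0 := by linarith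
  rcases mul_eq_zero.1 h5 with h6 | h6
  · exact absurd h6 hNB.ne'
  · linarith

theorem all_pairs [CharZero k] [T0Space X.P] (h : Hyp X) (hr : RR T l c) {A N M : Cart X} {r : ℕ} (hr1 : 1 ≤ r)
    (hA : Ample A) (hN : Nf N) (hNN : ∀ G, T N N G = 0) (hv : 0 < T N A A) (hM : Effective M)
    (hMN : ∀ G, T M G A = r * T N G A) (G G' : Cart X) : T M G G' = r * T N G G' := by
  have hMNA : T M N A = 0 := by rw [hMN, hNN, mul_zero]
  have hMMA : T M M A = 0 := by rw [hMN, hr.tri.s12, hMNA, mul_zero]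
  have h3 : ∀ B : Cart X, Ample B → T M M B ≤ 0 := fun B hB =>
    step3 h hr hB hNN (step1 h hr hA hB hN hv).1 (step2 h hr hA hB hN hM hMNA)
  have h4 : ∀ B : Cart X, Ample B → T M M B = 0 := by
    intro B hB
    obtain ⟨n, hn, hP⟩ := ample_add h.var A B⁻¹ hA
    have h5 := h3 _ hP
    rw [hr.tri.add3, hr.tri.pow3, hr.tri.inv3, hMMA, mul_zero] at h5
    have h6 := h3 B hB
    linarith
  have h5 : ∀ B : Cart X, Ample B → T M G B = r * T N G B := by
    intro B hB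
    obtain ⟨h6, h7⟩ := step1 h hr hA hB hN hv
    have h8 : T M A B = r * T N A B := by
      rw [hr.tri.s23, hMN, hr.tri.s23 N B A]
    exact step5 h hr hB hNN h6 h7 (step2 h hr hA hB hN hM hMNA) (h4 B hB) h8 G
  obtain ⟨B₁, B₂, hB₁, hB₂, hB⟩ := diff_amp h G'
  rw [hB, hr.tri.add3, hr.tri.add3, hr.tri.inv3, hr.tri.inv3, h5 B₁ hB₁, h5 B₂ hB₂]
  ring

end Pool.Agent.H24.VP
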