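import Pool.Agent.H24.VP.Pos
import Pool.Agent.H24.TV.FinV

/-!
# [H24 VP Wgt] THEOREM V+ (MP_e49dc9_ag): the weight

`y D` := the integer `T(N,A,D)` (`t_int`).  `num`: `numz_T`; `eff`: `nn_eff`; `pos`: `pdiv_spr h P`: `C` with `SPr X P.η C`, `0 < T(N,A,C)` as `P.η` is not in the
set (`nn_prm`), `E * C⁻¹` is effective (as in `split_prime`, `H32/TK/HC.lean`).
-/

set_option autoImplicit false

namespace Pool.Agent.H24.VP

open Pool.Agent.H54.RV Pool.Agent.H83.TU Pool.Agent.H83.TK Pool.Agent.H24.TK Pool.Agent.H24.TV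

variable {k K : Type} [Field k] [Field K] [Algebra k K] {X : Mod k K}
  {T : Cart X → Cart X → Cart X → ℝ} {l : Cart X → ℝ} {c : ℝ}

theorem exists_wt [CharZero k] [T0Space X.P] (h : Hyp X) (hr : RR T l c) {A N : Cart X} (hA : Ample A) (hN : Nf N)
    (hf : {η : X.P | ∃ P : PDiv X, P.η = η ∧ ∃ C : Cart X, SPr X P.η C ∧ T N A C = 0}.Finite) :
    ∃ (y : Cart X → ℤ) (Z : Set X.P), Wt y Z ∧ ∀ D, (y D : ℝ) = T N A D := by
  choose y hy using fun D => t_int hr ⟨A, hA⟩ N A D
  refine ⟨y, {η : X.P | ∃ P : PDiv X, P.η = η ∧ ∃ C : Cart X, SPr X P.η C ∧ T N A C = 0},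
    ⟨fun D E => ?_, fun D hD => ?_, fun D hD => ?_, hf, fun P hP E hE hun => ?_⟩, fun D => (hy D).symm⟩
  · have h1 := hr.tri.add3 D E N A
    rw [hy, hy, hy] at h1
    exact_mod_cast h1
  · have h1 : T N A D = 0 := by
      rw [hr.tri.s23, hr.tri.s12]
      exact numz_T h hr hD N A
    rw [hy] at h1
    exact_mod_cast h1
  · have h1 := nn_eff h hr hN hA hD
    rw [hy] at h1
    exact_mod_cast h1
  · obtain ⟨C, hC⟩ := pdiv_spr h P
    have h1 : T N A C ≠ 0 := fun h0 => hP ⟨P, rfl, C, hC, h0⟩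
    have h2 : 0 < T N A C := by
      refine lt_of_le_of_ne ?_ h1.symm
      exact nn_prm h hr hN hA P hC
    have h3 : Effective (E * C⁻¹) := by
      intro x
      rw [mul_eq, inv_eq, ← div_eq_mul_inv, hC.mem_iff h.var x (hE x)]
      intro hx h1
      apply hun
      have h2 := quo_un E P.η x hx
      have h3 : E.eq P.η = E.eq x * (E.eq x / E.eq P.η)⁻¹ := by
        have := E.ne x
        have := E.ne P.η
        field_simp
      rw [h3]
      exact un_mul h1 (un_inv h2)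
    have h4 := nn_eff h hr hN hA h3
    rw [hr.tri.add3, hr.tri.inv3] at h4
    have h5 : 0 < T N A E := by linarith
    rw [hy] at h5
    exact_mod_cast h5

end Pool.Agent.H24.VP
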