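import Pool.Agent.H24.VP.Fin
import Pool.Agent.H24.VP.Nef
import Pool.Agent.H24.VP.Prs
import Pool.Agent.H24.VP.Low
import Pool.Agent.H24.VP.Wgt

/-!
# THEOREM V+ (MP_e49dc9_ag): nef divisors of numerical dimension one on threefolds with numerically trivial canonical class

`RR T l c`: the Hilbert polynomial is `T(W,W,W)/6 + l(W) + c`.  `N` nef, `N ^ 2` numerically trivial, `l(N) > 0`: `N` is numerically a
rational multiple of an effective divisor, or the nef dimension of `N` is at most `2`.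
-/

set_option autoImplicit false

namespace Pool.Agent.H24.VP

open Pool.Agent.H54.RV Pool.Agent.H83.TU Pool.Agent.H83.TK Pool.Agent.H24.TK Pool.Agent.H24.TV Pool.Agent.H24.TU
  Pool.Agent.H39.TU

variable {k K : Type} [Field k] [Field K] [Algebra k K] {X : Mod k K}
  {T : Cart X → Cart X → Cart X → ℝ} {l : Cart X → ℝ} {c : ℝ}

/-- the case `N ^ 2 ≠ 0`: the multiples `n N` are effective for large `n` -/
theorem eff_big [CharZero k] [T0Space X.P] {H : Cart X} {k' L : Type} [Field k'] [Field L]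
    [Algebra k' L] {S : Mod k' L} {ψ : Cart X →* Cart S} (h : Hyp X) (hr : RR T l c) (hS : Sf H S ψ)
    (hi : ∀ A B C, ∃ z : ℤ, T A B C = z) {N : Cart X} (hN : Nf N) (hN0 : 0 < T N N H) (hl : 0 < l N) :
    ∃ (r : ℕ) (M : Cart X), 1 ≤ r ∧ Effective M ∧ ∀ G G', T M G G' = r * T N G G' := by
  obtain ⟨C, n₀, hlow⟩ := low2 hr hS hi N hN hN0
  obtain ⟨n, hn⟩ := exists_nat_gt (max (max (n₀ : ℝ) 1) ((C - c) / l N))
  have hn1 : (n₀ : ℝ) < n := lt_of_le_of_lt ((le_max_left _ _).trans (le_max_left _ _)) hn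
  have hn2 : (1 : ℝ) < n := lt_of_le_of_lt ((le_max_right _ _).trans (le_max_left _ _)) hn
  have hn3 : C - c < n * l N := by
    have := lt_of_le_of_lt (le_max_right _ _) hn
    rwa [div_lt_iff₀ hl] at this
  have h1 := hlow n (by exact_mod_cast hn1.le)
  have h2 := nn_NN h hr hN
  have h3 : chi T l c (N ^ n) = (n : ℝ) ^ 3 * T N N N / 6 + n * l N + c := by
    unfold chi
    rw [hr.tri.pow, hr.tri.pow2, hr.tri.pow3, hr.l_pow]
    ring
  have h4 : 0 ≤ (n : ℝ) ^ 3 * T N N N / 6 := by positivity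
  have h5 : 0 < h0 (N ^ n) 1 := by
    have : (0 : ℝ) < h0 (N ^ n) 1 := by linarith
    exact_mod_cast this
  have h6 : ∃ s : secL (N ^ n) 1, s ≠ 0 := by
    by_contra h7
    push Not at h7
    have h8 : Subsingleton (secL (N ^ n) 1) := ⟨fun a b => by rw [h7 a, h7 b]⟩
    unfold h0 at h5
    rw [Module.finrank_zero_of_subsingleton] at h5
    exact lt_irrefl _ h5
  obtain ⟨s, hs⟩ := h6
  have hs0 : (s : K) ≠ 0 := fun h7 => hs (Subtype.ext h7)
  refine ⟨n, N ^ n * prin X (s : K) hs0, by exact_mod_cast hn2.le, fun x => ?_, fun G G' => ?_⟩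
  · have h7 := s.2 x
    rw [pow_one, mul_comm] at h7
    rw [mul_eq]
    exact h7
  · rw [hr.tri.add, hr.tri.pow, numz_T h hr (numz_prin _ hs0), add_zero]

/-- **Theorem V+** -/
theorem theoremVp [IsAlgClosed k] [CharZero k] [T0Space X.P] (h : Hyp X) (hsm : ∀ x, SmP X x) (hr : RR T l c) {ρ : ℕ}
    (ν : Cart X →* Multiplicative (Fin ρ → ℤ)) (hν : ∀ D, ν D = 1 → NumZ D) (N : Cart X) (hN : Nf N)
    (hl : 0 < l N) :
    (∃ (r : ℕ) (M : Cart X), 1 ≤ r ∧ Effective M ∧ ∀ G G', T M G G' = r * T N G G') ∨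
    ∃ F : IntermediateField k K, Algebra.trdeg F K = 1 ∧ RF h.var h.gen F N = 0 ∧
      ∃ M : Cart X, Effective M ∧ ¬ Effective M⁻¹ ∧ RF h.var h.gen F M = 0 := by
  obtain ⟨A, hA⟩ := h.amp
  obtain ⟨m, k', L, i1, i2, i3, S, ψ, hm, hS⟩ := exists_sf h hA
  obtain ⟨H, hHd⟩ : ∃ H, H = A ^ m := ⟨_, rfl⟩
  rw [← hHd] at hS
  have hH := hS.hH
  have hi : ∀ A B C, ∃ z : ℤ, T A B C = z := t_int hr h.amp
  rcases (nn_NC h hr hN hH).eq_or_lt with hN0 | hN0
  swap
  · left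
    exact eff_big h hr hS hi hN hN0 hl
  have hNN := all_NN h hr hN hH hN0.symm
  have hnn := nn_amp h hr hN hH hH
  rcases hnn.eq_or_lt with hv | hv
  · left
    refine ⟨1, 1, le_rfl, fun x => ?_, fun G G' => ?_⟩
    · exact (X.O x).one_mem
    · rw [hr.tri.one, zero_pairs h hr hH hN hNN hv.symm, mul_zero]
  rcases fin_prm h hr ν hν hH hN hNN hv with hf | ⟨r, M, hr1, hM, hMN⟩
  swap
  · left
    exact ⟨r, M, hr1, hM, all_pairs h hr hr1 hH hN hNN hv hM hMN⟩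
  right
  obtain ⟨y, Z, hy, hyT⟩ := exists_wt h hr hH hN hf
  have hyN : y N = 0 := by
    have h1 := hyT N
    rw [hr.tri.s23, hNN] at h1
    exact_mod_cast h1
  have hH3 : Ample (H ^ 3) := ample_pow H 3 (by norm_num) hH
  obtain ⟨C, n₀, hlow⟩ := low hr hS hi N hN (hNN H) hv
  -- the polynomial
  obtain ⟨a, ha⟩ : ∃ a, a = T H H H := ⟨_, rfl⟩
  obtain ⟨v, hvd⟩ : ∃ v, v = T N H H := ⟨_, rfl⟩
  have ha0 : 0 < a := by
    rw [ha]
    exact pos_amp h hr hH hH hH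
  rw [← hvd] at hv
  have hTn : ∀ n : ℕ, T (H ^ 3 * N ^ n) (H ^ 3 * N ^ n) (H ^ 3 * N ^ n) = 27 * a + 27 * n * v := by
    intro n
    have e1 : T H N H = v := by rw [hvd, hr.tri.s12]
    have e2 : T H H N = v := by rw [hr.tri.s23, e1]
    have e3 : T N H N = 0 := by rw [hr.tri.s23, hNN]
    have e4 : T H N N = 0 := by rw [hr.tri.s12, e3]
    simp only [hr.tri.add, hr.tri.add2, hr.tri.add3, hr.tri.pow, hr.tri.pow2, hr.tri.pow3, hNN, e1, e2, e3, e4, ← ha,
      ← hvd]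
    push_cast
    ring
  have hln : ∀ n : ℕ, l (H ^ 3 * N ^ n) = 3 * l H + n * l N := by
    intro n
    rw [hr.ladd, hr.l_pow, hr.l_pow]
    push_cast
    ring
  obtain ⟨th, hth⟩ : ∃ th, th = l N / (9 * v) := ⟨_, rfl⟩
  have hth0 : 0 < th := by
    rw [hth]
    positivity
  have hthv : th * (9 / 2 * v) = l N / 2 := by
    rw [hth]
    field_simp
  obtain ⟨Q, hQ⟩ : ∃ Q, Q = |3 * l H + c - C| + th * (9 / 2 * a) + |9 / 2 * a| := ⟨_, rfl⟩
  refine theoremV h hsm hy (H ^ 3) N (nf_pow hH3 hN) hyN th hth0 fun B => ?_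
  obtain ⟨n, hn⟩ := exists_nat_gt (max (n₀ : ℝ) (max (B : ℝ) ((B + Q) / (l N / 2))))
  have hn1 : (n₀ : ℝ) < n := lt_of_le_of_lt (le_max_left _ _) hn
  have hn2 : (B : ℝ) < n := lt_of_le_of_lt ((le_max_left _ _).trans (le_max_right _ _)) hn
  have hn3 : B + Q < n * (l N / 2) := by
    have := lt_of_le_of_lt ((le_max_right _ _).trans (le_max_right _ _)) hn
    rwa [div_lt_iff₀ (by positivity)] at this
  have h1 := hlow n (by exact_mod_cast hn1.le)
  have h2 : chi T l c (H ^ 3 * N ^ n) = 9 / 2 * a + 9 / 2 * n * v + (3 * l H + n * l N) + c := by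
    unfold chi
    rw [hTn, hln]
    ring
  have h3 : vol (H ^ 3 * N ^ n) = 9 / 2 * a + 9 / 2 * n * v := by
    rw [vol_eq hr (nf_pow hH3 hN n), hTn]
    ring
  rw [h2] at h1
  have a1 := neg_abs_le (3 * l H + c - C)
  have hn0 : (0 : ℝ) ≤ n := Nat.cast_nonneg n
  have hB0 : (0 : ℝ) ≤ B := Nat.cast_nonneg B
  have a2 : 0 ≤ |9 / 2 * a| := abs_nonneg _
  have a3 : 0 ≤ th * (9 / 2 * a) := by positivity
  have a4 : (0 : ℝ) ≤ 9 / 2 * n * v := by positivity
  refine ⟨n, by exact_mod_cast hn2.le, ?_, ?_⟩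
  · have h4 : (B : ℝ) < h0 (H ^ 3 * N ^ n) 1 := by
      nlinarith
    exact_mod_cast h4
  · rw [h3]
    have h5 : (1 + th) * (9 / 2 * a + 9 / 2 * n * v) =
        9 / 2 * a + 9 / 2 * n * v + th * (9 / 2 * a) + n * (th * (9 / 2 * v)) := by ring
    rw [h5, hthv]
    nlinarith

end Pool.Agent.H24.VP
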