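import Pool.Agent.H24.VP.Dec
import Pool.Agent.H24.VP.Hdg
import Pool.Agent.H24.VP.HdA

/-!
# [H24 VP Ram] THEOREM V+ (MP_e49dc9_ag): numerical connectedness (Ramanujam), the upper bound on the generic surface

`b(U,V) := T U V H`.  `dec` for `M'`: `E : Fin r → Cart X`, `LEq (ψ M') (ψ (∏ E))`; for `s : Finset (Fin r)` let `Z s := H * ∏ i ∈ s, E i`.
`M` is nef (`0 ≤ b(M,E)` for all classes `E` of curves) and big (`0 < b(M,M)`) on the generic surface.
`ram_con`: for `s ≠ univ` some `i ∉ s` has `0 < b(Z s, E i)`.  PROOF.  `R := ∏ i ∉ s, E i`; `b(M,V) = b(Z s,V) + b(R,V)` (`le_num`, `M = H M'`), for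
`V = M`, `Z s`, `R`.  `b(M,H) > 0`, `b(M,E i) ≥ 0`, so `b(M,Z s) > 0`, `b(M,R) ≥ 0`, `b(M,M) = b(M,Z s) + b(M,R)`.  Suppose `b(Z s,R) ≤ 0`.  Then `b(Z s,Z s) =
b(M,Z s) - b(Z s,R) ≥ b(M,Z s)`, `hdg_L`: `b(M,M) b(Z s,Z s) ≤ b(M,Z s) ^ 2`, so `b(M,M) ≤ b(M,Z s)`, `b(M,R) = 0`, `b(M,Z s) = b(M,M)`, `b(Z s,Z s) = b(M,M)`,
`b(Z s,R) = 0`, `b(R,R) = 0`; `hdg_eq` (`L := M`, `E := R`, `G := H`): `b(R,H) = 0`: false by `cv_pos` (`W := H`), as `R` is not empty.  So `0 < b(Z s,R) =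
∑ i ∉ s, b(Z s,E i)`.
`ram`: for every `s ≠ univ` there is an `i ∉ s` with `e(H ^ i₀ Z (insert i s)) ≤ e(H ^ i₀ Z s)`, where `e W := h0 (ψ W) - chS W` and `1 ≤ i₀`: `cv_shp` with
`W = H ^ i₀ * Z s * E i`: `b(W,E i) = i₀ b(H,E i) + b(Z s,E i) + b(E i,E i) > b(H,E i) + b(E i,E i)`.  Induction on the cardinality: from `s = ∅`
(`H ^ i₀ * H`) to `univ`: `H ^ i₀ * H * ∏ E` and `H ^ i₀ * M` have the same `h0` (`LEq.h0`) and `chS` (`le_num`).
-/

set_option autoImplicit false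

namespace Pool.Agent.H24.VP

open Pool.Agent.H54.RV Pool.Agent.H83.TU Pool.Agent.H83.TK Pool.Agent.H24.TK Pool.Agent.H41.TK

variable {k K : Type} [Field k] [Field K] [Algebra k K] {X : Mod k K}
  {T : Cart X → Cart X → Cart X → ℝ} {l : Cart X → ℝ} {c : ℝ} {H : Cart X} {k' L : Type} [Field k'] [Field L]
  [Algebra k' L] {S : Mod k' L} {ψ : Cart X →* Cart S}

theorem ram_con (hr : RR T l c) (hS : Sf H S ψ) (hi : ∀ A B C, ∃ z : ℤ, T A B C = z) {M M' : Cart X}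
    (hM : ∀ E, Cls S ψ E → 0 ≤ T M E H) (hMM : M = H * M') (hMH : 0 < T M H H) (hM2 : 0 < T M M H) {r : ℕ}
    {E : Fin r → Cart X} (hE : ∀ i, Cls S ψ (E i)) (hL : LEq (ψ M') (ψ (∏ i, E i)))
    (s : Finset (Fin r)) (hs : s ≠ Finset.univ) : ∃ i ∉ s, 0 < T (H * ∏ j ∈ s, E j) (E i) H := by
  classical
  have ht := hr.tri
  by_contra hcon
  push Not at hcon
  have hnum := le_num hr hS hL
  obtain ⟨Z, hZ⟩ : ∃ Z : Cart X, Z = H * ∏ j ∈ s, E j := ⟨_, rfl⟩
  obtain ⟨R, hR⟩ : ∃ R : Cart X, R = ∏ j ∈ sᶜ, E j := ⟨_, rfl⟩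
  rw [← hZ] at hcon
  have hZR : Z * R = H * ∏ j, E j := by
    rw [hZ, hR, mul_assoc, Finset.prod_mul_prod_compl]
  have h1 : ∀ U, T M U H = T Z U H + T R U H := by
    intro U
    rw [← ht.add, hZR, ht.add, ← hnum, ← ht.add, ← hMM]
  have hME : ∀ j, 0 ≤ T M (E j) H := fun j => hM _ (hE j)
  have hMZ : 0 < T M Z H := by
    rw [hZ, ht.add2, ht.prod2]
    have h2 : 0 ≤ ∑ j ∈ s, T M (E j) H := Finset.sum_nonneg fun j _ => hME j
    linarith
  have hMR : 0 ≤ T M R H := by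
    rw [hR, ht.prod2]
    exact Finset.sum_nonneg fun j _ => hME j
  have hHR : 0 < T R H H := by
    rw [hR, ht.prod]
    refine Finset.sum_pos (fun j _ => ?_) ?_
    · have h4 := cv_pos hr hS (hE j) hS.hH
      rwa [ht.s12] at h4
    · rw [Finset.nonempty_iff_ne_empty]
      intro h2
      rw [Finset.compl_eq_empty_iff] at h2
      exact hs h2
  have hMM2 : T M M H = T M Z H + T M R H := by
    rw [h1 M, ht.s12 Z M H, ht.s12 R M H]
  have hZRn : T R Z H ≤ 0 := by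
    rw [ht.s12, hR, ht.prod2]
    exact Finset.sum_nonpos fun j hj => hcon j (Finset.mem_compl.1 hj)
  have hZZ := h1 Z
  have h2 := hdg_L ht hi (crv_num hr hS).1 (hdg hr hS) M Z hM2
  have h3 : T M Z H ≤ T Z Z H := by linarith
  have h4 : T M M H * T M Z H ≤ T M Z H * T M Z H := by
    calc T M M H * T M Z H ≤ T M M H * T Z Z H := mul_le_mul_of_nonneg_left h3 hM2.le
      _ ≤ T M Z H ^ 2 := h2
      _ = T M Z H * T M Z H := sq _
  have h5 : T M M H ≤ T M Z H := le_of_mul_le_mul_right h4 hMZ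
  have h6 : T M R H = 0 := by linarith
  have h7 : T M Z H = T M M H := by linarith
  have h8 : T Z Z H ≤ T M M H := by
    rw [h7, sq] at h2
    exact le_of_mul_le_mul_left h2 hM2
  have h9 : T R Z H = 0 := by linarith
  have h10 := h1 R
  rw [h6, ht.s12 Z R H, h9] at h10
  have h11 := hdg_eq ht hi (crv_num hr hS).1 (hdg hr hS) M R H hM2 h6 (by linarith)
  linarith

theorem ram (hr : RR T l c) (hS : Sf H S ψ) (hi : ∀ A B C, ∃ z : ℤ, T A B C = z) {M M' : Cart X}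
    (hM : ∀ E, Cls S ψ E → 0 ≤ T M E H) (hMM : M = H * M') (hMH : 0 < T M H H) (hM2 : 0 < T M M H)
    (hM' : 0 < h0 (ψ M') 1) (i : ℕ) (hi1 : 1 ≤ i) :
    (h0 (ψ (H ^ i * M)) 1 : ℝ) - chS T l H (H ^ i * M) ≤ h0 (ψ (H ^ (i + 1))) 1 - chS T l H (H ^ (i + 1)) := by
  classical
  have ht := hr.tri
  obtain ⟨r, E, hE, hL⟩ := dec hr hS M' hM'
  have step : ∀ (n : ℕ) (s : Finset (Fin r)), sᶜ.card = n →
      (h0 (ψ (H ^ i * (H * ∏ j, E j))) 1 : ℝ) - chS T l H (H ^ i * (H * ∏ j, E j)) ≤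
        h0 (ψ (H ^ i * (H * ∏ j ∈ s, E j))) 1 - chS T l H (H ^ i * (H * ∏ j ∈ s, E j)) := by
    intro n
    induction n with
    | zero =>
      intro s hs
      rw [Finset.card_eq_zero, Finset.compl_eq_empty_iff] at hs
      rw [hs]
    | succ n ih =>
      intro s hs
      have hs1 : s ≠ Finset.univ := by
        rintro rfl
        rw [Finset.compl_univ, Finset.card_empty] at hs
        omega
      obtain ⟨a, ha, h1⟩ := ram_con hr hS hi hM hMM hMH hM2 hE hL s hs1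
      have h2 := ih (insert a s) (by
        rw [Finset.compl_insert, Finset.card_erase_of_mem (Finset.mem_compl.2 ha), hs]
        rfl)
      rw [Finset.prod_insert ha] at h2
      refine h2.trans ?_
      have e : H ^ i * (H * (E a * ∏ j ∈ s, E j)) = H ^ i * (H * ∏ j ∈ s, E j) * E a := by
        rw [mul_comm (E a), ← mul_assoc H, ← mul_assoc (H ^ i)]
      rw [e]
      have h3 : 0 < T (E a) H H := by
        have h4 := cv_pos hr hS (hE a) hS.hH
        rwa [ht.s12] at h4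
      have h5 : T (H ^ i * (H * ∏ j ∈ s, E j) * E a) (E a) H =
          i * T (E a) H H + T (H * ∏ j ∈ s, E j) (E a) H + T (E a) (E a) H := by
        rw [ht.add, ht.add, ht.pow, ht.s12 H (E a) H]
      have h6 : T (E a) H H ≤ i * T (E a) H H := by
        have h7 : (1 : ℝ) ≤ i := by exact_mod_cast hi1
        nlinarith
      have h8 := cv_shp hr hS (hE a) (H ^ i * (H * ∏ j ∈ s, E j) * E a) (by
        rw [h5]
        linarith)
      rw [mul_inv_cancel_right] at h8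
      linarith
  have h1 := step _ ∅ rfl
  rw [Finset.prod_empty, mul_one, ← pow_succ] at h1
  have hLE : LEq (ψ (H ^ i * M)) (ψ (H ^ i * (H * ∏ j, E j))) := by
    rw [hMM, ← mul_assoc, ← mul_assoc, map_mul ψ (H ^ i * H), map_mul ψ (H ^ i * H)]
    exact (LEq.refl _).mul hL
  have h2 := hLE.h0 1
  have h3 := le_num hr hS hLE
  have h4 : chS T l H (H ^ i * M) = chS T l H (H ^ i * (H * ∏ j, E j)) := by
    unfold chS
    rw [h3 (H ^ i * M), h3 H, ht.s12 _ (H ^ i * M) H, h3]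
  rw [h2, h4]
  exact h1

end Pool.Agent.H24.VP
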