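import Pool.Agent.H24.VP.Ev
import Pool.Agent.H32.TK.Surf

/-!
# [H24 VP T4] THEOREM V+ (MP_e49dc9_ag): the lower bound for the number of sections on the generic surface

`t4`: `C`, `m`, `φ` from `crv_num`.  `h0 (ψ (W H ^ (m j))) ≤ h0 (ψ W) + chS (W H ^ (m j)) - chS W` by induction on `j`: the degree of
`W + (j + 1) m H` on `C` is `m T(W,H,H) + (j + 1) m ^ 2 T(H,H,H) > (m ^ 2 + m) T(H,H,H) = - 2 chi C`, so `h0 = dg + chi C` (`h0_eq`), and
`RR.chS_sub`.  For large `j`: `sf_ev`.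
`h0_nn`: if `T(W,H,H) < 0` then `h0 (φ (W (H ^ m)^(-j))) = 0` (`h0_neg`), so `0 < h0 (ψ W) ≤ h0 (ψ (W (H ^ (m j))⁻¹))` for all `j`; let
`f ≠ 0` be a section of the latter: multiplication by `f` (`mul_le` of `H32/TK/Surf.lean`) gives `h0 (ψ (H ^ (m j) W⁻¹)) ≤ h0 (1)`:
but the left side is unbounded (`sf_ev` with `W := W⁻¹`, `D := H ^ m`; `0 < T(H,H,H)`).
`mul_s`: multiplication by a section (`mul_le`; `fd`).
-/

set_option autoImplicit false

namespace Pool.Agent.H24.VP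

open Pool.Agent.H54.RV Pool.Agent.H83.TU Pool.Agent.H83.TK Pool.Agent.H24.TK Pool.Agent.H41.TK

variable {k K : Type} [Field k] [Field K] [Algebra k K] {X : Mod k K}
  {T : Cart X → Cart X → Cart X → ℝ} {l : Cart X → ℝ} {c : ℝ} {H : Cart X} {k' L : Type} [Field k'] [Field L]
  [Algebra k' L] {S : Mod k' L} {ψ : Cart X →* Cart S}

theorem mul_s (hS : Sf H S ψ) (W D : Cart X) (hD : 0 < h0 (ψ D) 1) : h0 (ψ W) 1 ≤ h0 (ψ (W * D)) 1 := by
  have := hS.char
  have hf : Module.Finite k' (secL (ψ W * ψ D) 1) := fd hS.var hS.gen (hS.amp H hS.hH) _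
  rw [map_mul]
  exact Pool.Agent.H32.TK.mul_le (ψ D) (ψ W) hf hD

/-- a quadratic function with positive leading coefficient is unbounded -/
private theorem quad_unb {a b c M : ℝ} (ha : 0 < a) (n₀ : ℕ) :
    ∃ j : ℕ, n₀ ≤ j ∧ M < a * j ^ 2 + b * j + c := by
  obtain ⟨N, hN⟩ := exists_nat_ge ((|b| + |M - c| + 1) / a)
  refine ⟨max (max N n₀) 1, (le_max_right _ _).trans (le_max_left _ _), ?_⟩
  have h1 : (1 : ℝ) ≤ ((max (max N n₀) 1 : ℕ) : ℝ) := by exact_mod_cast le_max_right _ _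
  have h2 : (N : ℝ) ≤ ((max (max N n₀) 1 : ℕ) : ℝ) := by
    exact_mod_cast (le_max_left _ _).trans (le_max_left _ _)
  generalize ((max (max N n₀) 1 : ℕ) : ℝ) = x at h1 h2
  have h3 : |b| + |M - c| + 1 ≤ a * x := by
    rw [div_le_iff₀ ha] at hN
    nlinarith
  have h4 : (|b| + |M - c| + 1) * x ≤ a * x * x := mul_le_mul_of_nonneg_right h3 (by linarith)
  have h5 : -|b| ≤ b := neg_abs_le b
  have h6 : M - c ≤ |M - c| := le_abs_self _
  have h7 : 0 ≤ |M - c| := abs_nonneg _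
  have h8 : -|b| * x ≤ b * x := mul_le_mul_of_nonneg_right h5 (by linarith)
  have h9 : |M - c| ≤ |M - c| * x := le_mul_of_one_le_right h7 h1
  nlinarith

theorem t4 (hr : RR T l c) (hS : Sf H S ψ) (W : Cart X) (hW : T H H H < T W H H) :
    chS T l H W ≤ h0 (ψ W) 1 := by
  obtain ⟨hT, m, k₂, K₂, i1, i2, i3, i4, C, φ, hm, hC, hφ, hle, hdg, hch⟩ := crv_num hr hS
  have hm1 : (1 : ℝ) ≤ m := by exact_mod_cast hm
  obtain ⟨e, he⟩ : ∃ e : ℝ, e = ((Pool.Agent.H41.TK.chi C : ℤ) : ℝ) := ⟨_, rfl⟩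
  have ht := hr.tri
  obtain ⟨V, hV⟩ : ∃ V : ℕ → Cart X, V = fun j => W * H ^ (m * j) := ⟨_, rfl⟩
  have step : ∀ j : ℕ, (h0 (ψ (V (j + 1))) 1 : ℝ) ≤
      h0 (ψ (V j)) 1 + (chS T l H (V (j + 1)) - chS T l H (V j)) := by
    intro j
    have b1 := hle (V (j + 1))
    have b2 : V (j + 1) * (H ^ m)⁻¹ = V j := by
      rw [hV]
      show W * H ^ (m * (j + 1)) * (H ^ m)⁻¹ = W * H ^ (m * j)
      rw [mul_add, mul_one, pow_add, ← mul_assoc, mul_inv_cancel_right]
    rw [b2] at b1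
    have b3 := hdg (V (j + 1))
    have b4 : T (V (j + 1)) H H = T W H H + m * (j + 1) * T H H H := by
      rw [hV]
      show T (W * H ^ (m * (j + 1))) H H = _
      rw [ht.add, ht.pow]
      push_cast
      ring
    have hj : (0 : ℝ) ≤ j := Nat.cast_nonneg j
    have b6 : -2 * e < (dg (φ (V (j + 1))) : ℝ) := by
      rw [b3, b4, he, hch]
      have c2 : 0 < m * (T W H H - T H H H) := mul_pos (by linarith) (by linarith)
      have c3 : 0 ≤ m * m * (j : ℝ) * T H H H :=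
        mul_nonneg (mul_nonneg (mul_nonneg (by linarith) (by linarith)) hj) hT.le
      nlinarith
    have b7 : -2 * Pool.Agent.H41.TK.chi C < dg (φ (V (j + 1))) := by
      rw [he] at b6
      exact_mod_cast b6
    have b8 := h0_eq hC _ b7
    have b9 : (h0 (φ (V (j + 1))) 1 : ℝ) = dg (φ (V (j + 1))) + e := by
      rw [he]
      exact_mod_cast b8
    have b10 : (h0 (ψ (V (j + 1))) 1 : ℝ) ≤ h0 (ψ (V j)) 1 + h0 (φ (V (j + 1))) 1 := by
      exact_mod_cast b1
    have b12 := hr.chS_sub H (V (j + 1)) (H ^ m)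
    rw [b2, ht.pow2, ht.pow, ht.pow2, ht.pow] at b12
    rw [b9, b3, he, hch] at b10
    rw [b12]
    linarith
  have all : ∀ J : ℕ, (h0 (ψ (V J)) 1 : ℝ) ≤ h0 (ψ (V 0)) 1 + (chS T l H (V J) - chS T l H (V 0)) := by
    intro J
    induction J with
    | zero => simp
    | succ J ih =>
      have := step J
      linarith
  obtain ⟨n1, h1⟩ := sf_ev hr hS W H hS.hH
  have h2 := h1 (m * n1) (by nlinarith)
  have h3 := all n1
  have h4 : V n1 = W * H ^ (m * n1) := by rw [hV]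
  rw [← h4] at h2
  have h5 : V 0 = W := by
    rw [hV]
    show W * H ^ (m * 0) = W
    rw [mul_zero, pow_zero, mul_one]
  rw [h5] at h3
  linarith

theorem h0_nn (hr : RR T l c) (hS : Sf H S ψ) (W : Cart X) (hW : 0 < h0 (ψ W) 1) : 0 ≤ T W H H := by
  obtain ⟨hT, m, k₂, K₂, i1, i2, i3, i4, C, φ, hm, hC, hφ, hle, hdg, hch⟩ := crv_num hr hS
  have hm1 : (1 : ℝ) ≤ m := by exact_mod_cast hm
  have ht := hr.tri
  by_contra hneg
  push Not at hneg
  obtain ⟨V, hV⟩ : ∃ V : ℕ → Cart X, V = fun j => W * (H ^ (m * j))⁻¹ := ⟨_, rfl⟩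
  have pos : ∀ j : ℕ, 0 < h0 (ψ (V j)) 1 := by
    intro j
    induction j with
    | zero =>
      have h5 : V 0 = W := by
        rw [hV]
        show W * (H ^ (m * 0))⁻¹ = W
        rw [mul_zero, pow_zero, inv_one, mul_one]
      rw [h5]
      exact hW
    | succ j ih =>
      have b1 := hle (V j)
      have b2 : V j * (H ^ m)⁻¹ = V (j + 1) := by
        rw [hV]
        show W * (H ^ (m * j))⁻¹ * (H ^ m)⁻¹ = W * (H ^ (m * (j + 1)))⁻¹
        rw [mul_add, mul_one, pow_add, mul_inv, mul_assoc]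
      rw [b2] at b1
      have b3 := hdg (V j)
      have b4 : T (V j) H H = T W H H - m * j * T H H H := by
        rw [hV]
        show T (W * (H ^ (m * j))⁻¹) H H = _
        rw [ht.add, ht.inv, ht.pow]
        push_cast
        ring
      have hj : (0 : ℝ) ≤ j := Nat.cast_nonneg j
      have b5 : (dg (φ (V j)) : ℝ) < 0 := by
        rw [b3, b4]
        have c1 : 0 ≤ m * j * T H H H := mul_nonneg (mul_nonneg (by linarith) hj) hT.le
        exact mul_neg_of_pos_of_neg (by linarith) (by linarith)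
      have b6 : dg (φ (V j)) < 0 := by exact_mod_cast b5
      have b7 := h0_neg hC _ b6
      rw [b7] at b1
      omega
  obtain ⟨n₀, hn⟩ := sf_ev hr hS W⁻¹ H hS.hH
  obtain ⟨j, hj, hq⟩ := quad_unb (a := m ^ 2 * T H H H / 2) (b := -(m * T W H H) - m * T H H H / 2)
    (c := T W W H / 2 + T W H H / 2 + T H H H / 6 + l H) (M := (h0 (ψ 1) 1 : ℝ))
    (by positivity) n₀
  have h1 := hn (m * j) (hj.trans (by nlinarith))
  have h2 := mul_s hS (W⁻¹ * H ^ (m * j)) (V j) (pos j)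
  have h3 : W⁻¹ * H ^ (m * j) * V j = 1 := by
    rw [hV]
    show W⁻¹ * H ^ (m * j) * (W * (H ^ (m * j))⁻¹) = 1
    rw [mul_mul_mul_comm, inv_mul_cancel, mul_inv_cancel, mul_one]
  rw [h3] at h2
  have h4 : (h0 (ψ (W⁻¹ * H ^ (m * j))) 1 : ℝ) ≤ h0 (ψ 1) 1 := by exact_mod_cast h2
  rw [h1] at h4
  unfold chS at h4
  simp only [ht.add, ht.add2, ht.inv, ht.inv2, ht.pow, ht.pow2] at h4
  have e1 : T H W H = T W H H := ht.s12 _ _ _
  simp only [e1] at h4
  push_cast at h4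
  nlinarith

end Pool.Agent.H24.VP
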